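import Pool.Agent.H695R2.Simp.Vert

/-!
# Counting the steps of a shadow path on a fine grid of times
-/

namespace Pool.Agent.H695R2.Simp

open Matrix MeasureTheory

variable {ι J : Type} [Fintype ι] [Fintype J] {a : ι → J → ℝ} {b : ι → ℝ}

/-- the cell of the grid containing a given time -/
private theorem exists_cell {N : ℕ} {g : ℕ → ℝ} {s : ℝ} (h0 : g 0 ≤ s) (hN : s < g N) :
    ∃ l < N, g l ≤ s ∧ s < g (l + 1) := by
  induction N with
  | zero => exact absurd hN (not_lt.mpr h0)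
  | succ N ih =>
    by_cases h : s < g N
    · obtain ⟨l, hl, h1, h2⟩ := ih h
      exact ⟨l, by omega, h1, h2⟩
    · exact ⟨N, by omega, not_lt.mp h, hN⟩

private theorem t_mono {c w v : J → ℝ} {k : ℕ} {x : ℕ → J → ℝ} {t : ℕ → ℝ}
    (h : ShPath a b c w v k x t) {i j : ℕ} (hij : i ≤ j) (hj : j ≤ k) : t i ≤ t j := by
  induction j with
  | zero => have : i = 0 := by omega
            simp [this]
  | succ j ih =>
    rcases Nat.lt_or_ge i (j + 1) with h1 | h1
    · exact (ih (by omega) (by omega)).trans (h.tmono j (by omega)).le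
    · have : i = j + 1 := by omega
      rw [this]

private theorem step {c w v : J → ℝ} {k : ℕ} {x : ℕ → J → ℝ} {t : ℕ → ℝ}
    (h : ShPath a b c w v k x t) {N : ℕ} {g : ℕ → ℝ} (hg0 : g 0 = 0)
    (hmesh : ∀ l < N, ∀ j < k, g (l + 1) - g l < t (j + 1) - t j) (hlast : t k < g N)
    (j : ℕ) (hj : j < k) :
    ∃ p : ι × ℕ, p.2 < N ∧ g p.2 ≤ t (j + 1) ∧ t (j + 1) < g (p.2 + 1) ∧
      Leave a b c w p.1 (g p.2) (g (p.2 + 1)) := by
  have ht0 : 0 ≤ t (j + 1) := by
    have := t_mono h (Nat.zero_le (j + 1)) hj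
    rwa [h.t0] at this
  have htk : t (j + 1) < g N := lt_of_le_of_lt (t_mono h hj le_rfl) hlast
  obtain ⟨l, hl, h1, h2⟩ := exists_cell (by rw [hg0]; exact ht0) htk
  have hm := hmesh l hl j hj
  have hgl : t j < g l := by linarith
  have hxj : x j ∈ Mx a b (w + g l • c) := by
    rcases lt_or_eq_of_le h1 with h3 | h3
    · rw [h.uniq j hj _ hgl h3]; exact Set.mem_singleton _
    · rw [h3, h.pair j hj]; exact Set.mem_insert _ _
  have hxj1 : Mx a b (w + g (l + 1) • c) = {x (j + 1)} := by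
    rcases Nat.lt_or_ge (j + 1) k with h3 | h3
    · have hm' := hmesh l hl (j + 1) h3
      exact h.uniq (j + 1) h3 _ h2 (by linarith)
    · have h4 : j + 1 = k := by omega
      rw [h4]
      exact h.last _ (by rw [← h4]; exact h2)
  have hex : ∃ i, a i ⬝ᵥ x j = b i ∧ a i ⬝ᵥ x (j + 1) ≠ b i := by
    by_contra hcon
    push Not at hcon
    have hv : x j ∈ Vtx a b := hxj.1
    have hz := (vtx_iff (vtx_sub hv)).mp hv (x (j + 1) - x j) (fun l hl => by
      rw [dotProduct_sub, hcon l hl, hl, sub_self])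
    exact h.ne j hj (sub_eq_zero.mp hz).symm
  obtain ⟨i, hi1, hi2⟩ := hex
  refine ⟨(i, l), hl, h1, h2, ⟨x j, hxj, hi1⟩, ?_⟩
  rintro ⟨y, hy, hyi⟩
  simp only at hy
  rw [hxj1, Set.mem_singleton_iff] at hy
  exact hi2 (hy ▸ hyi)

open Classical in
theorem count {c w v : J → ℝ} {k : ℕ} {x : ℕ → J → ℝ} {t : ℕ → ℝ}
    (h : ShPath a b c w v k x t) {N : ℕ} {g : ℕ → ℝ} (hg0 : g 0 = 0)
    (hg : ∀ l < N, g l < g (l + 1))
    (hmesh : ∀ l < N, ∀ j < k, g (l + 1) - g l < t (j + 1) - t j) (hlast : t k < g N) :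
    k ≤ ((Finset.univ ×ˢ Finset.range N).filter
      (fun p : ι × ℕ => Leave a b c w p.1 (g p.2) (g (p.2 + 1)))).card := by
  rcases Nat.eq_zero_or_pos k with hk0 | hk0
  · omega
  obtain ⟨p0, -⟩ := step h hg0 hmesh hlast 0 hk0
  have hstep := step h hg0 hmesh hlast
  have hstep' : ∀ j : ℕ, ∃ p : ι × ℕ, j < k → (p.2 < N ∧ g p.2 ≤ t (j + 1) ∧ t (j + 1) < g (p.2 + 1) ∧
      Leave a b c w p.1 (g p.2) (g (p.2 + 1))) := by
    intro j
    by_cases hj : j < k
    · obtain ⟨p, hp⟩ := hstep j hj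
      exact ⟨p, fun _ => hp⟩
    · exact ⟨p0, fun h' => absurd h' hj⟩
  choose f hf using hstep'
  have hcard : k = (Finset.range k).card := by simp
  calc k = (Finset.range k).card := hcard
    _ ≤ _ := ?_
  apply Finset.card_le_card_of_injOn f
  · intro j hj
    have hj' : j < k := Finset.mem_range.mp (by simpa using hj)
    obtain ⟨h1, -, -, h4⟩ := hf j hj'
    simp only [Finset.coe_filter, Finset.mem_product, Finset.mem_univ, Finset.mem_range, true_and,
      Set.mem_setOf_eq]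
    exact ⟨h1, h4⟩
  · have key : ∀ j j' : ℕ, j < j' → j' < k → f j ≠ f j' := by
      intro j j' hjj hj' he
      obtain ⟨h1, h2, h3, -⟩ := hf j (by omega)
      obtain ⟨h1', h2', h3', -⟩ := hf j' hj'
      rw [← he] at h2' h3'
      have hm := hmesh (f j).2 h1 j' hj'
      have ht := t_mono h (show j + 1 ≤ j' by omega) hj'.le
      linarith
    intro j hj j' hj' he
    have hj1 : j < k := Finset.mem_range.mp (by simpa using hj)
    have hj2 : j' < k := Finset.mem_range.mp (by simpa using hj')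
    rcases lt_trichotomy j j' with h1 | h1 | h1
    · exact absurd he (key j j' h1 hj2)
    · exact h1
    · exact absurd he.symm (key j' j h1 hj1)

end Pool.Agent.H695R2.Simp
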