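import Mathlib

/-!
# Shadow paths on polyhedra: definitions
-/

namespace Pool.Agent.H695R2.Simp

open Matrix MeasureTheory

variable {ι J : Type} [Fintype ι] [Fintype J]

/-- the real matrix of an integral matrix -/
def re (A : ι → J → ℤ) : ι → J → ℝ := fun i j => (A i j : ℝ)

/-- the polyhedron `a x ≤ b` -/
def Pol (a : ι → J → ℝ) (b : ι → ℝ) : Set (J → ℝ) := {x | ∀ i, a i ⬝ᵥ x ≤ b i}

/-- the vertices -/
def Vtx (a : ι → J → ℝ) (b : ι → ℝ) : Set (J → ℝ) := (Pol a b).extremePoints ℝ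

/-- the vertices maximising `y` (among the vertices) -/
def Mx (a : ι → J → ℝ) (b : ι → ℝ) (y : J → ℝ) : Set (J → ℝ) :=
  {x | x ∈ Vtx a b ∧ ∀ x' ∈ Vtx a b, y ⬝ᵥ x' ≤ y ⬝ᵥ x}

/-- some vertex maximising `y` lies on the hyperplane of the constraint `i` -/
def At (a : ι → J → ℝ) (b : ι → ℝ) (i : ι) (y : J → ℝ) : Prop := ∃ x ∈ Mx a b y, a i ⬝ᵥ x = b i

/-- elementary directions: the rows orthogonal to `z` determine `z` up to scaling -/
def Elem (a : ι → J → ℝ) (z : J → ℝ) : Prop :=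
  z ≠ 0 ∧ ∀ z' : J → ℝ, (∀ l, a l ⬝ᵥ z = 0 → a l ⬝ᵥ z' = 0) → ∃ r : ℝ, z' = r • z

/-- combination of rows -/
def wt (a : ι → J → ℝ) (u : J → ι) (lam : J → ℝ) : J → ℝ := ∑ j, lam j • a (u j)

/-- genericity of `w`: at most two maximising vertices at each time -/
def Gen (a : ι → J → ℝ) (b : ι → ℝ) (c w : J → ℝ) : Prop :=
  ∀ t : ℝ, ∀ x₁ ∈ Mx a b (w + t • c), ∀ x₂ ∈ Mx a b (w + t • c), ∀ x₃ ∈ Mx a b (w + t • c),
    x₁ = x₂ ∨ x₁ = x₃ ∨ x₂ = x₃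

/-- a shadow path with `k` steps from `v` for the objectives `w + t c`, `t ≥ 0`: the steps happen
at the times `t 1 < ... < t k`, and `x j` is the unique maximiser between `t j` and `t (j+1)`
(for ever after `t k`) -/
structure ShPath (a : ι → J → ℝ) (b : ι → ℝ) (c w v : J → ℝ) (k : ℕ) (x : ℕ → J → ℝ)
    (t : ℕ → ℝ) : Prop where
  x0 : x 0 = v
  t0 : t 0 = 0
  tmono : ∀ j < k, t j < t (j + 1)
  pair : ∀ j < k, Mx a b (w + t (j + 1) • c) = {x j, x (j + 1)}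
  ne : ∀ j < k, x j ≠ x (j + 1)
  incr : ∀ j < k, c ⬝ᵥ x j < c ⬝ᵥ x (j + 1)
  uniq : ∀ j < k, ∀ s, t j < s → s < t (j + 1) → Mx a b (w + s • c) = {x j}
  last : ∀ s, t k < s → Mx a b (w + s • c) = {x k}
  opt : ∀ x' ∈ Vtx a b, c ⬝ᵥ x' ≤ c ⬝ᵥ x k

/-- the constraint `i` is left between the times `s` and `s'` -/
def Leave (a : ι → J → ℝ) (b : ι → ℝ) (c w : J → ℝ) (i : ι) (s s' : ℝ) : Prop :=
  At a b i (w + s • c) ∧ ¬ At a b i (w + s' • c)

/-- the set of maximisers of `y` over `P` -/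
def Arg (P : Set (J → ℝ)) (y : J → ℝ) : Set (J → ℝ) := {p | p ∈ P ∧ ∀ q ∈ P, y ⬝ᵥ q ≤ y ⬝ᵥ p}

/-- the shadow vertex path with `k` steps from the vertex `v` of `P`, for the auxiliary objective
`w` and the objective `c`: the maximisers of `w + t c` over `P` form the edge from `x j` to
`x (j + 1)` at the time `t (j + 1)`, and the path ends at an optimal vertex or at a vertex with an
unbounded edge along which `c` increases -/
structure Shadow (P : Set (J → ℝ)) (w c v : J → ℝ) (k : ℕ) (x : ℕ → J → ℝ) (t : ℕ → ℝ) :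
    Prop where
  first : x 0 = v
  start : Arg P w = {v}
  zero : t 0 = 0
  times : ∀ j < k, t j < t (j + 1)
  vertex : ∀ j ≤ k, x j ∈ P.extremePoints ℝ
  ne : ∀ j < k, x j ≠ x (j + 1)
  edge : ∀ j < k, Arg P (w + t (j + 1) • c) = segment ℝ (x j) (x (j + 1))
  finish : (∀ p ∈ P, c ⬝ᵥ p ≤ c ⬝ᵥ x k) ∨
    ∃ s > t k, ∃ z : J → ℝ, 0 < c ⬝ᵥ z ∧ Arg P (w + s • c) = {p | ∃ r : ℝ, 0 ≤ r ∧ p = x k + r • z}

end Pool.Agent.H695R2.Simp
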