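import Pool.Agent.H695R2.Simp.Defs

/-!
# Elementary directions of integral matrices
-/

namespace Pool.Agent.H695R2.Simp

open Matrix

variable {ι J : Type} [Fintype ι] [Fintype J] [DecidableEq J]

omit [Fintype ι] in
theorem span_top_of_orth {t : Set (J → ℝ)} (h : ∀ z : J → ℝ, (∀ x ∈ t, x ⬝ᵥ z = 0) → z = 0) :
    Submodule.span ℝ t = ⊤ := by
  by_contra hne
  obtain ⟨f, hf, hle⟩ := Submodule.exists_le_ker_of_lt_top _ (lt_top_iff_ne_top.mpr hne)
  apply hf
  have hrep : ∀ x : J → ℝ, f x = x ⬝ᵥ (fun j => f (fun k => if j = k then 1 else 0)) := by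
    intro x
    rw [LinearMap.pi_apply_eq_sum_univ f x]
    simp [dotProduct]
  have hz : (fun j => f (fun k => if j = k then 1 else 0)) = (0 : J → ℝ) := by
    apply h
    intro x hx
    rw [← hrep]
    exact LinearMap.mem_ker.mp (hle (Submodule.subset_span hx))
  ext x
  simp only [LinearMap.coe_comp, Function.comp_apply, LinearMap.zero_apply, LinearMap.comp_apply]
  rw [hrep, hz, dotProduct_zero]

omit [Fintype ι] in
theorem basis_ext {s t : Set (J → ℝ)} (ht : Submodule.span ℝ t = ⊤) (hst : s ⊆ t)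
    (hs : LinearIndepOn ℝ id s) : ∃ e : J → (J → ℝ), LinearIndependent ℝ e ∧ (∀ j, e j ∈ t) ∧
      ∀ x ∈ s, ∃ j, e j = x := by
  classical
  set b := hs.extend hst with hb
  have hli : LinearIndependent ℝ (fun x : b => (x : J → ℝ)) := hs.linearIndepOn_extend hst
  have hsp : ⊤ ≤ Submodule.span ℝ (Set.range (fun x : b => (x : J → ℝ))) := by
    rw [Subtype.range_coe]
    rw [← ht]
    exact Submodule.span_le.mpr (hs.subset_span_extend hst)
  let B : Module.Basis b ℝ (J → ℝ) := Module.Basis.mk hli hsp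
  let q : b ≃ J := B.indexEquiv (Pi.basisFun ℝ J)
  refine ⟨fun j => ((q.symm j : b) : J → ℝ), ?_, ?_, ?_⟩
  · exact hli.comp _ q.symm.injective
  · intro j
    exact hs.extend_subset hst (q.symm j).2
  · intro x hx
    refine ⟨q ⟨x, hs.subset_extend hst hx⟩, ?_⟩
    simp

theorem elem_int {A : ι → J → ℤ} {Δ : ℕ}
    (hdet : ∀ f : J → ι, |(Matrix.of fun j => A (f j)).det| ≤ Δ) {z : J → ℝ}
    (hz : Elem (re A) z) : ∃ s : ℝ, s ≠ 0 ∧ (∃ ζ : J → ℤ, s • z = fun j => (ζ j : ℝ)) ∧
      ∀ i, |re A i ⬝ᵥ (s • z)| ≤ Δ := by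
  classical
  obtain ⟨hz0, hz1⟩ := hz
  have hzz : z ⬝ᵥ z ≠ 0 := fun h => hz0 (dotProduct_self_eq_zero.mp h)
  set t : Set (J → ℝ) := {z} ∪ {x | ∃ l, re A l ⬝ᵥ z = 0 ∧ x = re A l} with ht
  have hspan : Submodule.span ℝ t = ⊤ := by
    apply span_top_of_orth
    intro z' hz'
    obtain ⟨r, hr⟩ := hz1 z' (fun l hl => hz' _ (Or.inr ⟨l, hl, rfl⟩))
    have h1 := hz' z (Or.inl rfl)
    rw [hr, dotProduct_smul, smul_eq_mul, mul_eq_zero] at h1
    rcases h1 with h1 | h1
    · rw [hr, h1, zero_smul]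
    · exact absurd h1 hzz
  have hs : LinearIndepOn ℝ id ({z} : Set (J → ℝ)) := (linearIndepOn_singleton_iff ℝ).mpr hz0
  obtain ⟨e, he1, he2, he3⟩ := basis_ext hspan (Set.subset_union_left) hs
  obtain ⟨j0, hj0⟩ := he3 z rfl
  have hu : ∀ j, j ≠ j0 → ∃ l, re A l ⬝ᵥ z = 0 ∧ e j = re A l := by
    intro j hj
    rcases he2 j with h | h
    · exfalso
      exact hj (he1.injective ((Set.mem_singleton_iff.mp h).trans hj0.symm))
    · exact h
  choose u hu1 hu2 using hu
  -- integral matrix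
  set M : Matrix J J ℤ := Matrix.of (fun j => if h : j = j0 then 0 else A (u j h)) with hM
  set MR : Matrix J J ℝ := M.map (Int.cast : ℤ → ℝ) with hMR
  set ζ : J → ℤ := fun k => (M.updateRow j0 (Pi.single k 1)).det with hζ
  have hζR : ∀ x : J → ℝ, x ⬝ᵥ (fun k => (ζ k : ℝ)) = (MR.updateRow j0 x).det := by
    intro x
    have h1 : ∀ k, (ζ k : ℝ) = (MR.updateRow j0 (Pi.single k 1)).det := by
      intro k
      rw [hζ]
      have h2 : (((M.updateRow j0 (Pi.single k 1)).det : ℤ) : ℝ) =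
          ((M.updateRow j0 (Pi.single k 1)).map (Int.cast : ℤ → ℝ)).det := by
        exact (RingHom.map_det (Int.castRingHom ℝ) _)
      rw [h2]
      congr 1
      ext i j
      by_cases hi : i = j0
      · subst hi
        by_cases hk : j = k
        · subst hk; simp
        · simp [hk]
      · simp [hi, hMR]
    have h3 : (MR.updateRow j0 x).det = ∑ k, x k * (MR.updateRow j0 (Pi.single k 1)).det := by
      have h4 : x = ∑ k, x k • (Pi.single k (1 : ℝ) : J → ℝ) := by
        ext i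
        simp [Finset.sum_apply, Pi.single_apply]
      let F : (J → ℝ) →ₗ[ℝ] ℝ :=
        { toFun := fun x => (MR.updateRow j0 x).det
          map_add' := fun x y => Matrix.det_updateRow_add _ _ _ _
          map_smul' := fun c x => by rw [Matrix.det_updateRow_smul]; rfl }
      have h5 : F x = ∑ k, x k * F (Pi.single k 1) := by
        conv_lhs => rw [h4]
        rw [map_sum]
        apply Finset.sum_congr rfl
        intro k _
        rw [map_smul, smul_eq_mul]
      exact h5
    rw [h3, dotProduct]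
    apply Finset.sum_congr rfl
    intro k _
    rw [h1]
  have hrow : ∀ j, j ≠ j0 → ∀ x : J → ℝ, (MR.updateRow j0 x) j = e j := by
    intro j hj x
    rw [Matrix.updateRow_ne hj, hu2 j hj]
    ext k
    simp [hMR, hM, hj, re]
  have hker : ∀ l, re A l ⬝ᵥ z = 0 → re A l ⬝ᵥ (fun k => (ζ k : ℝ)) = 0 := by
    intro l hl
    rw [hζR]
    rw [← Matrix.exists_mulVec_eq_zero_iff]
    refine ⟨z, hz0, ?_⟩
    ext j
    rw [Matrix.mulVec, Pi.zero_apply]
    by_cases hj : j = j0
    · subst hj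
      rw [Matrix.updateRow_self]
      exact hl
    · rw [hrow j hj, hu2 j hj]
      exact hu1 j hj
  obtain ⟨r, hr⟩ := hz1 _ hker
  have hζz : z ⬝ᵥ (fun k => (ζ k : ℝ)) ≠ 0 := by
    rw [hζR]
    have h1 : (MR.updateRow j0 z) = Matrix.of e := by
      ext j k
      by_cases hj : j = j0
      · subst hj
        rw [Matrix.updateRow_self, ← hj0]; rfl
      · rw [hrow j hj]; rfl
    rw [h1]
    have h2 : LinearIndependent ℝ (Matrix.of e).row := he1
    rw [Matrix.linearIndependent_rows_iff_isUnit] at h2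
    exact ((Matrix.isUnit_iff_isUnit_det _).mp h2).ne_zero
  have hr0 : r ≠ 0 := by
    rintro rfl
    apply hζz
    rw [hr, zero_smul, dotProduct_zero]
  refine ⟨r, hr0, ⟨ζ, hr.symm⟩, fun i => ?_⟩
  rw [← hr, hζR]
  have h1 : (MR.updateRow j0 (re A i)).det =
      (((Matrix.of fun j => A ((fun j => if h : j = j0 then i else u j h) j)).det : ℤ) : ℝ) := by
    have h2 : (((Matrix.of fun j => A ((fun j => if h : j = j0 then i else u j h) j)).det : ℤ) : ℝ) =
          ((Matrix.of fun j => A ((fun j => if h : j = j0 then i else u j h) j)).map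
            (Int.cast : ℤ → ℝ)).det := RingHom.map_det (Int.castRingHom ℝ) _
    rw [h2]
    congr 1
    ext j k
    by_cases hj : j = j0
    · subst hj
      simp [re]
    · rw [hrow j hj, hu2 j hj]
      simp [re, hj]
  rw [h1]
  have h3 := hdet (fun j => if h : j = j0 then i else u j h)
  exact_mod_cast h3

theorem coeff_bound {A : ι → J → ℤ} {Δ : ℕ}
    (hdet : ∀ f : J → ι, |(Matrix.of fun j => A (f j)).det| ≤ Δ) {u : J → ι}
    (hu : LinearIndependent ℝ (fun j => re A (u j))) (i : ι) :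
    ∃ β : J → ℝ, re A i = wt (re A) u β ∧ ∀ j, |β j| ≤ Δ := by
  set M : Matrix J J ℤ := Matrix.of (fun j => A (u j)) with hM
  set MR : Matrix J J ℝ := Matrix.of (fun j => re A (u j)) with hMR
  have hdetMR : MR.det = ((M.det : ℤ) : ℝ) := by
    have h2 : ((M.det : ℤ) : ℝ) = (M.map (Int.cast : ℤ → ℝ)).det :=
      RingHom.map_det (Int.castRingHom ℝ) _
    rw [h2]
    rfl
  have h1 : LinearIndependent ℝ MR.row := hu
  rw [Matrix.linearIndependent_rows_iff_isUnit] at h1
  have h2 : MR.det ≠ 0 := ((Matrix.isUnit_iff_isUnit_det _).mp h1).ne_zero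
  have h3 : M.det ≠ 0 := by
    intro h
    apply h2
    rw [hdetMR, h]; simp
  have h4 : (1 : ℝ) ≤ |MR.det| := by
    rw [hdetMR]
    have := Int.one_le_abs h3
    exact_mod_cast this
  refine ⟨fun j => (MR.det)⁻¹ * Matrix.cramer MRᵀ (re A i) j, ?_, ?_⟩
  · have h5 := Matrix.mulVec_cramer MRᵀ (re A i)
    rw [Matrix.det_transpose] at h5
    have h6 : re A i = (MR.det)⁻¹ • (MRᵀ *ᵥ Matrix.cramer MRᵀ (re A i)) := by
      rw [h5, smul_smul, inv_mul_cancel₀ h2, one_smul]
    rw [h6]
    ext k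
    simp only [wt, Pi.smul_apply, smul_eq_mul, Matrix.mulVec, dotProduct, Finset.sum_apply,
      Matrix.transpose_apply, Finset.mul_sum]
    apply Finset.sum_congr rfl
    intro j _
    rw [← h6]
    simp only [hMR, Matrix.of_apply]
    ring
  · intro j
    rw [abs_mul, abs_inv]
    have h7 : Matrix.cramer MRᵀ (re A i) j =
        (((Matrix.of fun k => A (Function.update u j i k)).det : ℤ) : ℝ) := by
      rw [Matrix.cramer_transpose_apply]
      have h8 : (((Matrix.of fun k => A (Function.update u j i k)).det : ℤ) : ℝ) =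
          ((Matrix.of fun k => A (Function.update u j i k)).map (Int.cast : ℤ → ℝ)).det :=
        RingHom.map_det (Int.castRingHom ℝ) _
      rw [h8]
      congr 1
      ext k l
      by_cases hk : k = j
      · subst hk
        simp [re]
      · rw [Matrix.updateRow_ne hk]
        simp [hMR, re, hk]
    rw [h7]
    have h9 : |(((Matrix.of fun k => A (Function.update u j i k)).det : ℤ) : ℝ)| ≤ Δ := by
      exact_mod_cast hdet (Function.update u j i)
    have h10 : |MR.det|⁻¹ ≤ 1 := inv_le_one_of_one_le₀ h4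
    calc |MR.det|⁻¹ * |(((Matrix.of fun k => A (Function.update u j i k)).det : ℤ) : ℝ)|
        ≤ 1 * Δ := by gcongr
      _ = Δ := one_mul _

theorem exists_basis {a : ι → J → ℝ} {b : ι → ℝ} {v : J → ℝ} (hv : v ∈ Pol a b)
    (h : ∀ z : J → ℝ, (∀ l, a l ⬝ᵥ v = b l → a l ⬝ᵥ z = 0) → z = 0) :
    ∃ u : J → ι, LinearIndependent ℝ (fun j => a (u j)) ∧ ∀ j, a (u j) ⬝ᵥ v = b (u j) := by
  set t : Set (J → ℝ) := {x | ∃ l, a l ⬝ᵥ v = b l ∧ x = a l} with ht
  have hspan : Submodule.span ℝ t = ⊤ := by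
    apply span_top_of_orth
    intro z hz
    exact h z (fun l hl => hz _ ⟨l, hl, rfl⟩)
  obtain ⟨e, he1, he2, -⟩ := basis_ext hspan (Set.empty_subset t) (linearIndepOn_empty ℝ id)
  choose u hu1 hu2 using he2
  refine ⟨u, ?_, hu1⟩
  have : (fun j => a (u j)) = e := by
    ext1 j
    exact (hu2 j).symm
  rw [this]
  exact he1

end Pool.Agent.H695R2.Simp
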