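import Mathlib

/-!
# Rounding a linear functional without changing its signs on small integer vectors
-/

namespace Pool.Agent.H695R2.Simp

open Matrix

variable {J : Type} [Fintype J]

/-- The real vector of an integer vector. -/
private def rv (z : J → ℤ) : J → ℝ := fun j => (z j : ℝ)

/-- `g` is at least one on `P` and vanishes on `O`. -/
private def Feas (P O : Finset (J → ℤ)) (g : J → ℝ) : Prop :=
  (∀ z ∈ P, 1 ≤ g ⬝ᵥ rv z) ∧ ∀ z ∈ O, g ⬝ᵥ rv z = 0

private lemma exists_feas (P O : Finset (J → ℤ)) (γ : J → ℝ) (hP : ∀ z ∈ P, 0 < γ ⬝ᵥ rv z)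
    (hO : ∀ z ∈ O, γ ⬝ᵥ rv z = 0) : ∃ g, Feas P O g := by
  classical
  rcases P.eq_empty_or_nonempty with rfl | hne
  · exact ⟨γ, by simp, hO⟩
  · obtain ⟨z0, hz0, hmin⟩ := P.exists_min_image (fun z => γ ⬝ᵥ rv z) hne
    refine ⟨(γ ⬝ᵥ rv z0)⁻¹ • γ, fun z hz => ?_, fun z hz => ?_⟩
    · rw [smul_dotProduct, smul_eq_mul]
      have h0 := hP z0 hz0
      have h1 := hmin z hz
      rw [inv_mul_eq_div, le_div_iff₀ h0]
      simpa using h1
    · rw [smul_dotProduct, hO z hz, smul_zero]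

private lemma exists_good (P O : Finset (J → ℤ)) (g0 : J → ℝ) (hg0 : Feas P O g0) :
    ∃ g, Feas P O g ∧ ∀ q : J → ℝ, (∀ z ∈ P, g ⬝ᵥ rv z = 1 → q ⬝ᵥ rv z = 0) →
      (∀ z ∈ O, q ⬝ᵥ rv z = 0) → ∀ z ∈ P, q ⬝ᵥ rv z = 0 := by
  classical
  -- minimise the number of loose constraints
  have hex : ∃ n : ℕ, ∃ g, Feas P O g ∧ (P.filter (fun z => g ⬝ᵥ rv z ≠ 1)).card = n :=
    ⟨_, g0, hg0, rfl⟩
  obtain ⟨g, hg, hcard⟩ := Nat.find_spec hex
  have hmin : ∀ g', Feas P O g' →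
      (P.filter (fun z => g ⬝ᵥ rv z ≠ 1)).card ≤ (P.filter (fun z => g' ⬝ᵥ rv z ≠ 1)).card := by
    intro g' hg'
    rw [hcard]
    exact Nat.find_min' hex ⟨g', hg', rfl⟩
  refine ⟨g, hg, ?_⟩
  -- the one-sided statement
  have key : ∀ q : J → ℝ, (∀ z ∈ P, g ⬝ᵥ rv z = 1 → q ⬝ᵥ rv z = 0) →
      (∀ z ∈ O, q ⬝ᵥ rv z = 0) → ∀ z ∈ P, 0 ≤ q ⬝ᵥ rv z := by
    intro q hq1 hq2 z hz
    by_contra hneg
    push Not at hneg
    obtain ⟨w, hw, hwmin⟩ := (P.filter (fun z => q ⬝ᵥ rv z < 0)).exists_min_image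
      (fun z => (g ⬝ᵥ rv z - 1) / (-(q ⬝ᵥ rv z))) ⟨z, Finset.mem_filter.2 ⟨hz, hneg⟩⟩
    rw [Finset.mem_filter] at hw
    set t : ℝ := (g ⬝ᵥ rv w - 1) / (-(q ⬝ᵥ rv w)) with ht
    have hwneg : 0 < -(q ⬝ᵥ rv w) := by linarith [hw.2]
    have ht0 : 0 ≤ t := div_nonneg (by linarith [hg.1 w hw.1]) hwneg.le
    have hfe : Feas P O (g + t • q) := by
      refine ⟨fun x hx => ?_, fun x hx => ?_⟩
      · rw [add_dotProduct, smul_dotProduct, smul_eq_mul]
        rcases lt_or_ge (q ⬝ᵥ rv x) 0 with hlt | hge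
        · have h1 := hwmin x (Finset.mem_filter.2 ⟨hx, hlt⟩)
          have h2 : 0 < -(q ⬝ᵥ rv x) := by linarith
          have h3 : t ≤ (g ⬝ᵥ rv x - 1) / (-(q ⬝ᵥ rv x)) := h1
          rw [le_div_iff₀ h2] at h3
          linarith
        · have := hg.1 x hx
          nlinarith [mul_nonneg ht0 hge]
      · rw [add_dotProduct, smul_dotProduct, hg.2 x hx, hq2 x hx]
        simp
    have hwt : (g + t • q) ⬝ᵥ rv w = 1 := by
      rw [add_dotProduct, smul_dotProduct, smul_eq_mul]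
      have : t * (-(q ⬝ᵥ rv w)) = g ⬝ᵥ rv w - 1 := by
        rw [ht]; exact div_mul_cancel₀ _ hwneg.ne'
      linarith
    have hlt : (P.filter (fun z => (g + t • q) ⬝ᵥ rv z ≠ 1)).card <
        (P.filter (fun z => g ⬝ᵥ rv z ≠ 1)).card := by
      apply Finset.card_lt_card
      rw [Finset.ssubset_iff_of_subset]
      · refine ⟨w, Finset.mem_filter.2 ⟨hw.1, fun h1 => ?_⟩, fun h1 => ?_⟩
        · have := hq1 w hw.1 h1
          linarith [hw.2]
        · exact (Finset.mem_filter.1 h1).2 hwt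
      · intro x hx
        rw [Finset.mem_filter] at hx ⊢
        refine ⟨hx.1, fun h1 => hx.2 ?_⟩
        rw [add_dotProduct, smul_dotProduct, hq1 x hx.1 h1, h1]
        simp
    exact absurd (hmin _ hfe) (not_le.2 hlt)
  intro q hq1 hq2 z hz
  have h1 := key q hq1 hq2 z hz
  have h2 := key (-q) (fun z hz h => by rw [neg_dotProduct, hq1 z hz h, neg_zero])
    (fun z hz => by rw [neg_dotProduct, hq2 z hz, neg_zero]) z hz
  rw [neg_dotProduct] at h2
  linarith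

private lemma solve [DecidableEq J] (D : ℕ) (H : Matrix J J ℝ) (Hz : Matrix J J ℤ)
    (hH : ∀ i j, H i j = (Hz i j : ℝ)) (hli : LinearIndependent ℝ H.row)
    (hHD : ∀ i j, |H i j| ≤ D) (r : J → ℝ) (hr : ∀ i, |r i| ≤ D) :
    ∃ g : J → ℝ, (∀ j, |g j| ≤ ((Fintype.card J).factorial * D ^ Fintype.card J : ℕ)) ∧
      H *ᵥ g = r := by
  have hu : IsUnit H := Matrix.linearIndependent_rows_iff_isUnit.1 hli
  have hdet : H.det ≠ 0 := ((Matrix.isUnit_iff_isUnit_det H).1 hu).ne_zero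
  have hHz : H = Hz.map (Int.cast : ℤ → ℝ) := by
    ext i j; simp [hH]
  have hdz : H.det = (Hz.det : ℝ) := by
    rw [hHz]
    exact (Int.cast_det Hz).symm
  have h1 : 1 ≤ |H.det| := by
    rw [hdz] at hdet ⊢
    have : Hz.det ≠ 0 := by
      intro h; apply hdet; rw [h]; simp
    have h2 : 1 ≤ |Hz.det| := Int.one_le_abs this
    exact_mod_cast h2
  refine ⟨(H.det)⁻¹ • cramer H r, fun j => ?_, ?_⟩
  · rw [Pi.smul_apply, smul_eq_mul, abs_mul, abs_inv]
    have h3 : |cramer H r j| ≤ ((Fintype.card J).factorial * D ^ Fintype.card J : ℕ) := by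
      rw [cramer_apply]
      have := Matrix.det_le (A := H.updateCol j r) (abv := AbsoluteValue.abs) (x := (D : ℝ))
        (fun i k => by
          change |H.updateCol j r i k| ≤ D
          rw [Matrix.updateCol_apply]
          split_ifs
          · exact hr i
          · exact hHD i k)
      rw [nsmul_eq_mul] at this
      push_cast
      exact this
    have h4 : |H.det|⁻¹ ≤ 1 := inv_le_one_of_one_le₀ h1
    calc |H.det|⁻¹ * |cramer H r j| ≤ 1 * |cramer H r j| :=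
          mul_le_mul_of_nonneg_right h4 (abs_nonneg _)
      _ ≤ _ := by rw [one_mul]; exact h3
  · rw [Matrix.mulVec_smul, Matrix.mulVec_cramer, smul_smul, inv_mul_cancel₀ hdet, one_smul]

theorem round (D : ℕ) (hD : 1 ≤ D) (γ : J → ℝ) : ∃ γ' : J → ℝ,
    (∀ j, |γ' j| ≤ ((Fintype.card J).factorial * D ^ Fintype.card J : ℕ)) ∧
    ∀ z : J → ℤ, (∀ j, |z j| ≤ D) →
      (0 < γ ⬝ᵥ (fun j => (z j : ℝ)) → 1 ≤ γ' ⬝ᵥ (fun j => (z j : ℝ))) ∧
      (γ ⬝ᵥ (fun j => (z j : ℝ)) = 0 → γ' ⬝ᵥ (fun j => (z j : ℝ)) = 0) := by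
  classical
  -- the finite set of small integer vectors
  let Z : Finset (J → ℤ) := Fintype.piFinset (fun _ => Finset.Icc (-(D : ℤ)) D)
  have hZ : ∀ z : J → ℤ, z ∈ Z ↔ ∀ j, |z j| ≤ D := by
    intro z
    simp only [Z, Fintype.mem_piFinset, Finset.mem_Icc, abs_le]
  let P : Finset (J → ℤ) := Z.filter (fun z => 0 < γ ⬝ᵥ rv z)
  let O : Finset (J → ℤ) := Z.filter (fun z => γ ⬝ᵥ rv z = 0)
  obtain ⟨g0, hg0⟩ := exists_feas P O γ (fun z hz => (Finset.mem_filter.1 hz).2)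
    (fun z hz => (Finset.mem_filter.1 hz).2)
  obtain ⟨g, hg, hgood⟩ := exists_good P O g0 hg0
  let T : Set (J → ℝ) := {x | ∃ z : J → ℤ, (∀ j, |z j| ≤ D) ∧ ((z ∈ P ∧ g ⬝ᵥ rv z = 1) ∨ z ∈ O) ∧
    rv z = x}
  obtain ⟨b, hbT, hbspan, hbli⟩ := exists_linearIndependent ℝ T
  let U : Set (J → ℝ) := Set.range (fun j : J => (Pi.single j 1 : J → ℝ))
  have hbli' : LinearIndepOn ℝ id b := hbli
  obtain ⟨c, hcU, hbc, hUc, hcli⟩ := exists_linearIndepOn_id_extension hbli'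
    (Set.subset_union_left : b ⊆ b ∪ U)
  have hctop : ⊤ ≤ Submodule.span ℝ c := by
    have h1 : Submodule.span ℝ U = ⊤ := by
      have := (Pi.basisFun ℝ J).span_eq
      have h2 : Set.range (Pi.basisFun ℝ J) = U := by
        ext x; simp [U, Pi.basisFun_apply]
      rw [h2] at this
      exact this
    rw [← h1]
    exact Submodule.span_le.2 (fun x hx => hUc (Or.inr hx))
  have hcli' : LinearIndependent ℝ ((↑) : c → J → ℝ) := hcli
  let B : Module.Basis c ℝ (J → ℝ) := Module.Basis.mk hcli' (by simpa using hctop)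
  haveI : Fintype c := FiniteDimensional.fintypeBasisIndex B
  have hcard : Fintype.card c = Fintype.card J := by
    have := Module.finrank_eq_card_basis B
    rw [Module.finrank_fintype_fun_eq_card] at this
    exact this.symm
  let e : J ≃ c := (Fintype.equivOfCardEq hcard).symm
  have hrow : ∀ x ∈ c, ∃ h : J → ℤ, (∀ j, |h j| ≤ D) ∧ rv h = x := by
    intro x hx
    rcases hcU hx with hx | ⟨j, rfl⟩
    · obtain ⟨z, hz, -, rfl⟩ := hbT hx
      exact ⟨z, hz, rfl⟩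
    · refine ⟨Pi.single j 1, fun k => ?_, ?_⟩
      · rcases eq_or_ne k j with rfl | hk
        · simp only [Pi.single_eq_same, abs_one]; exact_mod_cast hD
        · simp [Pi.single_eq_of_ne hk]
      · ext k
        rcases eq_or_ne k j with rfl | hk
        · simp [rv]
        · simp [rv, Pi.single_eq_of_ne hk]
  choose h hh1 hh2 using hrow
  let Hz : Matrix J J ℤ := fun i => h (e i) (e i).2
  let H : Matrix J J ℝ := fun i => (e i : J → ℝ)
  have hH : ∀ i j, H i j = (Hz i j : ℝ) := by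
    intro i j
    change (e i : J → ℝ) j = _
    rw [← hh2 (e i) (e i).2]
    rfl
  have hli : LinearIndependent ℝ H.row := by
    have : H.row = ((↑) : c → J → ℝ) ∘ e := rfl
    rw [this]
    exact hcli'.comp e e.injective
  have hHD : ∀ i j, |H i j| ≤ D := by
    intro i j
    rw [hH i j]
    have := hh1 (e i) (e i).2 j
    exact_mod_cast this
  let r : J → ℝ := fun i => if (e i : J → ℝ) ∈ b then g ⬝ᵥ (e i : J → ℝ) else 0
  have hD' : (1 : ℝ) ≤ D := by exact_mod_cast hD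
  have hr : ∀ i, |r i| ≤ D := by
    intro i
    simp only [r]
    split_ifs with hi
    · obtain ⟨z, hz, hz2, hz3⟩ := hbT hi
      rw [← hz3]
      rcases hz2 with ⟨-, h1⟩ | h1
      · rw [h1]; simpa using hD'
      · rw [hg.2 z h1]; simp
    · simp
  obtain ⟨γ', hγ'1, hγ'2⟩ := solve D H Hz hH hli hHD r hr
  have hb0 : ∀ x ∈ b, (γ' - g) ⬝ᵥ x = 0 := by
    intro x hx
    have h1 := congrFun hγ'2 (e.symm ⟨x, hbc hx⟩)
    simp only [Matrix.mulVec, H, r, Equiv.apply_symm_apply, hx, if_true] at h1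
    rw [sub_dotProduct, dotProduct_comm γ' x, h1, sub_self]
  have hspan0 : ∀ x ∈ Submodule.span ℝ b, (γ' - g) ⬝ᵥ x = 0 := by
    intro x hx
    induction hx using Submodule.span_induction with
    | mem x hx => exact hb0 x hx
    | zero => simp
    | add x y _ _ hx hy => rw [dotProduct_add, hx, hy, add_zero]
    | smul a x _ hx => rw [dotProduct_smul, hx, smul_zero]
  have hT0 : ∀ x ∈ T, (γ' - g) ⬝ᵥ x = 0 := by
    intro x hx
    apply hspan0
    rw [hbspan]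
    exact Submodule.subset_span hx
  have hZP : ∀ z ∈ P, ∀ j, |z j| ≤ D := fun z hz => (hZ z).1 (Finset.mem_filter.1 hz).1
  have hZO : ∀ z ∈ O, ∀ j, |z j| ≤ D := fun z hz => (hZ z).1 (Finset.mem_filter.1 hz).1
  have hP0 : ∀ z ∈ P, (γ' - g) ⬝ᵥ rv z = 0 :=
    hgood (γ' - g) (fun z hz hz1 => hT0 _ ⟨z, hZP z hz, Or.inl ⟨hz, hz1⟩, rfl⟩)
      (fun z hz => hT0 _ ⟨z, hZO z hz, Or.inr hz, rfl⟩)
  have hO0 : ∀ z ∈ O, (γ' - g) ⬝ᵥ rv z = 0 := fun z hz => hT0 _ ⟨z, hZO z hz, Or.inr hz, rfl⟩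
  refine ⟨γ', hγ'1, fun z hz => ⟨fun hpos => ?_, fun hzero => ?_⟩⟩
  · have hzP : z ∈ P := Finset.mem_filter.2 ⟨(hZ z).2 hz, hpos⟩
    have h1 := hP0 z hzP
    rw [sub_dotProduct] at h1
    have h2 := hg.1 z hzP
    change 1 ≤ γ' ⬝ᵥ rv z
    linarith
  · have hzO : z ∈ O := Finset.mem_filter.2 ⟨(hZ z).2 hz, hzero⟩
    have h1 := hO0 z hzO
    rw [sub_dotProduct, hg.2 z hzO] at h1
    change γ' ⬝ᵥ rv z = 0
    linarith

end Pool.Agent.H695R2.Simp
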