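import Pool.Agent.H695R2.Simp.Vert

/-!
# Unbounded polyhedra: truncation
-/

namespace Pool.Agent.H695R2.Simp

open Matrix

variable {ι J : Type} [Fintype ι] [Fintype J]

/-- the rows of the truncated polyhedron -/
def two (a : ι → J → ℝ) : ι ⊕ ι → J → ℝ := Sum.elim a (fun i => -a i)

/-- the right hand sides of the truncated polyhedron -/
def cut (b : ι → ℝ) (M : ℝ) : ι ⊕ ι → ℝ := Sum.elim b (fun _ => M)

set_option linter.unusedSectionVars false

namespace UnbAux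

theorem mem_cut (a : ι → J → ℝ) (b : ι → ℝ) (M : ℝ) (x : J → ℝ) :
    x ∈ Pol (two a) (cut b M) ↔ x ∈ Pol a b ∧ ∀ i, -(a i ⬝ᵥ x) ≤ M := by
  simp only [Pol, two, cut, Set.mem_ofPred_eq, Sum.forall, Sum.elim_inl, Sum.elim_inr,
    neg_dotProduct]

theorem pol_convex (a : ι → J → ℝ) (b : ι → ℝ) : Convex ℝ (Pol a b) := by
  intro x hx y hy α β hα hβ hαβ i
  rw [dotProduct_add, dotProduct_smul, dotProduct_smul, smul_eq_mul, smul_eq_mul]
  have h1 := hx i
  have h2 := hy i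
  calc α * (a i ⬝ᵥ x) + β * (a i ⬝ᵥ y) ≤ α * b i + β * b i :=
        add_le_add (mul_le_mul_of_nonneg_left h1 hα) (mul_le_mul_of_nonneg_left h2 hβ)
    _ = b i := by rw [← add_mul, hαβ, one_mul]

/-- maximisers over a bounded polyhedron are in the hull of the maximising vertices -/
theorem face {κ : Type} [Fintype κ] {a : κ → J → ℝ} {b : κ → ℝ}
    (hB : Bornology.IsBounded (Pol a b)) {y x : J → ℝ} (hx : x ∈ Mx a b y) {q : J → ℝ}
    (hq : q ∈ Pol a b) (hyq : y ⬝ᵥ q = y ⬝ᵥ x) : q ∈ convexHull ℝ (Mx a b y) := by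
  have hC : convexHull ℝ (Vtx a b) ⊆
      {p : J → ℝ | y ⬝ᵥ p ≤ y ⬝ᵥ x ∧ (y ⬝ᵥ p = y ⬝ᵥ x → p ∈ convexHull ℝ (Mx a b y))} := by
    refine convexHull_min ?_ ?_
    · intro p hp
      refine ⟨hx.2 p hp, fun h => subset_convexHull ℝ _ ⟨hp, fun x' hx' => ?_⟩⟩
      rw [h]
      exact hx.2 x' hx'
    · intro p hp p' hp' α β hα hβ hαβ
      obtain ⟨h1, h2⟩ := hp
      obtain ⟨h1', h2'⟩ := hp'
      have e : y ⬝ᵥ (α • p + β • p') = α * (y ⬝ᵥ p) + β * (y ⬝ᵥ p') := by
        rw [dotProduct_add, dotProduct_smul, dotProduct_smul, smul_eq_mul, smul_eq_mul]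
      have e2 : y ⬝ᵥ x = α * (y ⬝ᵥ x) + β * (y ⬝ᵥ x) := by rw [← add_mul, hαβ, one_mul]
      have m1 := mul_le_mul_of_nonneg_left h1 hα
      have m2 := mul_le_mul_of_nonneg_left h1' hβ
      refine ⟨by rw [e]; linarith, fun h => ?_⟩
      rw [e] at h
      rcases hα.eq_or_lt with h0 | hα'
      · subst h0
        rw [zero_add] at hαβ
        subst hαβ
        rw [zero_smul, one_smul, zero_add]
        exact h2' (by linarith)
      · rcases hβ.eq_or_lt with h0 | hβ'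
        · subst h0
          rw [add_zero] at hαβ
          subst hαβ
          rw [zero_smul, one_smul, add_zero]
          exact h2 (by linarith)
        · have k1 : y ⬝ᵥ p = y ⬝ᵥ x := by
            by_contra hne
            have : α * (y ⬝ᵥ p) < α * (y ⬝ᵥ x) :=
              mul_lt_mul_of_pos_left (lt_of_le_of_ne h1 hne) hα'
            linarith
          have k2 : y ⬝ᵥ p' = y ⬝ᵥ x := by
            by_contra hne
            have : β * (y ⬝ᵥ p') < β * (y ⬝ᵥ x) :=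
              mul_lt_mul_of_pos_left (lt_of_le_of_ne h1' hne) hβ'
            linarith
          exact convex_convexHull ℝ _ (h2 k1) (h2' k2) hα hβ hαβ
  rw [← hull_vtx hB] at hq
  exact (hC hq).2 hyq

/-- choice of the truncation -/
theorem exists_M (a : ι → J → ℝ) (b : ι → ℝ) :
    ∃ M : ℝ, ∀ x ∈ Vtx a b, ∀ i, -(a i ⬝ᵥ x) < M := by
  have hV := vtx_finite a b
  obtain ⟨C, hC⟩ := (hV.image fun x => ∑ i, |a i ⬝ᵥ x|).bddAbove
  refine ⟨C + 1, fun x hx i => ?_⟩
  have h1 : ∑ i, |a i ⬝ᵥ x| ≤ C := hC ⟨x, hx, rfl⟩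
  have h2 : |a i ⬝ᵥ x| ≤ ∑ i, |a i ⬝ᵥ x| :=
    Finset.single_le_sum (f := fun i => |a i ⬝ᵥ x|) (fun i _ => abs_nonneg _) (Finset.mem_univ i)
  have h3 := neg_le_abs (a i ⬝ᵥ x)
  linarith

theorem bounded {a : ι → J → ℝ} {b : ι → ℝ} {v : J → ℝ} (hv : v ∈ Vtx a b) (M : ℝ) :
    Bornology.IsBounded (Pol (two a) (cut b M)) := by
  set T : (J → ℝ) →ₗ[ℝ] (ι → ℝ) :=
    { toFun := fun x i => a i ⬝ᵥ x
      map_add' := fun x y => by funext i; simp [dotProduct_add]
      map_smul' := fun r x => by funext i; simp [dotProduct_smul] } with hT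
  have hker : LinearMap.ker T = ⊥ := by
    rw [LinearMap.ker_eq_bot']
    intro z hz
    refine (vtx_iff (vtx_sub hv)).1 hv z fun l _ => ?_
    exact congrFun hz l
  obtain ⟨K, -, hK⟩ := T.exists_antilipschitzWith hker
  have h1 : Bornology.IsBounded (Set.Icc (fun _ : ι => -M) b) := Metric.isBounded_Icc _ _
  refine (hK.isBounded_preimage h1).subset fun x hx => ?_
  rw [mem_cut] at hx
  refine ⟨fun i => ?_, fun i => hx.1 i⟩
  have := hx.2 i
  change -M ≤ a i ⬝ᵥ x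
  linarith

theorem vtx_trans {a : ι → J → ℝ} {b : ι → ℝ} {M : ℝ}
    (hM : ∀ x ∈ Vtx a b, ∀ i, -(a i ⬝ᵥ x) < M) {x : J → ℝ} (hx : x ∈ Vtx a b) :
    x ∈ Vtx (two a) (cut b M) := by
  have hsub : Pol (two a) (cut b M) ⊆ Pol a b := fun p hp => ((mem_cut a b M p).1 hp).1
  refine inter_extremePoints_subset_extremePoints_of_subset hsub ⟨?_, hx⟩
  rw [mem_cut]
  exact ⟨vtx_sub hx, fun i => (hM x hx i).le⟩

theorem localP {a : ι → J → ℝ} {b : ι → ℝ} {M : ℝ}
    (hM : ∀ x ∈ Vtx a b, ∀ i, -(a i ⬝ᵥ x) < M) {x p : J → ℝ} (hx : x ∈ Vtx a b)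
    (hp : p ∈ Pol a b) : ∃ ε : ℝ, 0 < ε ∧ x + ε • (p - x) ∈ Pol (two a) (cut b M) := by
  have hev : ∀ᶠ r in nhdsWithin (0 : ℝ) (Set.Ioi 0), ∀ i, -(a i ⬝ᵥ (x + r • (p - x))) < M := by
    rw [Filter.eventually_all]
    intro i
    have hc : Continuous fun r : ℝ => -(a i ⬝ᵥ (x + r • (p - x))) := by
      simp only [dotProduct_add, dotProduct_smul, smul_eq_mul]
      fun_prop
    have h0 : -(a i ⬝ᵥ (x + (0 : ℝ) • (p - x))) < M := by
      rw [zero_smul, add_zero]
      exact hM x hx i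
    exact ((hc.continuousAt).eventually_lt continuousAt_const h0).filter_mono
      nhdsWithin_le_nhds
  have h1 : ∀ᶠ r in nhdsWithin (0 : ℝ) (Set.Ioi 0), 0 < r ∧ r ≤ 1 := by
    have : Set.Ioc (0 : ℝ) 1 ∈ nhdsWithin (0 : ℝ) (Set.Ioi 0) :=
      Ioc_mem_nhdsGT one_pos
    exact this
  obtain ⟨r, h2, h3, h4⟩ := (hev.and h1).exists
  refine ⟨r, h3, ?_⟩
  rw [mem_cut]
  refine ⟨?_, fun i => (h2 i).le⟩
  have e : x + r • (p - x) = (1 - r) • x + r • p := by
    rw [smul_sub, sub_smul, one_smul]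
    abel
  rw [e]
  exact pol_convex a b (vtx_sub hx) hp (by linarith) h3.le (by ring)

theorem max_P {a : ι → J → ℝ} {b : ι → ℝ} {M : ℝ}
    (hM : ∀ x ∈ Vtx a b, ∀ i, -(a i ⬝ᵥ x) < M)
    (hB : Bornology.IsBounded (Pol (two a) (cut b M))) {x y : J → ℝ} (hx : x ∈ Vtx a b)
    (hxy : x ∈ Mx (two a) (cut b M) y) {p : J → ℝ} (hp : p ∈ Pol a b) :
    y ⬝ᵥ p ≤ y ⬝ᵥ x := by
  obtain ⟨ε, hε, h1⟩ := localP hM hx hp
  have h2 := mx_max hB hxy h1
  rw [dotProduct_add, dotProduct_smul, smul_eq_mul, dotProduct_sub] at h2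
  have h3 : ε * (y ⬝ᵥ p - y ⬝ᵥ x) ≤ 0 := by linarith
  have h4 : y ⬝ᵥ p - y ⬝ᵥ x ≤ 0 := by
    by_contra h
    push Not at h
    have := mul_pos hε h
    linarith
  linarith

/-- a maximiser over `P` gives a small step in the hull of the maximising vertices of `P'` -/
theorem arg_step {a : ι → J → ℝ} {b : ι → ℝ} {M : ℝ}
    (hM : ∀ x ∈ Vtx a b, ∀ i, -(a i ⬝ᵥ x) < M)
    (hB : Bornology.IsBounded (Pol (two a) (cut b M))) {x y : J → ℝ} (hx : x ∈ Vtx a b)
    (hxy : x ∈ Mx (two a) (cut b M) y) {p : J → ℝ} (hp : p ∈ Arg (Pol a b) y) :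
    ∃ ε : ℝ, 0 < ε ∧ x + ε • (p - x) ∈ convexHull ℝ (Mx (two a) (cut b M) y) := by
  obtain ⟨ε, hε, h1⟩ := localP hM hx hp.1
  refine ⟨ε, hε, face hB hxy h1 ?_⟩
  have h2 : y ⬝ᵥ p = y ⬝ᵥ x := le_antisymm (max_P hM hB hx hxy hp.1) (hp.2 x (vtx_sub hx))
  rw [dotProduct_add, dotProduct_smul, smul_eq_mul, dotProduct_sub, h2]
  ring

theorem arg_single {a : ι → J → ℝ} {b : ι → ℝ} {M : ℝ}
    (hM : ∀ x ∈ Vtx a b, ∀ i, -(a i ⬝ᵥ x) < M)
    (hB : Bornology.IsBounded (Pol (two a) (cut b M))) {x y : J → ℝ} (hx : x ∈ Vtx a b)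
    (hxy : Mx (two a) (cut b M) y = {x}) : Arg (Pol a b) y = {x} := by
  have hx' : x ∈ Mx (two a) (cut b M) y := by rw [hxy]; exact Set.mem_singleton x
  ext p
  rw [Set.mem_singleton_iff]
  constructor
  · intro hp
    obtain ⟨ε, hε, h1⟩ := arg_step hM hB hx hx' hp
    rw [hxy, convexHull_singleton, Set.mem_singleton_iff] at h1
    have h2 : ε • (p - x) = 0 := by
      have : x + ε • (p - x) = x + 0 := by rw [h1, add_zero]
      exact add_left_cancel this
    rcases smul_eq_zero.1 h2 with h3 | h3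
    · exact absurd h3 hε.ne'
    · exact sub_eq_zero.1 h3
  · rintro rfl
    exact ⟨vtx_sub hx, fun q hq => max_P hM hB hx hx' hq⟩

/-- maximisers over `P` lie on the ray from `x` through `x'` -/
theorem arg_ray {a : ι → J → ℝ} {b : ι → ℝ} {M : ℝ}
    (hM : ∀ x ∈ Vtx a b, ∀ i, -(a i ⬝ᵥ x) < M)
    (hB : Bornology.IsBounded (Pol (two a) (cut b M))) {x x' y : J → ℝ} (hx : x ∈ Vtx a b)
    (hxy : Mx (two a) (cut b M) y = {x, x'}) {p : J → ℝ} (hp : p ∈ Arg (Pol a b) y) :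
    ∃ r : ℝ, 0 ≤ r ∧ p = x + r • (x' - x) := by
  have hx' : x ∈ Mx (two a) (cut b M) y := by rw [hxy]; exact Set.mem_insert x _
  obtain ⟨ε, hε, h1⟩ := arg_step hM hB hx hx' hp
  rw [hxy, convexHull_pair, segment_eq_image'] at h1
  obtain ⟨θ, hθ, h2⟩ := h1
  simp only at h2
  refine ⟨ε⁻¹ * θ, mul_nonneg (inv_pos.2 hε).le hθ.1, ?_⟩
  have h3 : θ • (x' - x) = ε • (p - x) := add_left_cancel h2
  rw [mul_smul, h3, smul_smul, inv_mul_cancel₀ hε.ne', one_smul]
  abel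

theorem arg_edge {a : ι → J → ℝ} {b : ι → ℝ} {M : ℝ}
    (hM : ∀ x ∈ Vtx a b, ∀ i, -(a i ⬝ᵥ x) < M)
    (hB : Bornology.IsBounded (Pol (two a) (cut b M))) {x x' y : J → ℝ} (hx : x ∈ Vtx a b)
    (hx' : x' ∈ Vtx a b) (hne : x ≠ x')
    (hxy : Mx (two a) (cut b M) y = {x, x'}) : Arg (Pol a b) y = segment ℝ x x' := by
  have m1 : x ∈ Mx (two a) (cut b M) y := by rw [hxy]; exact Set.mem_insert x _
  have m2 : x' ∈ Mx (two a) (cut b M) y := by
    rw [hxy]; exact Set.mem_insert_of_mem _ (Set.mem_singleton x')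
  have e : y ⬝ᵥ x' = y ⬝ᵥ x :=
    le_antisymm (max_P hM hB hx m1 (vtx_sub hx')) (max_P hM hB hx' m2 (vtx_sub hx))
  apply Set.Subset.antisymm
  · intro p hp
    obtain ⟨r, hr, h1⟩ := arg_ray hM hB hx hxy hp
    rcases le_or_gt r 1 with hr1 | hr1
    · rw [segment_eq_image']
      exact ⟨r, ⟨hr, hr1⟩, h1.symm⟩
    · exfalso
      have hr0 : 0 < r := by linarith
      have hseg : x' ∈ openSegment ℝ x p := by
        rw [openSegment_eq_image']
        refine ⟨r⁻¹, ⟨inv_pos.2 hr0, inv_lt_one_of_one_lt₀ hr1⟩, ?_⟩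
        simp only
        rw [h1, add_sub_cancel_left, smul_smul, inv_mul_cancel₀ hr0.ne', one_smul]
        abel
      have := hx'.2 (vtx_sub hx) hp.1 hseg
      exact hne this
  · intro p hp
    have hpP : p ∈ Pol a b := (pol_convex a b).segment_subset (vtx_sub hx) (vtx_sub hx') hp
    refine ⟨hpP, fun q hq => ?_⟩
    rw [segment_eq_image'] at hp
    obtain ⟨θ, hθ, h2⟩ := hp
    simp only at h2
    rw [← h2, dotProduct_add, dotProduct_smul, smul_eq_mul, dotProduct_sub, e, sub_self,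
      mul_zero, add_zero]
    exact max_P hM hB hx m1 hq

theorem arg_unb {a : ι → J → ℝ} {b : ι → ℝ} {M : ℝ}
    (hM : ∀ x ∈ Vtx a b, ∀ i, -(a i ⬝ᵥ x) < M)
    (hB : Bornology.IsBounded (Pol (two a) (cut b M))) {x x' y : J → ℝ} (hx : x ∈ Vtx a b)
    (hx' : x' ∉ Vtx a b) (hne : x ≠ x')
    (hxy : Mx (two a) (cut b M) y = {x, x'}) :
    Arg (Pol a b) y = {p | ∃ r : ℝ, 0 ≤ r ∧ p = x + r • (x' - x)} := by
  classical
  have m1 : x ∈ Mx (two a) (cut b M) y := by rw [hxy]; exact Set.mem_insert x _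
  have m2 : x' ∈ Mx (two a) (cut b M) y := by
    rw [hxy]; exact Set.mem_insert_of_mem _ (Set.mem_singleton x')
  have e : y ⬝ᵥ x' = y ⬝ᵥ x := le_antisymm (m1.2 x' m2.1) (m2.2 x m1.1)
  have hyz : ∀ r : ℝ, y ⬝ᵥ (x + r • (x' - x)) = y ⬝ᵥ x := by
    intro r
    rw [dotProduct_add, dotProduct_smul, smul_eq_mul, dotProduct_sub, e, sub_self, mul_zero,
      add_zero]
  have hz0 : x' - x ≠ 0 := fun h => hne (sub_eq_zero.1 h).symm
  have hx'P : x' ∈ Pol a b := ((mem_cut a b M x').1 (vtx_sub m2.1)).1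
  -- the recession direction
  have hrec : ∀ l, a l ⬝ᵥ (x' - x) ≤ 0 := by
    by_contra hcon
    push Not at hcon
    set B : Finset ι := Finset.univ.filter (fun l => 0 < a l ⬝ᵥ (x' - x)) with hBdef
    have hBne : B.Nonempty := by
      obtain ⟨l, hl⟩ := hcon
      exact ⟨l, by rw [hBdef, Finset.mem_filter]; exact ⟨Finset.mem_univ l, hl⟩⟩
    obtain ⟨l0, hl0, hmin⟩ := Finset.exists_min_image B
      (fun l => (b l - a l ⬝ᵥ x) / (a l ⬝ᵥ (x' - x))) hBne
    have hl0' : 0 < a l0 ⬝ᵥ (x' - x) := by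
      rw [hBdef, Finset.mem_filter] at hl0
      exact hl0.2
    set r0 : ℝ := (b l0 - a l0 ⬝ᵥ x) / (a l0 ⬝ᵥ (x' - x)) with hr0
    have hr1 : 1 ≤ r0 := by
      rw [hr0, le_div_iff₀ hl0', one_mul, dotProduct_sub]
      have := hx'P l0
      linarith
    set p0 : J → ℝ := x + r0 • (x' - x) with hp0
    have hdot : ∀ l, a l ⬝ᵥ p0 = a l ⬝ᵥ x + r0 * (a l ⬝ᵥ (x' - x)) := by
      intro l
      rw [hp0, dotProduct_add, dotProduct_smul, smul_eq_mul]
    have hp0P : p0 ∈ Pol a b := by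
      intro l
      rw [hdot]
      rcases le_or_gt (a l ⬝ᵥ (x' - x)) 0 with h | h
      · have h1 := vtx_sub hx l
        have h2 : r0 * (a l ⬝ᵥ (x' - x)) ≤ 0 :=
          mul_nonpos_of_nonneg_of_nonpos (by linarith) h
        linarith
      · have h1 := hmin l (by rw [hBdef, Finset.mem_filter]; exact ⟨Finset.mem_univ l, h⟩)
        rw [le_div_iff₀ h] at h1
        linarith
    have htight : a l0 ⬝ᵥ p0 = b l0 := by
      rw [hdot, hr0, div_mul_cancel₀ _ hl0'.ne']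
      ring
    have hp0V : p0 ∈ Vtx a b := by
      rw [vtx_iff hp0P]
      intro z' hz'
      obtain ⟨ε1, hε1, h1⟩ := move (a := a) (b := b) (z := z') hp0P (fun l hl => (hz' l hl).le)
      obtain ⟨ε2, hε2, h2⟩ := move (a := a) (b := b) (z := -z') hp0P (fun l hl => by
        rw [dotProduct_neg, hz' l hl, neg_zero])
      have h3 := max_P hM hB hx m1 (h1 ε1 hε1.le le_rfl)
      have h4 := max_P hM hB hx m1 (h2 ε2 hε2.le le_rfl)
      have hyp : y ⬝ᵥ p0 = y ⬝ᵥ x := hyz r0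
      rw [dotProduct_add, dotProduct_smul, smul_eq_mul, hyp] at h3 h4
      rw [dotProduct_neg] at h4
      have h5 : y ⬝ᵥ z' = 0 := by
        apply le_antisymm
        · by_contra h
          have := mul_pos hε1 (not_le.1 h)
          linarith
        · by_contra h
          have := mul_pos hε2 (neg_pos.2 (not_le.1 h))
          linarith
      have h6 : p0 + ε1 • z' ∈ Arg (Pol a b) y := by
        refine ⟨h1 ε1 hε1.le le_rfl, fun q hq => ?_⟩
        rw [dotProduct_add, dotProduct_smul, h5, smul_zero, add_zero, hyp]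
        exact max_P hM hB hx m1 hq
      obtain ⟨r, -, h7⟩ := arg_ray hM hB hx hxy h6
      have h8 : ε1 • z' = (r - r0) • (x' - x) := by
        rw [sub_smul]
        have : p0 + ε1 • z' - p0 = x + r • (x' - x) - p0 := by rw [h7]
        rw [add_sub_cancel_left] at this
        rw [this, hp0]
        abel
      have h9 : a l0 ⬝ᵥ (ε1 • z') = (r - r0) * (a l0 ⬝ᵥ (x' - x)) := by
        rw [h8, dotProduct_smul, smul_eq_mul]
      rw [dotProduct_smul, hz' l0 htight, smul_zero] at h9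
      have h10 : r - r0 = 0 := by
        rcases mul_eq_zero.1 h9.symm with h | h
        · exact h
        · exact absurd h hl0'.ne'
      rw [h10, zero_smul] at h8
      rcases smul_eq_zero.1 h8 with h | h
      · exact absurd h hε1.ne'
      · exact h
    have hp0M : p0 ∈ Mx (two a) (cut b M) y := by
      refine ⟨vtx_trans hM hp0V, fun q hq => ?_⟩
      rw [show y ⬝ᵥ p0 = y ⬝ᵥ x from hyz r0]
      exact m1.2 q hq
    rw [hxy] at hp0M
    rcases hp0M with h | h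
    · have : r0 • (x' - x) = 0 := by
        have h' : x + r0 • (x' - x) = x + 0 := by rw [add_zero]; exact h
        exact add_left_cancel h'
      rcases smul_eq_zero.1 this with h' | h'
      · linarith
      · exact hz0 h'
    · rw [Set.mem_singleton_iff] at h
      rw [h] at hp0V
      exact hx' hp0V
  apply Set.Subset.antisymm
  · intro p hp
    exact arg_ray hM hB hx hxy hp
  · rintro p ⟨r, hr, rfl⟩
    refine ⟨fun l => ?_, fun q hq => ?_⟩
    · rw [dotProduct_add, dotProduct_smul, smul_eq_mul]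
      have h1 := vtx_sub hx l
      have h2 : r * (a l ⬝ᵥ (x' - x)) ≤ 0 := mul_nonpos_of_nonneg_of_nonpos hr (hrec l)
      linarith
    · rw [hyz]
      exact max_P hM hB hx m1 hq

end UnbAux

open UnbAux in
theorem unb {a : ι → J → ℝ} {b : ι → ℝ} {v : J → ℝ} (hv : v ∈ Vtx a b) :
    ∃ M : ℝ, Bornology.IsBounded (Pol (two a) (cut b M)) ∧ v ∈ Pol (two a) (cut b M) ∧
      ∀ (c w : J → ℝ) (k : ℕ) (x : ℕ → J → ℝ) (t : ℕ → ℝ),
        Mx (two a) (cut b M) w = {v} → ShPath (two a) (cut b M) c w v k x t →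
        ∃ k' ≤ k, Shadow (Pol a b) w c v k' x t := by
  classical
  obtain ⟨M, hM⟩ := exists_M a b
  have hB := bounded hv M
  refine ⟨M, hB, vtx_sub (vtx_trans hM hv), fun c w k x t hw hsp => ?_⟩
  have hex : ∃ j, j = k ∨ x (j + 1) ∉ Vtx a b := ⟨k, Or.inl rfl⟩
  set k' := Nat.find hex with hk'
  have hk'k : k' ≤ k := Nat.find_min' hex (Or.inl rfl)
  have hlt : ∀ j < k', x (j + 1) ∈ Vtx a b := by
    intro j hj
    have := Nat.find_min hex hj
    push Not at this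
    exact this.2
  have hvert : ∀ j ≤ k', x j ∈ Vtx a b := by
    intro j hj
    rcases j with _ | j
    · rw [hsp.x0]
      exact hv
    · exact hlt j (by omega)
  refine ⟨k', hk'k, hsp.x0, arg_single hM hB hv hw, hsp.t0, fun j hj => hsp.tmono j (by omega),
    hvert, fun j hj => hsp.ne j (by omega), fun j hj => ?_, ?_⟩
  · exact arg_edge hM hB (hvert j hj.le) (hlt j hj) (hsp.ne j (by omega)) (hsp.pair j (by omega))
  · have hspec := Nat.find_spec hex
    rw [← hk'] at hspec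
    by_cases hkk : k' = k
    · left
      intro p hp
      rw [hkk]
      have hxk : x k ∈ Vtx a b := by rw [← hkk]; exact hvert k' le_rfl
      exact max_P hM hB hxk ⟨vtx_trans hM hxk, hsp.opt⟩ hp
    · right
      have hlt' : k' < k := lt_of_le_of_ne hk'k hkk
      have hnot : x (k' + 1) ∉ Vtx a b := by
        rcases hspec with h | h
        · exact absurd h hkk
        · exact h
      refine ⟨t (k' + 1), hsp.tmono k' hlt', x (k' + 1) - x k', ?_, ?_⟩
      · rw [dotProduct_sub]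
        have := hsp.incr k' hlt'
        linarith
      · exact arg_unb hM hB (hvert k' le_rfl) hnot (hsp.ne k' hlt') (hsp.pair k' hlt')

end Pool.Agent.H695R2.Simp
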