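import Pool.Agent.H695R2.Simp.Sum
import Pool.Agent.H695R2.Simp.IntEl
import Pool.Agent.H695R2.Simp.Rnd
import Pool.Agent.H695R2.Simp.Unb

/-!
# Short shadow paths for integral matrices with bounded subdeterminants
-/

namespace Pool.Agent.H695R2.Simp

open Matrix MeasureTheory

section

variable {m d : ℕ}

/-- rows with both signs -/
def twoZ (A : Fin m → Fin d → ℤ) : Fin m ⊕ Fin m → Fin d → ℤ := Sum.elim A (fun i => -A i)

theorem re_twoZ (A : Fin m → Fin d → ℤ) : re (twoZ A) = two (re A) := by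
  funext i j
  cases i <;> simp [re, twoZ, two]

theorem det_two (A : Fin m → Fin d → ℤ) (Δ : ℕ)
    (hΔ : ∀ f : Fin d → Fin m, |(Matrix.of fun j => A (f j)).det| ≤ Δ)
    (f : Fin d → Fin m ⊕ Fin m) : |(Matrix.of fun j => twoZ A (f j)).det| ≤ Δ := by
  have h1 : (Matrix.of fun j => twoZ A (f j)) =
      Matrix.of (fun i j => (Sum.elim (fun _ => (1 : ℤ)) (fun _ => -1) (f i)) *
        (Matrix.of fun j => A (Sum.elim id id (f j))) i j) := by
    ext i j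
    simp only [Matrix.of_apply]
    cases f i <;> simp [twoZ]
  rw [h1, Matrix.det_mul_column, abs_mul]
  have h2 : |∏ i, (Sum.elim (fun _ => (1 : ℤ)) (fun _ => -1) (f i))| = 1 := by
    rw [Finset.abs_prod]
    apply Finset.prod_eq_one
    intro i _
    cases f i <;> simp
  rw [h2, one_mul]
  exact hΔ _

theorem wt_dotF {ι J : Type} [Fintype ι] [Fintype J] (a : ι → J → ℝ) (u : J → ι) (lam z : J → ℝ) :
    wt a u lam ⬝ᵥ z = ∑ j, lam j * (a (u j) ⬝ᵥ z) := by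
  unfold wt
  rw [sum_dotProduct]
  simp [smul_dotProduct]

theorem wt_two (a : Fin m → Fin d → ℝ) (u : Fin d → Fin m) (lam : Fin d → ℝ) :
    wt (two a) (fun j => Sum.inl (u j)) lam = wt a u lam := rfl

theorem elem_two {a : Fin m → Fin d → ℝ} {z : Fin d → ℝ} : Elem (two a) z ↔ Elem a z := by
  unfold Elem
  have h : ∀ x : Fin d → ℝ, (∀ l, two a l ⬝ᵥ z = 0 → two a l ⬝ᵥ x = 0) ↔
      (∀ l, a l ⬝ᵥ z = 0 → a l ⬝ᵥ x = 0) := by
    intro x
    constructor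
    · intro h l hl
      exact h (Sum.inl l) hl
    · intro h l hl
      cases l with
      | inl l => exact h l hl
      | inr l =>
        simp only [two, Sum.elim_inr, neg_dotProduct, neg_eq_zero] at hl ⊢
        exact h l hl
  simp only [h]

theorem int_dot (r : Fin d → ℤ) (ζ : Fin d → ℤ) :
    (fun j => (r j : ℝ)) ⬝ᵥ (fun j => (ζ j : ℝ)) = ((r ⬝ᵥ ζ : ℤ) : ℝ) := by
  simp [dotProduct]

/-- integral representative of an elementary direction -/
theorem rep {A : Fin m → Fin d → ℤ} {Δ : ℕ}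
    (hΔ : ∀ f : Fin d → Fin m, |(Matrix.of fun j => A (f j)).det| ≤ Δ) {z : Fin d → ℝ}
    (hz : Elem (two (re A)) z) : ∃ s : ℝ, s ≠ 0 ∧ ∃ ζ : Fin d → ℤ, s • z = (fun j => (ζ j : ℝ)) ∧
      (∀ i, |twoZ A i ⬝ᵥ ζ| ≤ Δ) ∧
      ∀ i, s * (two (re A) i ⬝ᵥ z) = ((twoZ A i ⬝ᵥ ζ : ℤ) : ℝ) := by
  rw [← re_twoZ] at hz
  obtain ⟨s, hs, ⟨ζ, hζ⟩, h⟩ := elem_int (det_two A Δ hΔ) hz
  have e : ∀ i, re (twoZ A) i ⬝ᵥ (s • z) = ((twoZ A i ⬝ᵥ ζ : ℤ) : ℝ) := by
    intro i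
    rw [hζ]
    exact int_dot _ _
  refine ⟨s, hs, ζ, hζ, fun i => ?_, fun i => ?_⟩
  · have h1 := h i
    rw [e] at h1
    exact_mod_cast h1
  · rw [← e i, dotProduct_smul, smul_eq_mul, ← re_twoZ]

theorem one_le_abs {n : ℤ} (h : (n : ℝ) ≠ 0) : (1 : ℝ) ≤ |(n : ℝ)| := by
  have h1 : n ≠ 0 := by exact_mod_cast h
  have h2 : (1 : ℤ) ≤ |n| := Int.one_le_abs h1
  exact_mod_cast h2

theorem hyp1 {A : Fin m → Fin d → ℤ} {Δ : ℕ}
    (hΔ : ∀ f : Fin d → Fin m, |(Matrix.of fun j => A (f j)).det| ≤ Δ) {z : Fin d → ℝ}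
    (hz : Elem (two (re A)) z) (i : Fin m ⊕ Fin m) (hi : two (re A) i ⬝ᵥ z ≠ 0)
    (k : Fin m ⊕ Fin m) : |two (re A) k ⬝ᵥ z| ≤ Δ * |two (re A) i ⬝ᵥ z| := by
  obtain ⟨s, hs, ζ, -, h1, h2⟩ := rep hΔ hz
  have hs' : 0 < |s| := abs_pos.2 hs
  have h3 : (1 : ℝ) ≤ |s * (two (re A) i ⬝ᵥ z)| := by
    rw [h2]
    apply one_le_abs
    rw [← h2]
    exact mul_ne_zero hs hi
  have h4 : |s * (two (re A) k ⬝ᵥ z)| ≤ Δ := by
    rw [h2]
    exact_mod_cast h1 k
  rw [abs_mul] at h3 h4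
  have h5 : |s| * |two (re A) k ⬝ᵥ z| ≤ |s| * (Δ * |two (re A) i ⬝ᵥ z|) := by
    have h6 : (Δ : ℝ) ≤ Δ * (|s| * |two (re A) i ⬝ᵥ z|) :=
      le_mul_of_one_le_right (Nat.cast_nonneg _) h3
    calc _ ≤ (Δ : ℝ) := h4
      _ ≤ _ := h6
      _ = _ := by ring
  exact le_of_mul_le_mul_left h5 hs'

/-- the properties of the rounded objective -/
structure RndC (A : Fin m → Fin d → ℤ) (Δ : ℕ) (u : Fin d → Fin m) (c c' : Fin d → ℝ)
    (γ' : Fin d → ℝ) : Prop where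
  eq : c' = wt (re A) u γ'
  le : ∀ j, |γ' j| ≤ ((d.factorial * Δ ^ d : ℕ) : ℝ)
  pos : ∀ ζ : Fin d → ℤ, (∀ j, |A (u j) ⬝ᵥ ζ| ≤ Δ) → 0 < c ⬝ᵥ (fun j => (ζ j : ℝ)) →
    1 ≤ c' ⬝ᵥ (fun j => (ζ j : ℝ))
  zero : ∀ ζ : Fin d → ℤ, (∀ j, |A (u j) ⬝ᵥ ζ| ≤ Δ) → c ⬝ᵥ (fun j => (ζ j : ℝ)) = 0 →
    c' ⬝ᵥ (fun j => (ζ j : ℝ)) = 0

theorem exists_rnd {A : Fin m → Fin d → ℤ} {Δ : ℕ} (h1 : 1 ≤ Δ) {u : Fin d → Fin m}
    (hu : LinearIndependent ℝ (fun j => re A (u j))) (c : Fin d → ℝ) :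
    ∃ c' γ', RndC A Δ u c c' γ' := by
  obtain ⟨γ, hγ⟩ : ∃ γ : Fin d → ℝ, c = wt (re A) u γ := by
    have h2 : c ∈ Submodule.span ℝ (Set.range fun j => re A (u j)) := by
      rw [hu.span_eq_top_of_card_eq_finrank' (by simp)]
      trivial
    rw [Submodule.mem_span_range_iff_exists_fun] at h2
    obtain ⟨γ, hγ⟩ := h2
    exact ⟨γ, hγ.symm⟩
  obtain ⟨γ', h3, h4⟩ := round Δ h1 γ
  have e : ∀ (μ : Fin d → ℝ) (ζ : Fin d → ℤ), wt (re A) u μ ⬝ᵥ (fun j => (ζ j : ℝ)) =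
      μ ⬝ᵥ (fun j => ((A (u j) ⬝ᵥ ζ : ℤ) : ℝ)) := by
    intro μ ζ
    rw [wt_dotF]
    apply Finset.sum_congr rfl
    intro j _
    change μ j * (re A (u j) ⬝ᵥ _) = μ j * ((A (u j) ⬝ᵥ ζ : ℤ) : ℝ)
    rw [← int_dot]
    rfl
  refine ⟨wt (re A) u γ', γ', rfl, fun j => ?_, fun ζ h5 h6 => ?_, fun ζ h5 h6 => ?_⟩
  · have := h3 j
    rw [Fintype.card_fin] at this
    exact this
  · rw [e]
    rw [hγ, e] at h6
    exact (h4 (fun j => A (u j) ⬝ᵥ ζ) h5).1 h6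
  · rw [e]
    rw [hγ, e] at h6
    exact (h4 (fun j => A (u j) ⬝ᵥ ζ) h5).2 h6

theorem RndC.sign {A : Fin m → Fin d → ℤ} {Δ : ℕ} {u : Fin d → Fin m} {c c' γ' : Fin d → ℝ}
    (hR : RndC A Δ u c c' γ') {ζ : Fin d → ℤ} (h : ∀ j, |A (u j) ⬝ᵥ ζ| ≤ Δ)
    (hc : c' ⬝ᵥ (fun j => (ζ j : ℝ)) ≠ 0) : 1 ≤ |c' ⬝ᵥ (fun j => (ζ j : ℝ))| ∧
      (0 < c' ⬝ᵥ (fun j => (ζ j : ℝ)) ↔ 0 < c ⬝ᵥ (fun j => (ζ j : ℝ))) := by
  have hneg : (fun j => (((-ζ) j : ℤ) : ℝ)) = -(fun j => (ζ j : ℝ)) := by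
    funext j; simp
  have h' : ∀ j, |A (u j) ⬝ᵥ (-ζ)| ≤ Δ := by
    intro j
    rw [dotProduct_neg, abs_neg]
    exact h j
  rcases lt_trichotomy (c ⬝ᵥ (fun j => (ζ j : ℝ))) 0 with h1 | h1 | h1
  · have h2 := hR.pos (-ζ) h' (by rw [hneg, dotProduct_neg]; linarith)
    rw [hneg, dotProduct_neg] at h2
    have h3 : c' ⬝ᵥ (fun j => (ζ j : ℝ)) ≤ -1 := by linarith
    refine ⟨?_, ?_⟩
    · rw [abs_of_neg (by linarith)]; linarith
    · constructor
      · intro h4; linarith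
      · intro h4; linarith
  · exact absurd (hR.zero ζ h h1) hc
  · have h2 := hR.pos ζ h h1
    refine ⟨?_, ?_⟩
    · rw [abs_of_pos (by linarith)]; exact h2
    · exact ⟨fun _ => h1, fun _ => by linarith⟩

/-- the constant `Γ` -/
def gam (d Δ : ℕ) : ℕ := d * (d.factorial * Δ ^ d) * Δ

theorem hyp2 {A : Fin m → Fin d → ℤ} {Δ : ℕ}
    (hΔ : ∀ f : Fin d → Fin m, |(Matrix.of fun j => A (f j)).det| ≤ Δ) {u : Fin d → Fin m}
    {c c' γ' : Fin d → ℝ} (hR : RndC A Δ u c c' γ') {z : Fin d → ℝ}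
    (hz : Elem (two (re A)) z) (i : Fin m ⊕ Fin m) (hi : two (re A) i ⬝ᵥ z ≠ 0) :
    |c' ⬝ᵥ z| ≤ gam d Δ * |two (re A) i ⬝ᵥ z| := by
  obtain ⟨s, hs, ζ, hζ, h1, h2⟩ := rep hΔ hz
  have hs' : 0 < |s| := abs_pos.2 hs
  have h3 : (1 : ℝ) ≤ |s * (two (re A) i ⬝ᵥ z)| := by
    rw [h2]
    apply one_le_abs
    rw [← h2]
    exact mul_ne_zero hs hi
  have h4 : |s * (c' ⬝ᵥ z)| ≤ gam d Δ := by
    have e : s * (c' ⬝ᵥ z) = ∑ j, γ' j * ((A (u j) ⬝ᵥ ζ : ℤ) : ℝ) := by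
      rw [← smul_eq_mul, ← dotProduct_smul, hζ, hR.eq, wt_dotF]
      apply Finset.sum_congr rfl
      intro j _
      rw [← int_dot]
      rfl
    rw [e]
    refine (Finset.abs_sum_le_sum_abs _ _).trans ?_
    have h5 : ∀ j ∈ Finset.univ, |γ' j * ((A (u j) ⬝ᵥ ζ : ℤ) : ℝ)| ≤
        ((d.factorial * Δ ^ d : ℕ) : ℝ) * Δ := by
      intro j _
      rw [abs_mul]
      apply mul_le_mul (hR.le j) _ (abs_nonneg _) (Nat.cast_nonneg _)
      have := h1 (Sum.inl (u j))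
      exact_mod_cast this
    refine (Finset.sum_le_sum h5).trans ?_
    rw [Finset.sum_const, Finset.card_univ, Fintype.card_fin, nsmul_eq_mul]
    unfold gam
    push_cast
    apply le_of_eq
    ring
  rw [abs_mul] at h3 h4
  have h5 : |s| * |c' ⬝ᵥ z| ≤ |s| * (gam d Δ * |two (re A) i ⬝ᵥ z|) := by
    have h6 : (gam d Δ : ℝ) ≤ gam d Δ * (|s| * |two (re A) i ⬝ᵥ z|) :=
      le_mul_of_one_le_right (Nat.cast_nonneg _) h3
    calc _ ≤ (gam d Δ : ℝ) := h4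
      _ ≤ _ := h6
      _ = _ := by ring
  exact le_of_mul_le_mul_left h5 hs'

theorem hyp3 {A : Fin m → Fin d → ℤ} {Δ : ℕ}
    (hΔ : ∀ f : Fin d → Fin m, |(Matrix.of fun j => A (f j)).det| ≤ Δ) {u : Fin d → Fin m}
    {c c' γ' : Fin d → ℝ} (hR : RndC A Δ u c c' γ') {z : Fin d → ℝ}
    (hz : Elem (two (re A)) z) (hc : c' ⬝ᵥ z ≠ 0) (k : Fin m ⊕ Fin m) :
    |two (re A) k ⬝ᵥ z| ≤ Δ * |c' ⬝ᵥ z| := by
  obtain ⟨s, hs, ζ, hζ, h1, h2⟩ := rep hΔ hz
  have hs' : 0 < |s| := abs_pos.2 hs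
  have e : s * (c' ⬝ᵥ z) = c' ⬝ᵥ (fun j => (ζ j : ℝ)) := by
    rw [← smul_eq_mul, ← dotProduct_smul, hζ]
  have h3 : (1 : ℝ) ≤ |s * (c' ⬝ᵥ z)| := by
    rw [e]
    apply (hR.sign (fun j => h1 (Sum.inl (u j))) _).1
    rw [← e]
    exact mul_ne_zero hs hc
  have h4 : |s * (two (re A) k ⬝ᵥ z)| ≤ Δ := by
    rw [h2]
    exact_mod_cast h1 k
  rw [abs_mul] at h3 h4
  have h5 : |s| * |two (re A) k ⬝ᵥ z| ≤ |s| * (Δ * |c' ⬝ᵥ z|) := by
    have h6 : (Δ : ℝ) ≤ Δ * (|s| * |c' ⬝ᵥ z|) :=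
      le_mul_of_one_le_right (Nat.cast_nonneg _) h3
    calc _ ≤ (Δ : ℝ) := h4
      _ ≤ _ := h6
      _ = _ := by ring
  exact le_of_mul_le_mul_left h5 hs'

/-- on elementary directions the two objectives have the same sign -/
theorem same_sign {A : Fin m → Fin d → ℤ} {Δ : ℕ}
    (hΔ : ∀ f : Fin d → Fin m, |(Matrix.of fun j => A (f j)).det| ≤ Δ) {u : Fin d → Fin m}
    {c c' γ' : Fin d → ℝ} (hR : RndC A Δ u c c' γ') {z : Fin d → ℝ}
    (hz : Elem (re A) z) : 0 < c' ⬝ᵥ z ↔ 0 < c ⬝ᵥ z := by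
  obtain ⟨s, hs, ζ, hζ, h1, h2⟩ := rep hΔ (elem_two.2 hz)
  have h1' : ∀ j, |A (u j) ⬝ᵥ ζ| ≤ Δ := fun j => h1 (Sum.inl (u j))
  have e : ∀ y : Fin d → ℝ, s * (y ⬝ᵥ z) = y ⬝ᵥ (fun j => (ζ j : ℝ)) := by
    intro y
    rw [← smul_eq_mul, ← dotProduct_smul, hζ]
  have hneg : (fun j => (((-ζ) j : ℤ) : ℝ)) = -(fun j => (ζ j : ℝ)) := by
    funext j; simp
  have h1n : ∀ j, |A (u j) ⬝ᵥ (-ζ)| ≤ Δ := by
    intro j
    rw [dotProduct_neg, abs_neg]
    exact h1' j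
  have key : ∀ y : Fin d → ℝ, y ⬝ᵥ (fun j => (((-ζ) j : ℤ) : ℝ)) = -(s * (y ⬝ᵥ z)) := by
    intro y
    rw [hneg, dotProduct_neg, e]
  rcases lt_or_gt_of_ne hs with hs1 | hs1
  · constructor
    · intro h
      have h3 : 0 < c' ⬝ᵥ (fun j => (((-ζ) j : ℤ) : ℝ)) := by
        rw [key]
        have := mul_neg_of_neg_of_pos hs1 h
        linarith
      have h4 := ((hR.sign h1n h3.ne').2).1 h3
      rw [key] at h4
      by_contra h5
      push Not at h5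
      have := mul_nonneg_of_nonpos_of_nonpos hs1.le h5
      linarith
    · intro h
      have h3 : 0 < c ⬝ᵥ (fun j => (((-ζ) j : ℤ) : ℝ)) := by
        rw [key]
        have := mul_neg_of_neg_of_pos hs1 h
        linarith
      have h4 := hR.pos _ h1n h3
      rw [key] at h4
      by_contra h5
      push Not at h5
      have := mul_nonneg_of_nonpos_of_nonpos hs1.le h5
      linarith
  · constructor
    · intro h
      have h3 : 0 < c' ⬝ᵥ (fun j => (ζ j : ℝ)) := by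
        rw [← e]
        exact mul_pos hs1 h
      have h4 := ((hR.sign h1' h3.ne').2).1 h3
      rw [← e] at h4
      exact (mul_pos_iff_of_pos_left hs1).1 h4
    · intro h
      have h3 : 0 < c ⬝ᵥ (fun j => (ζ j : ℝ)) := by
        rw [← e]
        exact mul_pos hs1 h
      have h4 := hR.pos _ h1' h3
      rw [← e] at h4
      exact (mul_pos_iff_of_pos_left hs1).1 (by linarith)

/-- rays in exposed position are elementary -/
theorem ray_elem {ι J : Type} [Fintype ι] [Fintype J] {a : ι → J → ℝ} {b : ι → ℝ}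
    {x y z : J → ℝ} (hz : z ≠ 0)
    (h : Arg (Pol a b) y = {p | ∃ r : ℝ, 0 ≤ r ∧ p = x + r • z}) : Elem a z := by
  have hmem : ∀ r : ℝ, 0 ≤ r → x + r • z ∈ Arg (Pol a b) y := by
    intro r hr
    rw [h]
    exact ⟨r, hr, rfl⟩
  refine ⟨hz, fun z' hz' => ?_⟩
  set p := x + (1 : ℝ) • z with hp
  have hpA := hmem 1 zero_le_one
  rw [← hp] at hpA
  have htight : ∀ l, a l ⬝ᵥ p = b l → a l ⬝ᵥ z' = 0 := by
    intro l hl
    apply hz'
    have h1 := (hmem 2 (by norm_num)).1 l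
    have h2 := (hmem 0 le_rfl).1 l
    rw [hp] at hl
    rw [dotProduct_add, dotProduct_smul, smul_eq_mul] at h1 h2 hl
    linarith
  obtain ⟨ε, hε, h1⟩ := move hpA.1 (z := z') (fun l hl => (htight l hl).le)
  obtain ⟨ε', hε', h2⟩ := move hpA.1 (z := -z') (fun l hl => by
    rw [dotProduct_neg, htight l hl, neg_zero])
  have h3 := hpA.2 _ (h1 ε hε.le le_rfl)
  have h4 := hpA.2 _ (h2 ε' hε'.le le_rfl)
  rw [dotProduct_add, dotProduct_smul, smul_eq_mul] at h3 h4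
  rw [dotProduct_neg] at h4
  have h5 : y ⬝ᵥ z' ≤ 0 := by
    by_contra h6
    push Not at h6
    have := mul_pos hε h6
    linarith
  have h6 : 0 ≤ y ⬝ᵥ z' := by
    by_contra h7
    push Not at h7
    have := mul_neg_of_pos_of_neg hε' h7
    linarith
  have h7 : y ⬝ᵥ z' = 0 := le_antisymm h5 h6
  have h8 : p + ε • z' ∈ Arg (Pol a b) y := by
    refine ⟨h1 ε hε.le le_rfl, fun q hq => ?_⟩
    rw [dotProduct_add, dotProduct_smul, h7, smul_zero, add_zero]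
    exact hpA.2 q hq
  rw [h] at h8
  obtain ⟨r, -, hr⟩ := h8
  refine ⟨(r - 1) / ε, ?_⟩
  have h9 : ε • z' = (r - 1) • z := by
    rw [hp] at hr
    have : x + (1 : ℝ) • z + ε • z' - (x + (1 : ℝ) • z) = x + r • z - (x + (1 : ℝ) • z) := by
      rw [hr]
    rw [sub_smul]
    calc ε • z' = x + (1 : ℝ) • z + ε • z' - (x + (1 : ℝ) • z) := by abel
      _ = x + r • z - (x + (1 : ℝ) • z) := this
      _ = _ := by abel
  rw [div_eq_inv_mul, mul_smul, ← h9, smul_smul, inv_mul_cancel₀ hε.ne', one_smul]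

theorem finish_c {A : Fin m → Fin d → ℤ} {Δ : ℕ}
    (hΔ : ∀ f : Fin d → Fin m, |(Matrix.of fun j => A (f j)).det| ≤ Δ) {u : Fin d → Fin m}
    {c c' γ' : Fin d → ℝ} (hR : RndC A Δ u c c' γ') {b : Fin m → ℝ} {x : Fin d → ℝ}
    (hx : x ∈ Vtx (re A) b) (h : ∀ p ∈ Pol (re A) b, c' ⬝ᵥ p ≤ c' ⬝ᵥ x) :
    ∀ p ∈ Pol (re A) b, c ⬝ᵥ p ≤ c ⬝ᵥ x := by
  intro p hp
  by_contra hcon
  push Not at hcon
  obtain ⟨z, hz, hz1, -, hz3⟩ := elem_exists (y := 0) (δ := c) (z₀ := p - x) hx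
    (fun q _ => by simp) (fun l hl => by
      rw [dotProduct_sub, hl]
      have := hp l
      linarith) (by simp) (by rw [dotProduct_sub]; linarith)
  obtain ⟨ε, hε, h1⟩ := move hx.1 hz1
  have h2 := h _ (h1 ε hε.le le_rfl)
  rw [dotProduct_add, dotProduct_smul, smul_eq_mul] at h2
  have h3 := (same_sign hΔ hR hz).2 hz3
  have := mul_pos hε h3
  linarith

theorem exposed_arg {J : Type} [Fintype J] {P : Set (J → ℝ)} (y : J → ℝ) :
    IsExposed ℝ P (Arg P y) := by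
  intro _
  refine ⟨LinearMap.toContinuousLinearMap (dotProductBilin ℝ ℝ y), ?_⟩
  rfl

theorem gam_pos {d Δ : ℕ} (hd : 0 < d) (hΔ : 0 < Δ) : 0 < gam d Δ := by
  unfold gam
  positivity

theorem num_bound {m d Δ : ℕ} (hd : 0 < d) (hΔ : 0 < Δ) :
    2 * bnd (Fin m ⊕ Fin m) (Fin d) Δ (gam d Δ) Δ ≤
      24 * m * d ^ 3 * Δ ^ 2 * (1 + Real.log (d * Δ)) := by
  unfold bnd
  rw [Fintype.card_sum, Fintype.card_fin, Fintype.card_fin]
  have hd1 : (1 : ℝ) ≤ d := by exact_mod_cast hd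
  have hΔ1 : (1 : ℝ) ≤ Δ := by exact_mod_cast hΔ
  have hlog0 : 0 ≤ Real.log (d * Δ) := Real.log_nonneg (by nlinarith)
  have h1 : Real.log (gam d Δ * Δ / Δ) ≤ 2 * d * Real.log (d * Δ) := by
    rw [mul_div_assoc, div_self (by positivity), mul_one]
    have h2 : (gam d Δ : ℝ) ≤ (d * Δ) ^ (2 * d) := by
      have h3 : gam d Δ ≤ (d * Δ) ^ (2 * d) := by
        unfold gam
        calc d * (d.factorial * Δ ^ d) * Δ ≤ d * (d ^ d * Δ ^ d) * Δ := by
              gcongr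
              exact Nat.factorial_le_pow d
          _ = (d * Δ) ^ (d + 1) := by ring
          _ ≤ (d * Δ) ^ (2 * d) := Nat.pow_le_pow_right (by positivity) (by omega)
      exact_mod_cast h3
    calc Real.log (gam d Δ) ≤ Real.log ((d * Δ) ^ (2 * d)) :=
          Real.log_le_log (by exact_mod_cast gam_pos hd hΔ) h2
      _ = 2 * d * Real.log (d * Δ) := by rw [Real.log_pow]; push_cast; ring
  have he : Real.exp 1 ≤ 3 := by linarith [Real.exp_one_lt_d9]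
  have h4 : 2 + Real.log (gam d Δ * Δ / Δ) ≤ 2 * d * (1 + Real.log (d * Δ)) := by nlinarith
  have h5 : 0 ≤ 2 + Real.log (gam d Δ * Δ / Δ) := by
    rw [mul_div_assoc, div_self (by positivity), mul_one]
    have : 0 ≤ Real.log (gam d Δ) := Real.log_nonneg (by exact_mod_cast gam_pos hd hΔ)
    linarith
  push_cast
  calc 2 * (Real.exp 1 * (m + m) * (d * Δ) ^ 2 * (2 + Real.log (gam d Δ * Δ / Δ)))
      ≤ 2 * (3 * (m + m) * (d * Δ) ^ 2 * (2 * d * (1 + Real.log (d * Δ)))) := by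
        gcongr
    _ = 24 * m * d ^ 3 * Δ ^ 2 * (1 + Real.log (d * Δ)) := by ring

theorem final (hd : 0 < d) (A : Fin m → Fin d → ℤ) (Δ : ℕ)
    (hΔ : ∀ f : Fin d → Fin m, |(Matrix.of fun j => A (f j)).det| ≤ Δ)
    (u : Fin d → Fin m) (hu : LinearIndependent ℝ (fun j => re A (u j))) (c : Fin d → ℝ) :
    ∃ c' : Fin d → ℝ, ∀ (b : Fin m → ℝ) (v : Fin d → ℝ), v ∈ Pol (re A) b →
      (∀ j, re A (u j) ⬝ᵥ v = b (u j)) →
      1 / 2 ≤ volume {lam : Fin d → ℝ | lam ∈ Set.Icc 0 1 ∧ ∃ k x t,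
        Shadow (Pol (re A) b) (wt (re A) u lam) c' v k x t ∧
        (∀ j < k, c ⬝ᵥ x j < c ⬝ᵥ x (j + 1)) ∧
        ((∀ p ∈ Pol (re A) b, c ⬝ᵥ p ≤ c ⬝ᵥ x k) ∨ ∃ z : Fin d → ℝ, 0 < c ⬝ᵥ z ∧
          IsExposed ℝ (Pol (re A) b) {p | ∃ r : ℝ, 0 ≤ r ∧ p = x k + r • z}) ∧
        (k : ℝ) ≤ 24 * m * d ^ 3 * Δ ^ 2 * (1 + Real.log (d * Δ))} := by
  have : Nonempty (Fin d) := ⟨⟨0, hd⟩⟩
  have hβ := coeff_bound hΔ hu
  have hΔ0 : 0 < Δ := by
    rcases Nat.eq_zero_or_pos Δ with h0 | h0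
    · exfalso
      obtain ⟨β, h1, h2⟩ := hβ (u ⟨0, hd⟩)
      have h3 : re A (u ⟨0, hd⟩) = 0 := by
        rw [h1]
        unfold wt
        apply Finset.sum_eq_zero
        intro j _
        have h4 := h2 j
        rw [h0, Nat.cast_zero] at h4
        have h5 : β j = 0 := abs_nonpos_iff.1 h4
        rw [h5, zero_smul]
      exact hu.ne_zero ⟨0, hd⟩ h3
    · exact h0
  obtain ⟨c', γ', hR⟩ := exists_rnd (A := A) hΔ0 hu c
  refine ⟨c', fun b v hvP hut => ?_⟩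
  have hv : v ∈ Vtx (re A) b := by
    rw [vtx_iff hvP]
    intro z hz
    exact eq_zero_of_rows hu fun j => hz (u j) (hut j)
  obtain ⟨M, hM1, hM2, hM3⟩ := unb hv
  have H : Hyp (two (re A)) (cut b M) c' (fun j => Sum.inl (u j)) v Δ (gam d Δ) Δ :=
    { bdd := hM1
      mem := hM2
      indep := hu
      tight := hut
      κpos := by exact_mod_cast hΔ0
      Γpos := by exact_mod_cast gam_pos hd hΔ0
      Rpos := by exact_mod_cast hΔ0
      h1 := fun z hz i hi k => hyp1 hΔ hz i hi k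
      h2 := fun z hz i hi => hyp2 hΔ hR hz i hi
      h3 := fun z hz hc k => hyp3 hΔ hR hz hc k
      hβ := by
        intro i
        cases i with
        | inl i => exact hβ i
        | inr i =>
          obtain ⟨β, h1, h2⟩ := hβ i
          refine ⟨-β, ?_, fun j => ?_⟩
          · change -(re A i) = wt (re A) u (-β)
            rw [h1]
            unfold wt
            rw [← Finset.sum_neg_distrib]
            apply Finset.sum_congr rfl
            intro j _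
            simp
          · rw [Pi.neg_apply, abs_neg]
            exact h2 j
      hle := by
        have h1 : (1 : ℝ) ≤ gam d Δ := by exact_mod_cast gam_pos hd hΔ0
        have h2 : (0 : ℝ) ≤ Δ := Nat.cast_nonneg _
        nlinarith }
  set B := bnd (Fin m ⊕ Fin m) (Fin d) Δ (gam d Δ) Δ with hB
  set K := ⌊2 * B⌋₊ with hK
  set T := {lam : Fin d → ℝ | lam ∈ Set.Icc 0 1 ∧ ∃ k x t,
        Shadow (Pol (re A) b) (wt (re A) u lam) c' v k x t ∧
        (∀ j < k, c ⬝ᵥ x j < c ⬝ᵥ x (j + 1)) ∧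
        ((∀ p ∈ Pol (re A) b, c ⬝ᵥ p ≤ c ⬝ᵥ x k) ∨ ∃ z : Fin d → ℝ, 0 < c ⬝ᵥ z ∧
          IsExposed ℝ (Pol (re A) b) {p | ∃ r : ℝ, 0 ≤ r ∧ p = x k + r • z}) ∧
        (k : ℝ) ≤ 24 * m * d ^ 3 * Δ ^ 2 * (1 + Real.log (d * Δ))} with hT
  set G := Good (two (re A)) (cut b M) c' (fun j => Sum.inl (u j)) v K with hG
  have hmain := main_bound H K
  rw [← hB, ← hG] at hmain
  have hbad : volume (Set.Icc (0 : Fin d → ℝ) 1 \ G) ≤ 1 / 2 := by
    refine hmain.trans ?_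
    have h1 : B / (K + 1) ≤ 1 / 2 := by
      rw [div_le_iff₀ (by positivity)]
      have := Nat.lt_floor_add_one (2 * B)
      rw [← hK] at this
      linarith
    calc ENNReal.ofReal (B / (K + 1)) ≤ ENNReal.ofReal (1 / 2) := ENNReal.ofReal_le_ofReal h1
      _ = 1 / 2 := by
        rw [ENNReal.ofReal_div_of_pos (by norm_num)]
        simp
  -- the null set
  set Z : Set (Fin d → ℝ) := ⋃ j : Fin d, {lam : Fin d → ℝ | lam j = 0} with hZ
  have hZ0 : volume Z = 0 := by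
    rw [hZ, measure_iUnion_null_iff]
    intro j
    rw [volume_pi]
    exact Measure.pi_hyperplane _ j 0
  have hsub : Set.Icc (0 : Fin d → ℝ) 1 ⊆ T ∪ (Set.Icc (0 : Fin d → ℝ) 1 \ G) ∪ Z := by
    intro lam hlam
    by_cases hlG : lam ∈ G
    · by_cases hlZ : lam ∈ Z
      · exact Or.inr hlZ
      · left; left
        have hpos : ∀ j, 0 < lam j := by
          intro j
          refine lt_of_le_of_ne (hlam.1 j) fun h => hlZ ?_
          rw [hZ, Set.mem_iUnion]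
          exact ⟨j, h.symm⟩
        obtain ⟨-, k, hk, x, t, hpath⟩ := hlG
        rw [wt_two] at hpath
        have hstart : Mx (two (re A)) (cut b M) (wt (re A) u lam) = {v} := by
          have := start_unique (a := two (re A)) (b := cut b M) (u := fun j => Sum.inl (u j))
            H.indep H.mem H.tight hpos
          rwa [wt_two] at this
        obtain ⟨k', hk', hsh⟩ := hM3 _ _ _ _ _ hstart hpath
        refine ⟨hlam, k', x, t, hsh, fun j hj => ?_, ?_, ?_⟩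
        · have h1 := hpath.incr j (by omega)
          have h2 := edge_elem hM1 (hpath.pair j (by omega)) (hpath.ne j (by omega))
          have h3 := (same_sign hΔ hR (elem_two.1 h2)).1 (by
            rw [dotProduct_sub]; linarith)
          rw [dotProduct_sub] at h3
          linarith
        · rcases hsh.finish with h1 | ⟨s, -, z, h1, h2⟩
          · left
            exact finish_c hΔ hR (hsh.vertex k' le_rfl) h1
          · right
            have hz0 : z ≠ 0 := by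
              rintro rfl
              simp at h1
            refine ⟨z, (same_sign hΔ hR (ray_elem hz0 h2)).1 h1, ?_⟩
            rw [← h2]
            exact exposed_arg _
        · have h1 : (K : ℝ) ≤ 2 * B := by
            have h3 : 0 ≤ 2 * B := by
              by_contra h4
              push Not at h4
              have h5 : volume (Set.Icc (0 : Fin d → ℝ) 1 \ G) = 0 := by
                have : B / (K + 1) ≤ 0 := div_nonpos_of_nonpos_of_nonneg (by linarith)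
                  (by positivity)
                rw [ENNReal.ofReal_of_nonpos this] at hmain
                exact le_antisymm hmain (by simp)
              have h6 : 0 ≤ bnd (Fin m ⊕ Fin m) (Fin d) Δ (gam d Δ) Δ := by
                unfold bnd
                have h7 : 0 ≤ Real.log ((gam d Δ : ℝ) * Δ / Δ) := by
                  rw [mul_div_assoc, div_self (by positivity), mul_one]
                  exact Real.log_nonneg (by exact_mod_cast gam_pos hd hΔ0)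
                positivity
              linarith
            exact Nat.floor_le h3
          calc (k' : ℝ) ≤ K := by exact_mod_cast hk'.trans hk
            _ ≤ 2 * B := h1
            _ ≤ _ := num_bound hd hΔ0
    · left; right
      exact ⟨hlam, hlG⟩
  have hone : volume (Set.Icc (0 : Fin d → ℝ) 1) = 1 := by
    rw [Real.volume_Icc_pi]
    simp
  have h1 : (1 : ENNReal) ≤ volume T + 1 / 2 := by
    calc (1 : ENNReal) = volume (Set.Icc (0 : Fin d → ℝ) 1) := hone.symm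
      _ ≤ volume (T ∪ (Set.Icc (0 : Fin d → ℝ) 1 \ G) ∪ Z) := measure_mono hsub
      _ ≤ volume (T ∪ (Set.Icc (0 : Fin d → ℝ) 1 \ G)) + volume Z := measure_union_le _ _
      _ ≤ volume T + volume (Set.Icc (0 : Fin d → ℝ) 1 \ G) + volume Z := by
        gcongr
        exact measure_union_le _ _
      _ ≤ volume T + 1 / 2 + 0 := by
        rw [hZ0]
        gcongr
      _ = _ := by rw [add_zero]
  have h2 : (1 : ENNReal) / 2 + 1 / 2 ≤ volume T + 1 / 2 := by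
    rw [ENNReal.add_halves]
    exact h1
  exact (ENNReal.add_le_add_iff_right (by simp)).1 h2

end

end Pool.Agent.H695R2.Simp
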