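import Pool.Agent.H695R2.Simp.Vert

/-!
# Generic combinations of rows
-/

namespace Pool.Agent.H695R2.Simp

open Matrix MeasureTheory

variable {ι J : Type} [Fintype ι] [Fintype J] {a : ι → J → ℝ} {b : ι → ℝ}

theorem eq_zero_of_rows {u : J → ι} (hu : LinearIndependent ℝ (fun j => a (u j))) {q : J → ℝ}
    (hq : ∀ j, a (u j) ⬝ᵥ q = 0) : q = 0 := by
  classical
  let M : Matrix J J ℝ := fun j => a (u j)
  have hM : IsUnit M := Matrix.linearIndependent_rows_iff_isUnit.1 hu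
  have hinj := Matrix.mulVec_injective_of_isUnit hM
  apply hinj
  rw [Matrix.mulVec_zero]
  funext j
  exact hq j

theorem wt_dot (u : J → ι) (lam q : J → ℝ) :
    wt a u lam ⬝ᵥ q = ∑ j, lam j * (a (u j) ⬝ᵥ q) := by
  unfold wt
  rw [sum_dotProduct]
  apply Finset.sum_congr rfl
  intro j _
  rw [smul_dotProduct, smul_eq_mul]

theorem ae_ne {u : J → ι} (hu : LinearIndependent ℝ (fun j => a (u j))) (q : J → ℝ)
    (hq : q ≠ 0) : ∀ᵐ lam : J → ℝ, wt a u lam ⬝ᵥ q ≠ 0 := by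
  classical
  let L : (J → ℝ) →ₗ[ℝ] ℝ :=
    { toFun := fun lam => ∑ j, lam j * (a (u j) ⬝ᵥ q)
      map_add' := by
        intro x y
        rw [← Finset.sum_add_distrib]
        apply Finset.sum_congr rfl
        intro j _
        simp only [Pi.add_apply]
        ring
      map_smul' := by
        intro r x
        simp only [Pi.smul_apply, smul_eq_mul, RingHom.id_apply, Finset.mul_sum]
        apply Finset.sum_congr rfl
        intro j _
        ring }
  have hne : L.ker ≠ ⊤ := by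
    intro h
    apply hq
    apply eq_zero_of_rows hu
    intro j
    have h1 : Pi.single j (1 : ℝ) ∈ L.ker := by rw [h]; trivial
    rw [LinearMap.mem_ker] at h1
    have h2 : L (Pi.single j (1 : ℝ)) = a (u j) ⬝ᵥ q := by
      show ∑ i, (Pi.single j (1 : ℝ) : J → ℝ) i * (a (u i) ⬝ᵥ q) = _
      rw [Finset.sum_eq_single j]
      · simp
      · intro i _ hij
        rw [Pi.single_eq_of_ne hij, zero_mul]
      · simp
    rw [← h2, h1]
  have h0 := Measure.addHaar_submodule (volume : Measure (J → ℝ)) L.ker hne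
  rw [ae_iff]
  refine measure_mono_null ?_ h0
  intro lam hlam
  simp only [ne_eq, not_not, Set.mem_setOf_eq] at hlam
  show L lam = 0
  rw [wt_dot] at hlam
  exact hlam

theorem not_between {x p q : J → ℝ} (hx : x ∈ Vtx a b) (hp : p ∈ Pol a b) (hq : q ∈ Pol a b)
    (hpq : p ≠ q) (s : ℝ) (hs0 : 0 < s) (hs1 : s < 1) : x ≠ p + s • (q - p) := by
  intro h
  have hx' := hx
  unfold Vtx at hx'
  rw [mem_extremePoints] at hx'
  have h1 : x ∈ openSegment ℝ p q := by
    refine ⟨1 - s, s, by linarith, hs0, by ring, ?_⟩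
    rw [h]
    funext l
    simp only [Pi.add_apply, Pi.smul_apply, smul_eq_mul, Pi.sub_apply]
    ring
  have h2 := hx'.2 p hp q hq h1
  exact hpq (h2.1.trans h2.2.symm)

theorem gen_ae (b : ι → ℝ) (c : J → ℝ) {u : J → ι} (hu : LinearIndependent ℝ (fun j => a (u j))) :
    ∀ᵐ lam : J → ℝ, Gen a b c (wt a u lam) := by
  classical
  set V := (vtx_finite a b).toFinset with hV
  set Z : Finset (J → ℝ) := ((V ×ˢ V).image fun p => p.2 - p.1) ∪
    ((V ×ˢ V ×ˢ V).image fun p => (c ⬝ᵥ (p.2.2 - p.1)) • (p.2.1 - p.1) -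
      (c ⬝ᵥ (p.2.1 - p.1)) • (p.2.2 - p.1)) with hZ
  have hae : ∀ᵐ lam : J → ℝ, ∀ q ∈ Z, q ≠ 0 → wt a u lam ⬝ᵥ q ≠ 0 := by
    rw [Finset.eventually_all]
    intro q _
    by_cases hq : q = 0
    · filter_upwards with lam h
      exact absurd hq h
    · filter_upwards [ae_ne hu q hq] with lam h _
      exact h
  filter_upwards [hae] with lam hlam
  set w := wt a u lam with hw
  intro t x₁ hx₁ x₂ hx₂ x₃ hx₃
  by_contra hno
  push Not at hno
  obtain ⟨h12, h13, h23⟩ := hno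
  have m : ∀ x, x ∈ Mx a b (w + t • c) → x ∈ V := by
    intro x hx
    rw [hV, Set.Finite.mem_toFinset]
    exact hx.1
  have hval : ∀ x ∈ Mx a b (w + t • c), ∀ y ∈ Mx a b (w + t • c),
      w ⬝ᵥ (x - y) = - (t * (c ⬝ᵥ (x - y))) := by
    intro x hx y hy
    have e1 := hx.2 y hy.1
    have e2 := hy.2 x hx.1
    have e3 : (w + t • c) ⬝ᵥ (x - y) = 0 := by
      rw [dotProduct_sub]
      linarith
    rw [add_dotProduct, smul_dotProduct, smul_eq_mul] at e3
    linarith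
  have hw1 := hval x₂ hx₂ x₁ hx₁
  have hw2 := hval x₃ hx₃ x₁ hx₁
  set z₁ := x₂ - x₁ with hz₁
  set z₂ := x₃ - x₁ with hz₂
  have hz1Z : z₁ ∈ Z := by
    rw [hZ, Finset.mem_union]
    left
    rw [Finset.mem_image]
    exact ⟨(x₁, x₂), Finset.mem_product.2 ⟨m _ hx₁, m _ hx₂⟩, rfl⟩
  have hqZ : (c ⬝ᵥ z₂) • z₁ - (c ⬝ᵥ z₁) • z₂ ∈ Z := by
    rw [hZ, Finset.mem_union]
    right
    rw [Finset.mem_image]
    exact ⟨(x₁, x₂, x₃), Finset.mem_product.2 ⟨m _ hx₁, Finset.mem_product.2 ⟨m _ hx₂, m _ hx₃⟩⟩,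
      rfl⟩
  have hz1ne : z₁ ≠ 0 := sub_ne_zero.2 (Ne.symm h12)
  have hc1 : c ⬝ᵥ z₁ ≠ 0 := by
    intro h
    rw [h, mul_zero, neg_zero] at hw1
    exact hlam z₁ hz1Z hz1ne hw1
  have hq0 : (c ⬝ᵥ z₂) • z₁ - (c ⬝ᵥ z₁) • z₂ = 0 := by
    by_contra hne
    apply hlam _ hqZ hne
    rw [dotProduct_sub, dotProduct_smul, dotProduct_smul, hw1, hw2, smul_eq_mul, smul_eq_mul]
    ring
  set r := (c ⬝ᵥ z₂) / (c ⬝ᵥ z₁) with hr
  have hz2 : z₂ = r • z₁ := by
    have h1 : (c ⬝ᵥ z₁) • z₂ = (c ⬝ᵥ z₂) • z₁ := (sub_eq_zero.1 hq0).symm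
    have h2 : z₂ = (c ⬝ᵥ z₁)⁻¹ • ((c ⬝ᵥ z₁) • z₂) := by
      rw [smul_smul, inv_mul_cancel₀ hc1, one_smul]
    rw [h2, h1, smul_smul, hr]
    congr 1
    field_simp
  have hx3 : ∀ l, x₃ l = x₁ l + r * (x₂ l - x₁ l) := by
    intro l
    have := congrFun hz2 l
    rw [hz₂, hz₁] at this
    simp only [Pi.sub_apply, Pi.smul_apply, smul_eq_mul] at this
    linarith
  have hr0 : r ≠ 0 := by
    intro h
    apply h13
    funext l
    rw [hx3 l, h]
    ring
  have hr1 : r ≠ 1 := by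
    intro h
    apply h23
    funext l
    rw [hx3 l, h]
    ring
  have p1 : x₁ ∈ Pol a b := vtx_sub hx₁.1
  have p2 : x₂ ∈ Pol a b := vtx_sub hx₂.1
  have p3 : x₃ ∈ Pol a b := vtx_sub hx₃.1
  rcases lt_trichotomy r 0 with h | h | h
  · -- x₁ is between x₂ and x₃
    have h1r : 0 < 1 - r := by linarith
    apply not_between hx₁.1 p2 p3 h23 (1 / (1 - r)) (by positivity)
      (by rw [div_lt_one h1r]; linarith)
    funext l
    simp only [Pi.add_apply, Pi.smul_apply, smul_eq_mul, Pi.sub_apply]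
    rw [hx3 l]
    field_simp
    ring
  · exact hr0 h
  · rcases lt_trichotomy r 1 with h' | h' | h'
    · apply not_between hx₃.1 p1 p2 h12 r h h'
      funext l
      simp only [Pi.add_apply, Pi.smul_apply, smul_eq_mul, Pi.sub_apply]
      exact hx3 l
    · exact hr1 h'
    · apply not_between hx₂.1 p1 p3 h13 (1 / r) (by positivity) (by rw [div_lt_one h]; exact h')
      funext l
      simp only [Pi.add_apply, Pi.smul_apply, smul_eq_mul, Pi.sub_apply]
      rw [hx3 l]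
      field_simp
      ring

theorem start_unique {u : J → ι} (hu : LinearIndependent ℝ (fun j => a (u j))) {v : J → ℝ}
    (hv : v ∈ Pol a b) (hut : ∀ j, a (u j) ⬝ᵥ v = b (u j)) {lam : J → ℝ} (hlam : ∀ j, 0 < lam j) :
    Mx a b (wt a u lam) = {v} := by
  have hvV : v ∈ Vtx a b := by
    rw [vtx_iff hv]
    intro z hz
    apply eq_zero_of_rows hu
    intro j
    exact hz (u j) (hut j)
  have hle : ∀ p ∈ Pol a b, ∀ j, lam j * (a (u j) ⬝ᵥ p) ≤ lam j * (a (u j) ⬝ᵥ v) := by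
    intro p hp j
    rw [hut j]
    exact mul_le_mul_of_nonneg_left (hp (u j)) (hlam j).le
  ext x
  rw [Set.mem_singleton_iff]
  constructor
  · intro hx
    have h1 := hx.2 v hvV
    rw [wt_dot, wt_dot] at h1
    have hxP := vtx_sub hx.1
    have h2 : ∑ j, lam j * (a (u j) ⬝ᵥ x) = ∑ j, lam j * (a (u j) ⬝ᵥ v) :=
      le_antisymm (Finset.sum_le_sum fun j _ => hle x hxP j) h1
    have h3 := (Finset.sum_eq_sum_iff_of_le (fun j _ => hle x hxP j)).1 h2
    have h4 : x - v = 0 := by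
      apply eq_zero_of_rows hu
      intro j
      rw [dotProduct_sub]
      have h5 := h3 j (Finset.mem_univ j)
      have h6 := mul_left_cancel₀ (hlam j).ne' h5
      linarith
    exact sub_eq_zero.1 h4
  · rintro rfl
    refine ⟨hvV, fun x' hx' => ?_⟩
    rw [wt_dot, wt_dot]
    exact Finset.sum_le_sum fun j _ => hle x' (vtx_sub hx') j

end Pool.Agent.H695R2.Simp
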