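import Pool.Agent.H695R2.Simp.Vert

/-!
# Elementary directions in the cone of a vertex
-/

namespace Pool.Agent.H695R2.Simp

open Matrix MeasureTheory

variable {ι J : Type} [Fintype ι] [Fintype J] {a : ι → J → ℝ} {b : ι → ℝ}

open Classical in
/-- the tight rows orthogonal to `z` -/
private noncomputable def TT (a : ι → J → ℝ) (b : ι → ℝ) (x z : J → ℝ) : Finset ι :=
  Finset.univ.filter (fun l => a l ⬝ᵥ x = b l ∧ a l ⬝ᵥ z = 0)

open Classical in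
private theorem push {x z q : J → ℝ} (hz : ∀ l, a l ⬝ᵥ x = b l → a l ⬝ᵥ z ≤ 0)
    (hq : ∀ l, a l ⬝ᵥ z = 0 → a l ⬝ᵥ q = 0) (hl : ∃ l, a l ⬝ᵥ x = b l ∧ 0 < a l ⬝ᵥ q) :
    ∃ τ : ℝ, 0 < τ ∧ (∀ l, a l ⬝ᵥ x = b l → a l ⬝ᵥ (z + τ • q) ≤ 0) ∧
      (TT a b x z).card < (TT a b x (z + τ • q)).card := by
  obtain ⟨l1, hl1, hl1q⟩ := hl
  set F : Finset ι := Finset.univ.filter (fun l => a l ⬝ᵥ x = b l ∧ 0 < a l ⬝ᵥ q) with hF
  have hFne : F.Nonempty := ⟨l1, by rw [hF, Finset.mem_filter]; exact ⟨Finset.mem_univ _, hl1, hl1q⟩⟩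
  obtain ⟨l0, hl0, hmin⟩ := Finset.exists_min_image F
    (fun l => (-(a l ⬝ᵥ z)) / (a l ⬝ᵥ q)) hFne
  have hl0' : a l0 ⬝ᵥ x = b l0 ∧ 0 < a l0 ⬝ᵥ q := by
    rw [hF, Finset.mem_filter] at hl0
    exact hl0.2
  have hz0 : a l0 ⬝ᵥ z < 0 := by
    refine lt_of_le_of_ne (hz l0 hl0'.1) fun h => ?_
    have := hq l0 h
    linarith [hl0'.2]
  set τ : ℝ := (-(a l0 ⬝ᵥ z)) / (a l0 ⬝ᵥ q) with hτ
  have hτ0 : 0 < τ := div_pos (by linarith) hl0'.2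
  have hval : ∀ l, a l ⬝ᵥ (z + τ • q) = a l ⬝ᵥ z + τ * (a l ⬝ᵥ q) := by
    intro l
    rw [dotProduct_add, dotProduct_smul, smul_eq_mul]
  refine ⟨τ, hτ0, ?_, ?_⟩
  · intro l hlx
    rw [hval]
    by_cases h : 0 < a l ⬝ᵥ q
    · have h1 := hmin l (by rw [hF, Finset.mem_filter]; exact ⟨Finset.mem_univ _, hlx, h⟩)
      have h2 : τ ≤ (-(a l ⬝ᵥ z)) / (a l ⬝ᵥ q) := h1
      rw [le_div_iff₀ h] at h2
      linarith
    · push Not at h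
      have h1 := hz l hlx
      have h2 := mul_nonpos_of_nonneg_of_nonpos hτ0.le h
      linarith
  · apply Finset.card_lt_card
    rw [Finset.ssubset_iff_of_subset]
    · refine ⟨l0, ?_, ?_⟩
      · unfold TT
        rw [Finset.mem_filter]
        refine ⟨Finset.mem_univ _, hl0'.1, ?_⟩
        rw [hval, hτ, div_mul_cancel₀ _ hl0'.2.ne']
        ring
      · unfold TT
        rw [Finset.mem_filter]
        rintro ⟨-, -, h⟩
        exact hz0.ne h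
    · intro l hl
      unfold TT at hl ⊢
      rw [Finset.mem_filter] at hl ⊢
      refine ⟨Finset.mem_univ _, hl.2.1, ?_⟩
      rw [hval, hl.2.2, hq l hl.2.2]
      ring

theorem elem_exists {x y δ z₀ : J → ℝ} (hx : x ∈ Vtx a b)
    (hy : ∀ p ∈ Pol a b, y ⬝ᵥ p ≤ y ⬝ᵥ x)
    (hz : ∀ l, a l ⬝ᵥ x = b l → a l ⬝ᵥ z₀ ≤ 0) (hy0 : y ⬝ᵥ z₀ = 0) (hδ : 0 < δ ⬝ᵥ z₀) :
    ∃ z, Elem a z ∧ (∀ l, a l ⬝ᵥ x = b l → a l ⬝ᵥ z ≤ 0) ∧ y ⬝ᵥ z = 0 ∧ 0 < δ ⬝ᵥ z := by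
  classical
  set P : (J → ℝ) → Prop := fun z => (∀ l, a l ⬝ᵥ x = b l → a l ⬝ᵥ z ≤ 0) ∧ y ⬝ᵥ z = 0 ∧
    0 < δ ⬝ᵥ z with hP
  -- a choice with the maximal number of tight zero rows
  have hex : ∃ z, P z ∧ ∀ z', P z' → (TT a b x z').card ≤ (TT a b x z).card := by
    have h1 : {n : ℕ | ∃ z, P z ∧ Fintype.card ι - (TT a b x z).card = n}.Nonempty :=
      ⟨_, z₀, ⟨hz, hy0, hδ⟩, rfl⟩
    obtain ⟨z, hz1, hz2⟩ := Nat.sInf_mem h1
    refine ⟨z, hz1, fun z' hz' => ?_⟩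
    have h2 : sInf {n : ℕ | ∃ z, P z ∧ Fintype.card ι - (TT a b x z).card = n} ≤
        Fintype.card ι - (TT a b x z').card := Nat.sInf_le ⟨z', hz', rfl⟩
    rw [← hz2] at h2
    have h3 : (TT a b x z').card ≤ Fintype.card ι := Finset.card_le_univ _
    have h4 : (TT a b x z).card ≤ Fintype.card ι := Finset.card_le_univ _
    omega
  obtain ⟨z, ⟨hzK, hzy, hzδ⟩, hmax⟩ := hex
  have hz0 : z ≠ 0 := by
    rintro rfl
    rw [dotProduct_zero] at hzδ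
    exact lt_irrefl _ hzδ
  -- the objective is nonpositive on the cone
  have hcone : ∀ z'' : J → ℝ, (∀ l, a l ⬝ᵥ x = b l → a l ⬝ᵥ z'' ≤ 0) → y ⬝ᵥ z'' ≤ 0 := by
    intro z'' h
    obtain ⟨ε, hε, h1⟩ := move (vtx_sub hx) h
    have h2 := hy _ (h1 ε hε.le le_rfl)
    rw [dotProduct_add, dotProduct_smul, smul_eq_mul] at h2
    by_contra hc
    push Not at hc
    have := mul_pos hε hc
    linarith
  refine ⟨z, ⟨hz0, fun z' hz' => ?_⟩, hzK, hzy, hzδ⟩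
  by_contra hcon
  push Not at hcon
  set T : Finset ι := Finset.univ.filter (fun l => a l ⬝ᵥ x = b l) with hT
  have hTm : ∀ l, l ∈ T ↔ a l ⬝ᵥ x = b l := by
    intro l
    rw [hT, Finset.mem_filter]
    simp
  set h : J → ℝ := ∑ l ∈ T, a l with hh
  have hdot : ∀ q : J → ℝ, h ⬝ᵥ q = ∑ l ∈ T, a l ⬝ᵥ q := by
    intro q
    rw [hh, sum_dotProduct]
  have hhz : h ⬝ᵥ z < 0 := by
    rw [hdot]
    obtain ⟨l, hl⟩ : ∃ l, a l ⬝ᵥ x = b l ∧ a l ⬝ᵥ z ≠ 0 := by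
      by_contra hc
      push Not at hc
      exact hz0 ((vtx_iff (vtx_sub hx)).1 hx z hc)
    exact Finset.sum_neg' (fun l hl => hzK l ((hTm l).1 hl))
      ⟨l, (hTm l).2 hl.1, lt_of_le_of_ne (hzK l hl.1) hl.2⟩
  set q : J → ℝ := z' - (h ⬝ᵥ z' / h ⬝ᵥ z) • z with hq
  have hq0 : q ≠ 0 := by
    intro h0
    exact hcon _ (sub_eq_zero.1 h0)
  have hhq : ∑ l ∈ T, a l ⬝ᵥ q = 0 := by
    rw [← hdot, hq, dotProduct_sub, dotProduct_smul, smul_eq_mul, div_mul_cancel₀ _ hhz.ne,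
      sub_self]
  have hqz : ∀ l, a l ⬝ᵥ z = 0 → a l ⬝ᵥ q = 0 := by
    intro l hl
    rw [hq, dotProduct_sub, dotProduct_smul, hz' l hl, hl, smul_zero, sub_zero]
  have hnz : ∃ l ∈ T, a l ⬝ᵥ q ≠ 0 := by
    by_contra hc
    push Not at hc
    exact hq0 ((vtx_iff (vtx_sub hx)).1 hx q fun l hl => hc l ((hTm l).2 hl))
  obtain ⟨l1, hl1, hl1q⟩ := Finset.exists_pos_of_sum_zero_of_exists_nonzero _ hhq hnz
  have hhq' : ∑ l ∈ T, a l ⬝ᵥ (-q) = 0 := by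
    simp_rw [dotProduct_neg]
    rw [Finset.sum_neg_distrib, hhq, neg_zero]
  have hnz' : ∃ l ∈ T, a l ⬝ᵥ (-q) ≠ 0 := by
    obtain ⟨l, hl, hne⟩ := hnz
    exact ⟨l, hl, by rw [dotProduct_neg]; exact neg_ne_zero.2 hne⟩
  obtain ⟨l2, hl2, hl2q⟩ := Finset.exists_pos_of_sum_zero_of_exists_nonzero _ hhq' hnz'
  have hqz' : ∀ l, a l ⬝ᵥ z = 0 → a l ⬝ᵥ (-q) = 0 := by
    intro l hl
    rw [dotProduct_neg, hqz l hl, neg_zero]
  obtain ⟨τ1, hτ1, hK1, hc1⟩ := push hzK hqz ⟨l1, (hTm l1).1 hl1, hl1q⟩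
  obtain ⟨τ2, hτ2, hK2, hc2⟩ := push hzK hqz' ⟨l2, (hTm l2).1 hl2, hl2q⟩
  have hy1 := hcone _ hK1
  have hy2 := hcone _ hK2
  rw [dotProduct_add, dotProduct_smul, smul_eq_mul, hzy, zero_add] at hy1 hy2
  rw [dotProduct_neg] at hy2
  have hyq : y ⬝ᵥ q = 0 := by
    have h5 : y ⬝ᵥ q ≤ 0 := by
      by_contra hc
      push Not at hc
      have := mul_pos hτ1 hc
      linarith
    have h6 : 0 ≤ y ⬝ᵥ q := by
      by_contra hc
      push Not at hc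
      have := mul_pos hτ2 (neg_pos.2 hc)
      linarith
    linarith
  by_cases hd : 0 ≤ δ ⬝ᵥ q
  · have := hmax (z + τ1 • q) ⟨hK1, by
      rw [dotProduct_add, dotProduct_smul, hzy, hyq, smul_zero, add_zero], by
      rw [dotProduct_add, dotProduct_smul, smul_eq_mul]
      have := mul_nonneg hτ1.le hd
      linarith⟩
    omega
  · push Not at hd
    have := hmax (z + τ2 • (-q)) ⟨hK2, by
      rw [dotProduct_add, dotProduct_smul, dotProduct_neg, hzy, hyq, neg_zero, smul_zero,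
        add_zero], by
      rw [dotProduct_add, dotProduct_smul, dotProduct_neg, smul_eq_mul]
      have := mul_pos hτ2 (neg_pos.2 hd)
      linarith⟩
    omega

end Pool.Agent.H695R2.Simp
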