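import Pool.Agent.H695R2.Simp.Vert

/-!
# Existence of shadow paths
-/

namespace Pool.Agent.H695R2.Simp

open Matrix MeasureTheory

variable {ι J : Type} [Fintype ι] [Fintype J] {a : ι → J → ℝ} {b : ι → ℝ}

set_option linter.unusedSectionVars false

namespace PathAux

open Filter Topology

theorem dot_eq (w c x : J → ℝ) (s : ℝ) : (w + s • c) ⬝ᵥ x = w ⬝ᵥ x + s * (c ⬝ᵥ x) := by
  rw [add_dotProduct, smul_dotProduct, smul_eq_mul]

/-- `x` is the unique maximiser -/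
theorem mx_singleton {y x : J → ℝ} (hx : x ∈ Vtx a b)
    (h : ∀ x' ∈ Vtx a b, x' ≠ x → y ⬝ᵥ x' < y ⬝ᵥ x) : Mx a b y = {x} := by
  ext z
  rw [Set.mem_singleton_iff]
  constructor
  · rintro ⟨h1, h2⟩
    by_contra h3
    exact absurd (h z h1 h3) (not_lt.2 (h2 x hx))
  · rintro rfl
    refine ⟨hx, fun x' hx' => ?_⟩
    by_cases h3 : x' = z
    · rw [h3]
    · exact (h x' hx' h3).le

theorem mx_singleton_mem {y x : J → ℝ} (h : Mx a b y = {x}) : x ∈ Vtx a b := by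
  have : x ∈ Mx a b y := by rw [h]; exact Set.mem_singleton x
  exact this.1

theorem mx_singleton_lt {y x : J → ℝ} (h : Mx a b y = {x}) (x' : J → ℝ) (hx' : x' ∈ Vtx a b)
    (hne : x' ≠ x) : y ⬝ᵥ x' < y ⬝ᵥ x := by
  have hx : x ∈ Mx a b y := by rw [h]; exact Set.mem_singleton x
  by_contra hlt
  apply hne
  have : x' ∈ Mx a b y := ⟨hx', fun z hz => (hx.2 z hz).trans (not_lt.1 hlt)⟩
  rw [h] at this
  exact this

/-- strict inequalities persist for a short time -/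
theorem lt_right {c w x x' : J → ℝ} {t : ℝ} (h : (w + t • c) ⬝ᵥ x' < (w + t • c) ⬝ᵥ x) :
    ∀ᶠ s in 𝓝[>] t, (w + s • c) ⬝ᵥ x' < (w + s • c) ⬝ᵥ x := by
  have hc : ∀ y : J → ℝ, Continuous fun s : ℝ => (w + s • c) ⬝ᵥ y := by
    intro y
    simp only [dot_eq]
    exact continuous_const.add (continuous_id.mul continuous_const)
  have h1 : ∀ᶠ s in 𝓝 t, (w + s • c) ⬝ᵥ x' < (w + s • c) ⬝ᵥ x :=
    ((hc x').continuousAt).eventually_lt ((hc x).continuousAt) h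
  exact h1.filter_mono nhdsWithin_le_nhds

theorem start {c w v : J → ℝ} (hv : Mx a b w = {v}) :
    ∀ᶠ s in 𝓝[>] (0 : ℝ), Mx a b (w + s • c) = {v} := by
  have hV := vtx_finite a b
  have h1 : ∀ᶠ s in 𝓝[>] (0 : ℝ), ∀ x' ∈ Vtx a b, x' ≠ v →
      (w + s • c) ⬝ᵥ x' < (w + s • c) ⬝ᵥ v := by
    rw [Filter.eventually_all_finite hV]
    intro x' hx'
    by_cases hne : x' = v
    · exact Filter.Eventually.of_forall fun s h => absurd hne h
    · have h2 : (w + (0 : ℝ) • c) ⬝ᵥ x' < (w + (0 : ℝ) • c) ⬝ᵥ v := by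
        rw [zero_smul, add_zero]
        exact mx_singleton_lt hv x' hx' hne
      filter_upwards [lt_right h2] with s hs _ using hs
  filter_upwards [h1] with s hs
  exact mx_singleton (mx_singleton_mem hv) hs

/-- a vertex with smaller or equal slope that is strictly below at some time stays below -/
theorem stay {c w x x' : J → ℝ} {s s' : ℝ} (hs : s ≤ s') (hc : c ⬝ᵥ x' ≤ c ⬝ᵥ x)
    (h : (w + s • c) ⬝ᵥ x' < (w + s • c) ⬝ᵥ x) : (w + s' • c) ⬝ᵥ x' < (w + s' • c) ⬝ᵥ x := by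
  rw [dot_eq, dot_eq] at h ⊢
  nlinarith [mul_nonneg (sub_nonneg.2 hs) (sub_nonneg.2 hc)]

theorem step {c w x0 : J → ℝ} {t0 : ℝ} (hg : Gen a b c w)
    (h0 : ∀ᶠ s in 𝓝[>] t0, Mx a b (w + s • c) = {x0})
    (hex : ∃ x' ∈ Vtx a b, c ⬝ᵥ x0 < c ⬝ᵥ x') :
    ∃ (t1 : ℝ) (x1 : J → ℝ), t0 < t1 ∧ x1 ∈ Vtx a b ∧ c ⬝ᵥ x0 < c ⬝ᵥ x1 ∧
      Mx a b (w + t1 • c) = {x0, x1} ∧
      (∀ s, t0 < s → s < t1 → Mx a b (w + s • c) = {x0}) ∧
      ∀ᶠ s in 𝓝[>] t1, Mx a b (w + s • c) = {x1} := by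
  classical
  have hV := vtx_finite a b
  obtain ⟨ε, hε, hε'⟩ : ∃ ε > t0, ∀ s, t0 < s → s < ε → Mx a b (w + s • c) = {x0} := by
    rw [eventually_nhdsWithin_iff] at h0
    obtain ⟨l, u, hlu, hu⟩ := (mem_nhds_iff_exists_Ioo_subset.1 h0)
    exact ⟨u, hlu.2, fun s h1 h2 => hu ⟨hlu.1.trans h1, h2⟩ h1⟩
  have hx0 : x0 ∈ Vtx a b :=
    mx_singleton_mem (hε' ((t0 + ε) / 2) (by linarith) (by linarith))
  -- vertices with larger slope and crossing times
  set W : Set (J → ℝ) := {x' | x' ∈ Vtx a b ∧ c ⬝ᵥ x0 < c ⬝ᵥ x'} with hW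
  have hWf : W.Finite := hV.subset fun x' hx' => hx'.1
  have hWne : W.Nonempty := by
    obtain ⟨x', h1, h2⟩ := hex
    exact ⟨x', h1, h2⟩
  set τ : (J → ℝ) → ℝ := fun x' => (w ⬝ᵥ x0 - w ⬝ᵥ x') / (c ⬝ᵥ x' - c ⬝ᵥ x0) with hτ
  obtain ⟨x1, hx1, hmin⟩ := Set.exists_min_image W τ hWf hWne
  set t1 := τ x1 with ht1
  have hτlt : ∀ x' ∈ W, ∀ s, s < τ x' → (w + s • c) ⬝ᵥ x' < (w + s • c) ⬝ᵥ x0 := by
    intro x' hx' s hs
    have hpos : 0 < c ⬝ᵥ x' - c ⬝ᵥ x0 := sub_pos.2 hx'.2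
    rw [hτ, lt_div_iff₀ hpos] at hs
    rw [dot_eq, dot_eq]
    linarith
  have hτeq : ∀ x' ∈ W, (w + τ x' • c) ⬝ᵥ x' = (w + τ x' • c) ⬝ᵥ x0 := by
    intro x' hx'
    have hpos : 0 < c ⬝ᵥ x' - c ⬝ᵥ x0 := sub_pos.2 hx'.2
    rw [dot_eq, dot_eq]
    have h1 : τ x' * (c ⬝ᵥ x' - c ⬝ᵥ x0) = w ⬝ᵥ x0 - w ⬝ᵥ x' := by
      rw [hτ]
      exact div_mul_cancel₀ _ hpos.ne'
    linarith
  have hτgt : ∀ x' ∈ W, t0 < τ x' := by
    intro x' hx'
    have hpos : 0 < c ⬝ᵥ x' - c ⬝ᵥ x0 := sub_pos.2 hx'.2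
    have h1 := mx_singleton_lt (hε' ((t0 + ε) / 2) (by linarith) (by linarith)) x' hx'.1
      (fun h => by rw [h] at hx'; exact lt_irrefl _ hx'.2)
    rw [dot_eq, dot_eq] at h1
    have h2 : (t0 + ε) / 2 < τ x' := by
      rw [hτ, lt_div_iff₀ hpos]
      linarith
    linarith
  have ht01 : t0 < t1 := hτgt x1 hx1
  -- vertices with smaller slope stay below
  have hsmall : ∀ x' ∈ Vtx a b, x' ≠ x0 → c ⬝ᵥ x' ≤ c ⬝ᵥ x0 → ∀ s, t0 < s →
      (w + s • c) ⬝ᵥ x' < (w + s • c) ⬝ᵥ x0 := by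
    intro x' hx' hne hc s hs
    set s' := (t0 + min s ε) / 2 with hs'
    have hm : t0 < min s ε := lt_min hs hε
    have h1 : t0 < s' := by rw [hs']; linarith
    have h2 : s' < ε := by
      have := min_le_right s ε
      rw [hs']; linarith
    have h3 : s' ≤ s := by
      have := min_le_left s ε
      rw [hs']; linarith
    exact stay h3 hc (mx_singleton_lt (hε' s' h1 h2) x' hx' hne)
  have hx01 : x0 ≠ x1 := fun h => by
    have := hx1.2
    rw [← h] at this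
    exact lt_irrefl _ this
  have hle1 : ∀ x' ∈ Vtx a b, (w + t1 • c) ⬝ᵥ x' ≤ (w + t1 • c) ⬝ᵥ x0 := by
    intro x' hx'
    by_cases hne : x' = x0
    · rw [hne]
    rcases le_or_gt (c ⬝ᵥ x') (c ⬝ᵥ x0) with hc | hc
    · exact (hsmall x' hx' hne hc t1 ht01).le
    · have hxW : x' ∈ W := ⟨hx', hc⟩
      rcases (hmin x' hxW).eq_or_lt with h | h
      · have := hτeq x' hxW
        rw [← h] at this
        exact this.le
      · exact (hτlt x' hxW t1 h).le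
  have hm0 : x0 ∈ Mx a b (w + t1 • c) := ⟨hx0, hle1⟩
  have hm1 : x1 ∈ Mx a b (w + t1 • c) := by
    refine ⟨hx1.1, fun x' hx' => ?_⟩
    rw [show (w + t1 • c) ⬝ᵥ x1 = (w + t1 • c) ⬝ᵥ x0 from hτeq x1 hx1]
    exact hle1 x' hx'
  have hpair : Mx a b (w + t1 • c) = {x0, x1} := by
    ext z
    simp only [Set.mem_insert_iff, Set.mem_singleton_iff]
    constructor
    · intro hz
      rcases hg t1 x0 hm0 x1 hm1 z hz with h | h | h
      · exact absurd h hx01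
      · exact Or.inl h.symm
      · exact Or.inr h.symm
    · rintro (rfl | rfl)
      · exact hm0
      · exact hm1
  refine ⟨t1, x1, ht01, hx1.1, hx1.2, hpair, ?_, ?_⟩
  · intro s h1 h2
    refine mx_singleton hx0 fun x' hx' hne => ?_
    rcases le_or_gt (c ⬝ᵥ x') (c ⬝ᵥ x0) with hc | hc
    · exact hsmall x' hx' hne hc s h1
    · exact hτlt x' ⟨hx', hc⟩ s (h2.trans_le (hmin x' ⟨hx', hc⟩))
  · have h1 : ∀ᶠ s in 𝓝[>] t1, ∀ x' ∈ Vtx a b, x' ≠ x1 →
        (w + s • c) ⬝ᵥ x' < (w + s • c) ⬝ᵥ x1 := by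
      rw [Filter.eventually_all_finite hV]
      intro x' hx'
      by_cases hne : x' = x1
      · exact Filter.Eventually.of_forall fun s h => absurd hne h
      by_cases hne0 : x' = x0
      · subst hne0
        filter_upwards [self_mem_nhdsWithin] with s hs _
        have hs' : t1 < s := hs
        have h2 := hτeq x1 hx1
        rw [dot_eq, dot_eq] at h2
        rw [dot_eq, dot_eq]
        have h3 := hx1.2
        have h4 : τ x1 = t1 := rfl
        rw [h4] at h2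
        nlinarith [mul_pos (sub_pos.2 hs') (sub_pos.2 h3)]
      · have h2 : (w + t1 • c) ⬝ᵥ x' < (w + t1 • c) ⬝ᵥ x1 := by
          refine lt_of_le_of_ne (hm1.2 x' hx') fun h => ?_
          have h3 : x' ∈ Mx a b (w + t1 • c) := ⟨hx', fun z hz => (hm1.2 z hz).trans h.ge⟩
          rw [hpair] at h3
          rcases h3 with h3 | h3
          · exact hne0 h3
          · exact hne h3
        filter_upwards [lt_right h2] with s hs _ using hs
    filter_upwards [h1] with s hs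
    exact mx_singleton hx1.1 hs

/-- shadow path starting at the time `τ` -/
structure SP (a : ι → J → ℝ) (b : ι → ℝ) (c w v : J → ℝ) (τ : ℝ) (k : ℕ) (x : ℕ → J → ℝ)
    (t : ℕ → ℝ) : Prop where
  x0 : x 0 = v
  t0 : t 0 = τ
  tmono : ∀ j < k, t j < t (j + 1)
  pair : ∀ j < k, Mx a b (w + t (j + 1) • c) = {x j, x (j + 1)}
  ne : ∀ j < k, x j ≠ x (j + 1)
  incr : ∀ j < k, c ⬝ᵥ x j < c ⬝ᵥ x (j + 1)
  uniq : ∀ j < k, ∀ s, t j < s → s < t (j + 1) → Mx a b (w + s • c) = {x j}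
  last : ∀ s, t k < s → Mx a b (w + s • c) = {x k}
  opt : ∀ x' ∈ Vtx a b, c ⬝ᵥ x' ≤ c ⬝ᵥ x k

theorem build (c w : J → ℝ) (hg : Gen a b c w) (n : ℕ) :
    ∀ (x0 : J → ℝ) (t0 : ℝ), (∀ᶠ s in 𝓝[>] t0, Mx a b (w + s • c) = {x0}) →
      {x' | x' ∈ Vtx a b ∧ c ⬝ᵥ x0 < c ⬝ᵥ x'}.ncard ≤ n → ∃ k x t, SP a b c w x0 t0 k x t := by
  classical
  have hV := vtx_finite a b
  induction n with
  | zero =>
    intro x0 t0 h0 hcard
    have hfin : {x' | x' ∈ Vtx a b ∧ c ⬝ᵥ x0 < c ⬝ᵥ x'}.Finite := hV.subset fun x' hx' => hx'.1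
    have hemp : {x' | x' ∈ Vtx a b ∧ c ⬝ᵥ x0 < c ⬝ᵥ x'} = ∅ :=
      (Set.ncard_eq_zero hfin).1 (Nat.le_zero.1 hcard)
    have hopt : ∀ x' ∈ Vtx a b, c ⬝ᵥ x' ≤ c ⬝ᵥ x0 := by
      intro x' hx'
      by_contra h
      have : x' ∈ {x' | x' ∈ Vtx a b ∧ c ⬝ᵥ x0 < c ⬝ᵥ x'} := ⟨hx', not_le.1 h⟩
      rw [hemp] at this
      exact this
    obtain ⟨ε, hε, hε'⟩ : ∃ ε > t0, ∀ s, t0 < s → s < ε → Mx a b (w + s • c) = {x0} := by
      rw [eventually_nhdsWithin_iff] at h0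
      obtain ⟨l, u, hlu, hu⟩ := (mem_nhds_iff_exists_Ioo_subset.1 h0)
      exact ⟨u, hlu.2, fun s h1 h2 => hu ⟨hlu.1.trans h1, h2⟩ h1⟩
    have hx0 : x0 ∈ Vtx a b :=
      mx_singleton_mem (hε' ((t0 + ε) / 2) (by linarith) (by linarith))
    refine ⟨0, fun _ => x0, fun _ => t0, ⟨rfl, rfl, by simp, by simp, by simp, by simp, by simp,
      ?_, hopt⟩⟩
    intro s hs
    refine mx_singleton hx0 fun x' hx' hne => ?_
    set s' := (t0 + min s ε) / 2 with hs'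
    have hm : t0 < min s ε := lt_min hs hε
    have h1 : t0 < s' := by rw [hs']; linarith
    have h2 : s' < ε := by
      have := min_le_right s ε
      rw [hs']; linarith
    have h3 : s' ≤ s := by
      have := min_le_left s ε
      rw [hs']; linarith
    exact stay h3 (hopt x' hx') (mx_singleton_lt (hε' s' h1 h2) x' hx' hne)
  | succ n ih =>
    intro x0 t0 h0 hcard
    have hfin : {x' | x' ∈ Vtx a b ∧ c ⬝ᵥ x0 < c ⬝ᵥ x'}.Finite := hV.subset fun x' hx' => hx'.1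
    by_cases hex : ∃ x' ∈ Vtx a b, c ⬝ᵥ x0 < c ⬝ᵥ x'
    · obtain ⟨t1, x1, ht01, hx1, hc01, hpair, hbetween, h1⟩ := step hg h0 hex
      have hlt : {x' | x' ∈ Vtx a b ∧ c ⬝ᵥ x1 < c ⬝ᵥ x'}.ncard <
          {x' | x' ∈ Vtx a b ∧ c ⬝ᵥ x0 < c ⬝ᵥ x'}.ncard := by
        refine Set.ncard_lt_ncard ?_ hfin
        refine Set.ssubset_iff_subset_ne.2 ⟨fun x' hx' => ⟨hx'.1, hc01.trans hx'.2⟩, fun h => ?_⟩
        have : x1 ∈ {x' | x' ∈ Vtx a b ∧ c ⬝ᵥ x1 < c ⬝ᵥ x'} := by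
          rw [h]
          exact ⟨hx1, hc01⟩
        exact lt_irrefl _ this.2
      obtain ⟨k, x, t, hsp⟩ := ih x1 t1 h1 (by omega)
      refine ⟨k + 1, fun n => Nat.casesOn n x0 x, fun n => Nat.casesOn n t0 t, ?_⟩
      refine ⟨rfl, rfl, ?_, ?_, ?_, ?_, ?_, ?_, ?_⟩
      · intro j hj
        rcases j with _ | j
        · change t0 < t 0
          rw [hsp.t0]
          exact ht01
        · exact hsp.tmono j (by omega)
      · intro j hj
        rcases j with _ | j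
        · change Mx a b (w + t 0 • c) = {x0, x 0}
          rw [hsp.t0, hsp.x0]
          exact hpair
        · exact hsp.pair j (by omega)
      · intro j hj
        rcases j with _ | j
        · change x0 ≠ x 0
          rw [hsp.x0]
          intro h
          rw [h] at hc01
          exact lt_irrefl _ hc01
        · exact hsp.ne j (by omega)
      · intro j hj
        rcases j with _ | j
        · change c ⬝ᵥ x0 < c ⬝ᵥ x 0
          rw [hsp.x0]
          exact hc01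
        · exact hsp.incr j (by omega)
      · intro j hj s hs1 hs2
        rcases j with _ | j
        · change Mx a b (w + s • c) = {x0}
          change s < t 0 at hs2
          rw [hsp.t0] at hs2
          exact hbetween s hs1 hs2
        · exact hsp.uniq j (by omega) s hs1 hs2
      · intro s hs
        exact hsp.last s hs
      · exact hsp.opt
    · refine ih x0 t0 h0 ?_
      have hemp : {x' | x' ∈ Vtx a b ∧ c ⬝ᵥ x0 < c ⬝ᵥ x'} = ∅ := by
        ext x'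
        simp only [Set.mem_ofPred_eq, Set.mem_empty_iff_false, iff_false]
        rintro ⟨h1, h2⟩
        exact hex ⟨x', h1, h2⟩
      rw [hemp, Set.ncard_empty]
      exact Nat.zero_le _

end PathAux

theorem exists_path (hB : Bornology.IsBounded (Pol a b)) {c w v : J → ℝ} (hg : Gen a b c w)
    (hv : Mx a b w = {v}) : ∃ k x t, ShPath a b c w v k x t := by
  obtain ⟨k, x, t, h⟩ := PathAux.build c w hg _ v 0 (PathAux.start hv) le_rfl
  exact ⟨k, x, t, ⟨h.x0, h.t0, h.tmono, h.pair, h.ne, h.incr, h.uniq, h.last, h.opt⟩⟩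

end Pool.Agent.H695R2.Simp
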