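import Pool.Agent.H695R2.Simp.LemE

/-!
# Pushing the objective keeps a facet in the set of maximisers
-/

namespace Pool.Agent.H695R2.Simp

open Matrix MeasureTheory

variable {ι J : Type} [Fintype ι] [Fintype J] {a : ι → J → ℝ} {b : ι → ℝ}

private lemma dot_cont (x : J → ℝ) (y d : J → ℝ) :
    Continuous fun r : ℝ => (y + r • d) ⬝ᵥ x := by
  have : (fun r : ℝ => (y + r • d) ⬝ᵥ x) = fun r => y ⬝ᵥ x + r * (d ⬝ᵥ x) := by
    funext r
    rw [add_dotProduct, smul_dotProduct, smul_eq_mul]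
  rw [this]
  fun_prop

private lemma at_closed (i : ι) (y d : J → ℝ) : IsClosed {r : ℝ | At a b i (y + r • d)} := by
  have : {r : ℝ | At a b i (y + r • d)} =
      ⋃ x ∈ {x | x ∈ Vtx a b ∧ a i ⬝ᵥ x = b i},
        ⋂ x' ∈ Vtx a b, {r : ℝ | (y + r • d) ⬝ᵥ x' ≤ (y + r • d) ⬝ᵥ x} := by
    ext r
    simp only [Set.mem_ofPred_eq, Set.mem_iUnion, Set.mem_iInter, At, Mx, exists_prop]
    constructor
    · rintro ⟨x, ⟨hx, h⟩, hi⟩
      exact ⟨x, ⟨hx, hi⟩, h⟩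
    · rintro ⟨x, ⟨hx, hi⟩, h⟩
      exact ⟨x, ⟨hx, h⟩, hi⟩
  rw [this]
  refine Set.Finite.isClosed_biUnion ((vtx_finite a b).subset fun x hx => hx.1) ?_
  intro x _
  refine isClosed_biInter fun x' _ => ?_
  exact isClosed_le (dot_cont _ _ _) (dot_cont _ _ _)

/-- the key lemma -/
theorem at_add (hB : Bornology.IsBounded (Pol a b)) {i : ι} {y c' : J → ℝ} {μ : ℝ}
    (hμ : ∀ z, Elem a z → a i ⬝ᵥ z ≠ 0 → |c' ⬝ᵥ z| ≤ μ * |a i ⬝ᵥ z|) (h : At a b i y)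
    {s : ℝ} (hs : 0 ≤ s) : At a b i (y + s • (c' + μ • a i)) := by
  by_contra hcon
  set d := c' + μ • a i with hd
  -- the greatest good parameter
  set T : Set ℝ := Set.Icc 0 s ∩ {r : ℝ | At a b i (y + r • d)} with hT
  have hTc : IsCompact T := isCompact_Icc.inter_right (at_closed i y d)
  have h0 : (0 : ℝ) ∈ T := ⟨⟨le_refl _, hs⟩, by simpa using h⟩
  obtain ⟨s0, hs0, hmax⟩ := hTc.exists_isGreatest ⟨0, h0⟩
  have hs0s : s0 < s := by
    rcases lt_or_eq_of_le hs0.1.2 with h1 | h1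
    · exact h1
    · exfalso; apply hcon; rw [← h1]; exact hs0.2
  have hnot : ∀ r, s0 < r → r ≤ s → ¬ At a b i (y + r • d) := by
    intro r h1 h2 h3
    have := hmax (show r ∈ T from ⟨⟨hs0.1.1.trans h1.le, h2⟩, h3⟩)
    linarith
  set ys := y + s0 • d with hys
  -- choose x1
  have hfin : ({x | x ∈ Mx a b ys ∧ a i ⬝ᵥ x = b i}).Finite :=
    (vtx_finite a b).subset fun x hx => hx.1.1
  have hne : ({x | x ∈ Mx a b ys ∧ a i ⬝ᵥ x = b i}).Nonempty := by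
    obtain ⟨x, hx, hi⟩ := hs0.2
    exact ⟨x, hx, hi⟩
  obtain ⟨x1, hx1, hx1max⟩ := Set.exists_max_image _ (fun x => d ⬝ᵥ x) hfin hne
  have hx1V : x1 ∈ Vtx a b := hx1.1.1
  have hx1i : a i ⬝ᵥ x1 = b i := hx1.2
  -- some vertex beats x1
  have hex : ∃ x2 ∈ Vtx a b, ys ⬝ᵥ (x2 - x1) = 0 ∧ 0 < d ⬝ᵥ (x2 - x1) := by
    by_contra hno
    push Not at hno
    have hev : ∀ x2 ∈ Vtx a b, ∀ᶠ r in nhdsWithin s0 (Set.Ioi s0),
        (y + r • d) ⬝ᵥ x2 ≤ (y + r • d) ⬝ᵥ x1 := by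
      intro x2 hx2
      have hle : ys ⬝ᵥ x2 ≤ ys ⬝ᵥ x1 := hx1.1.2 x2 hx2
      rcases lt_or_eq_of_le hle with hlt | heq
      · have : ∀ᶠ r in nhds s0, (y + r • d) ⬝ᵥ x2 < (y + r • d) ⬝ᵥ x1 :=
          (isOpen_lt (dot_cont x2 y d) (dot_cont x1 y d)).mem_nhds hlt
        exact (this.filter_mono nhdsWithin_le_nhds).mono fun r hr => hr.le
      · have h1 : ys ⬝ᵥ (x2 - x1) = 0 := by rw [dotProduct_sub, heq, sub_self]
        have h2 := hno x2 hx2 h1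
        filter_upwards [self_mem_nhdsWithin] with r hr
        have h3 : (y + r • d) ⬝ᵥ (x2 - x1) = ys ⬝ᵥ (x2 - x1) + (r - s0) * (d ⬝ᵥ (x2 - x1)) := by
          rw [hys, add_dotProduct, add_dotProduct, smul_dotProduct, smul_dotProduct]
          simp only [smul_eq_mul]; ring
        have h4 : (y + r • d) ⬝ᵥ (x2 - x1) ≤ 0 := by
          rw [h3, h1, zero_add]
          exact mul_nonpos_of_nonneg_of_nonpos (by linarith [Set.mem_Ioi.mp hr]) h2
        rw [dotProduct_sub] at h4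
        linarith
    have hall : ∀ᶠ r in nhdsWithin s0 (Set.Ioi s0), ∀ x2 ∈ Vtx a b,
        (y + r • d) ⬝ᵥ x2 ≤ (y + r • d) ⬝ᵥ x1 :=
      (Filter.eventually_all_finite (vtx_finite a b)).2 hev
    have hlt : ∀ᶠ r in nhdsWithin s0 (Set.Ioi s0), r < s :=
      (eventually_lt_nhds hs0s).filter_mono nhdsWithin_le_nhds
    obtain ⟨r, ⟨hr1, hr2⟩, hr3⟩ := ((hall.and hlt).and self_mem_nhdsWithin).exists
    exact hnot r hr3 hr2.le ⟨x1, ⟨hx1V, hr1⟩, hx1i⟩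
  obtain ⟨x2, hx2, hy0, hδ⟩ := hex
  have hmx : ∀ p ∈ Pol a b, ys ⬝ᵥ p ≤ ys ⬝ᵥ x1 := fun p hp => mx_max hB hx1.1 hp
  obtain ⟨z, hzE, hzt, hzy, hzd⟩ := elem_exists (δ := d) hx1V hmx (z₀ := x2 - x1)
    (fun l hl => by
      rw [dotProduct_sub, hl]
      linarith [(vtx_sub hx2) l]) hy0 hδ
  clear_value ys
  rcases lt_or_eq_of_le (hzt i hx1i) with hlt | heq
  · have h1 := hμ z hzE hlt.ne
    rw [abs_of_neg hlt] at h1
    have h2 : d ⬝ᵥ z = c' ⬝ᵥ z + μ * (a i ⬝ᵥ z) := by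
      rw [hd, add_dotProduct, smul_dotProduct, smul_eq_mul]
    have h3 := le_abs_self (c' ⬝ᵥ z)
    nlinarith
  · obtain ⟨ε, hε, hmv⟩ := move (vtx_sub hx1V) hzt
    have hp := hmv ε hε.le le_rfl
    set p := x1 + ε • z with hpdef
    have hyp : ys ⬝ᵥ p = ys ⬝ᵥ x1 := by
      rw [hpdef, dotProduct_add, dotProduct_smul, hzy, smul_zero, add_zero]
    have hip : a i ⬝ᵥ p = b i := by
      rw [hpdef, dotProduct_add, dotProduct_smul, heq, smul_zero, add_zero, hx1i]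
    have hdp : d ⬝ᵥ x1 < d ⬝ᵥ p := by
      rw [hpdef, dotProduct_add, dotProduct_smul, smul_eq_mul]
      have := mul_pos hε hzd
      linarith
    obtain ⟨x, hx, hxe, hxd⟩ := exists_vtx hB (y := ys + a i) d hp (by
      intro x hx
      rw [add_dotProduct, add_dotProduct, hyp, hip]
      exact add_le_add (hx1.1.2 x hx) ((vtx_sub hx) i))
    rw [add_dotProduct, add_dotProduct, hyp, hip] at hxe
    have h1 := hx1.1.2 x hx.1
    have h2 := (vtx_sub hx.1) i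
    have h3 : ys ⬝ᵥ x = ys ⬝ᵥ x1 := by linarith
    have h4 : a i ⬝ᵥ x = b i := by linarith
    have h5 := hx1max x ⟨⟨hx.1, fun x' hx' => by rw [h3]; exact hx1.1.2 x' hx'⟩, h4⟩
    linarith

/-- scaling the objective -/
theorem at_smul {i : ι} {y : J → ℝ} {s : ℝ} (hs : 0 < s) : At a b i (s • y) ↔ At a b i y := by
  have : Mx a b (s • y) = Mx a b y := by
    ext x
    simp only [Mx, Set.mem_ofPred_eq, smul_dotProduct, smul_eq_mul]
    refine and_congr_right fun _ => forall₂_congr fun x' _ => ?_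
    exact mul_le_mul_iff_right₀ hs
  rw [At, At, this]

/-- late maximisers are optimal -/
theorem late (hB : Bornology.IsBounded (Pol a b)) {c : J → ℝ} {u : J → ι} {lam : J → ℝ}
    (hlam : ∀ j, 0 ≤ lam j ∧ lam j ≤ 1) {R t : ℝ}
    (hR : ∀ z, Elem a z → c ⬝ᵥ z ≠ 0 → ∀ k, |a k ⬝ᵥ z| ≤ R * |c ⬝ᵥ z|)
    (ht : Fintype.card J * R < t) {x : J → ℝ} (hx : x ∈ Mx a b (wt a u lam + t • c)) :
    ∀ x' ∈ Vtx a b, c ⬝ᵥ x' ≤ c ⬝ᵥ x := by
  intro x' hx'
  by_contra hlt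
  push Not at hlt
  obtain ⟨z, hzE, hzt, -, hzc⟩ := elem_exists (y := 0) (δ := c) (z₀ := x' - x) hx.1
    (fun p _ => by simp)
    (fun l hl => by
      rw [dotProduct_sub, hl]
      linarith [(vtx_sub hx') l]) (by simp) (by rw [dotProduct_sub]; linarith)
  obtain ⟨ε, hε, hmv⟩ := move (vtx_sub hx.1) hzt
  have hp := mx_max hB hx (hmv ε hε.le le_rfl)
  rw [dotProduct_add, dotProduct_smul, smul_eq_mul] at hp
  have h1 : (wt a u lam + t • c) ⬝ᵥ z ≤ 0 := by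
    by_contra hc
    push Not at hc
    have := mul_pos hε hc
    linarith
  rw [add_dotProduct, smul_dotProduct, smul_eq_mul] at h1
  have h2 : -(wt a u lam ⬝ᵥ z) ≤ Fintype.card J * (R * (c ⬝ᵥ z)) := by
    rw [wt, sum_dotProduct, ← Finset.sum_neg_distrib]
    calc ∑ j, -((lam j • a (u j)) ⬝ᵥ z) ≤ ∑ _j : J, R * (c ⬝ᵥ z) := by
          refine Finset.sum_le_sum fun j _ => ?_
          rw [smul_dotProduct, smul_eq_mul]
          have h3 := hR z hzE hzc.ne' (u j)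
          rw [abs_of_pos hzc] at h3
          have h4 := neg_abs_le (a (u j) ⬝ᵥ z)
          have h5 := abs_nonneg (a (u j) ⬝ᵥ z)
          have h6 := hlam j
          nlinarith
      _ = Fintype.card J * (R * (c ⬝ᵥ z)) := by
          rw [Finset.sum_const, nsmul_eq_mul, Finset.card_univ]
  have h3 : (Fintype.card J * R - t) * (c ⬝ᵥ z) ≥ 0 := by nlinarith
  nlinarith

end Pool.Agent.H695R2.Simp
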