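import Pool.Agent.H695R2.Simp.Thin
import Pool.Agent.H695R2.Simp.Gener
import Pool.Agent.H695R2.Simp.Path
import Pool.Agent.H695R2.Simp.Count

/-!
# Most shadow paths are short
-/

namespace Pool.Agent.H695R2.Simp

open Matrix MeasureTheory

variable {ι J : Type} [Fintype ι] [Fintype J] {a : ι → J → ℝ} {b : ι → ℝ}

/-- hypotheses of the main estimate -/
structure Hyp (a : ι → J → ℝ) (b : ι → ℝ) (c : J → ℝ) (u : J → ι) (v : J → ℝ)
    (κ Γ R : ℝ) : Prop where
  bdd : Bornology.IsBounded (Pol a b)
  mem : v ∈ Pol a b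
  indep : LinearIndependent ℝ (fun j => a (u j))
  tight : ∀ j, a (u j) ⬝ᵥ v = b (u j)
  κpos : 0 < κ
  Γpos : 0 < Γ
  Rpos : 0 < R
  h1 : ∀ z, Elem a z → ∀ i, a i ⬝ᵥ z ≠ 0 → ∀ k, |a k ⬝ᵥ z| ≤ κ * |a i ⬝ᵥ z|
  h2 : ∀ z, Elem a z → ∀ i, a i ⬝ᵥ z ≠ 0 → |c ⬝ᵥ z| ≤ Γ * |a i ⬝ᵥ z|
  h3 : ∀ z, Elem a z → c ⬝ᵥ z ≠ 0 → ∀ k, |a k ⬝ᵥ z| ≤ R * |c ⬝ᵥ z|
  hβ : ∀ i, ∃ β : J → ℝ, a i = wt a u β ∧ ∀ j, |β j| ≤ κ
  hle : κ ≤ Γ * R

/-- the bound -/
noncomputable def bnd (ι J : Type) [Fintype ι] [Fintype J] (κ Γ R : ℝ) : ℝ :=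
  Real.exp 1 * Fintype.card ι * (Fintype.card J * κ) ^ 2 * (2 + Real.log (Γ * R / κ))

/-- the parameters in the cube whose shadow path from `v` is short -/
def Good (a : ι → J → ℝ) (b : ι → ℝ) (c : J → ℝ) (u : J → ι) (v : J → ℝ) (K : ℕ) :
    Set (J → ℝ) :=
  {lam | lam ∈ Set.Icc (0 : J → ℝ) 1 ∧ ∃ k ≤ K, ∃ x t, ShPath a b c (wt a u lam) v k x t}

namespace SumAux

open Filter Topology

/-- the grid of times -/
noncomputable def grid (T0 L : ℝ) (n l : ℕ) : ℝ :=
  if l ≤ n then (l / n : ℝ) * T0 else T0 * Real.exp ((l - n : ℝ) * (L / n))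

theorem grid_le (T0 L : ℝ) {n l : ℕ} (h : l ≤ n) : grid T0 L n l = (l / n : ℝ) * T0 := if_pos h

theorem grid_ge (T0 L : ℝ) {n l : ℕ} (hn : 0 < n) (h : n ≤ l) :
    grid T0 L n l = T0 * Real.exp ((l - n : ℝ) * (L / n)) := by
  rcases h.eq_or_lt with rfl | h
  · rw [grid, if_pos le_rfl]
    have : (n : ℝ) ≠ 0 := by positivity
    simp [this]
  · rw [grid, if_neg (not_le.2 h)]

theorem grid_zero (T0 L : ℝ) (n : ℕ) : grid T0 L n 0 = 0 := by
  rw [grid_le _ _ (Nat.zero_le n)]; simp

theorem step_lin (T0 L : ℝ) {n l : ℕ} (h : l < n) :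
    grid T0 L n (l + 1) - grid T0 L n l = T0 / n := by
  rw [grid_le _ _ (Nat.succ_le_of_lt h), grid_le _ _ h.le]
  push_cast
  ring

theorem step_geo (T0 L : ℝ) {n l : ℕ} (hn : 0 < n) (h : n ≤ l) :
    grid T0 L n (l + 1) = grid T0 L n l * Real.exp (L / n) := by
  rw [grid_ge _ _ hn (h.trans (Nat.le_succ l)), grid_ge _ _ hn h, mul_assoc, ← Real.exp_add]
  push_cast
  congr 2
  ring

theorem grid_pos {T0 L : ℝ} (hT : 0 < T0) {n l : ℕ} (hn : 0 < n) (h : n ≤ l) :
    0 < grid T0 L n l := by
  rw [grid_ge _ _ hn h]; positivity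

theorem grid_lt {T0 L : ℝ} (hT : 0 < T0) (hL : 0 < L) {n : ℕ} (hn : 0 < n) (l : ℕ) :
    grid T0 L n l < grid T0 L n (l + 1) := by
  rcases lt_or_ge l n with h | h
  · have := step_lin T0 L h
    have h2 : 0 < T0 / n := by positivity
    linarith
  · rw [step_geo T0 L hn h]
    have h1 := grid_pos (L := L) hT hn h
    have h2 : 1 < Real.exp (L / n) := by
      rw [Real.one_lt_exp_iff]; positivity
    nlinarith

theorem grid_last (T0 L : ℝ) {n : ℕ} (hn : 0 < n) :
    grid T0 L n (n + n) = T0 * Real.exp L := by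
  rw [grid_ge _ _ hn (by omega)]
  have : (n : ℝ) ≠ 0 := by positivity
  push_cast
  congr 2
  field_simp
  ring

theorem grid_mono {T0 L : ℝ} (hT : 0 < T0) (hL : 0 < L) {n : ℕ} (hn : 0 < n) :
    StrictMono (grid T0 L n) := strictMono_nat_of_lt_succ (grid_lt hT hL hn)

/-- all cells are short -/
theorem mesh_le {T0 L : ℝ} (hT : 0 < T0) (hL : 0 < L) {n : ℕ} (hn : 0 < n) {l : ℕ}
    (hl : l < n + n) : grid T0 L n (l + 1) - grid T0 L n l ≤
      T0 / n + T0 * Real.exp L * (Real.exp (L / n) - 1) := by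
  have h2 : 1 < Real.exp (L / n) := by
    rw [Real.one_lt_exp_iff]; positivity
  have h3 : 0 < T0 * Real.exp L := by positivity
  have h4 : 0 < T0 / n := by positivity
  rcases lt_or_ge l n with h | h
  · rw [step_lin T0 L h]
    nlinarith [mul_pos h3 (sub_pos.2 h2)]
  · rw [step_geo T0 L hn h]
    have h1 := grid_pos (L := L) hT hn h
    have h5 : grid T0 L n l ≤ T0 * Real.exp L := by
      rw [← grid_last T0 L hn]
      exact (grid_mono hT hL hn).monotone hl.le
    nlinarith [mul_le_mul_of_nonneg_right h5 (sub_pos.2 h2).le]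

theorem tendsto_exp (L : ℝ) : Tendsto (fun n : ℕ => Real.exp (L / n) - 1) atTop (𝓝 0) := by
  have h1 : Tendsto (fun n : ℕ => L / (n : ℝ)) atTop (𝓝 0) := tendsto_const_div_atTop_nhds_zero_nat L
  have h2 := (Real.continuous_exp.tendsto 0).comp h1
  rw [Real.exp_zero] at h2
  simpa using h2.sub_const 1

theorem tendsto_mesh (T0 L : ℝ) :
    Tendsto (fun n : ℕ => T0 / n + T0 * Real.exp L * (Real.exp (L / n) - 1)) atTop (𝓝 0) := by
  have h1 : Tendsto (fun n : ℕ => T0 / (n : ℝ)) atTop (𝓝 0) :=
    tendsto_const_div_atTop_nhds_zero_nat T0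
  have h2 := (tendsto_exp L).const_mul (T0 * Real.exp L)
  simpa using h1.add h2

theorem tendsto_mul_exp (L : ℝ) :
    Tendsto (fun n : ℕ => (n : ℝ) * (Real.exp (L / n) - 1)) atTop (𝓝 L) := by
  have h0 : HasDerivAt (fun x : ℝ => Real.exp (L * x)) L 0 := by
    have h := ((hasDerivAt_id (0 : ℝ)).const_mul L).exp
    simpa using h
  have h1 := h0.tendsto_slope_zero
  have h2 : Tendsto (fun n : ℕ => ((n : ℝ))⁻¹) atTop (𝓝[≠] 0) := by
    rw [tendsto_nhdsWithin_iff]
    refine ⟨tendsto_inv_atTop_nhds_zero_nat, ?_⟩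
    filter_upwards [eventually_gt_atTop 0] with n hn
    have : (n : ℝ) ≠ 0 := by positivity
    simpa using this
  have h3 := h1.comp h2
  refine h3.congr' ?_
  filter_upwards [eventually_gt_atTop 0] with n hn
  simp [div_eq_mul_inv]

/-- the number of leaving events of the cells of the grid -/
noncomputable def cnt (a : ι → J → ℝ) (b : ι → ℝ) (c : J → ℝ) (u : J → ι) (g : ℕ → ℝ) (N : ℕ)
    (lam : J → ℝ) : ENNReal :=
  ∑ i : ι, ∑ l ∈ Finset.range N, (LeaveSet a b c u i (g l) (g (l + 1))).indicator 1 lam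

theorem meas_cnt (b : ι → ℝ) (c : J → ℝ) (u : J → ι) (g : ℕ → ℝ) (N : ℕ) :
    Measurable (cnt a b c u g N) := by
  unfold cnt
  refine Finset.measurable_sum _ fun i _ => Finset.measurable_sum _ fun l _ => ?_
  exact measurable_one.indicator (meas_leave b c u i _ _)

theorem lintegral_cnt (b : ι → ℝ) (c : J → ℝ) (u : J → ι) (g : ℕ → ℝ) (N : ℕ) :
    ∫⁻ lam, cnt a b c u g N lam =
      ∑ i : ι, ∑ l ∈ Finset.range N, volume (LeaveSet a b c u i (g l) (g (l + 1))) := by
  unfold cnt
  rw [lintegral_finsetSum]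
  · refine Finset.sum_congr rfl fun i _ => ?_
    rw [lintegral_finsetSum]
    · refine Finset.sum_congr rfl fun l _ => ?_
      rw [lintegral_indicator_one (meas_leave b c u i _ _)]
    · intro l _
      exact measurable_one.indicator (meas_leave b c u i _ _)
  · intro i _
    refine Finset.measurable_sum _ fun l _ => ?_
    exact measurable_one.indicator (meas_leave b c u i _ _)

open Classical in
theorem cnt_eq (b : ι → ℝ) (c : J → ℝ) (u : J → ι) (g : ℕ → ℝ) (N : ℕ) {lam : J → ℝ}
    (hlam : lam ∈ Set.Icc (0 : J → ℝ) 1) :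
    cnt a b c u g N lam = (((Finset.univ ×ˢ Finset.range N).filter
      (fun p : ι × ℕ => Leave a b c (wt a u lam) p.1 (g p.2) (g (p.2 + 1)))).card : ENNReal) := by
  rw [Finset.card_filter, Finset.sum_product]
  push_cast
  unfold cnt
  refine Finset.sum_congr rfl fun i _ => Finset.sum_congr rfl fun l _ => ?_
  by_cases h : Leave a b c (wt a u lam) i (g l) (g (l + 1))
  · rw [if_pos h, Set.indicator_of_mem]
    · rfl
    · exact ⟨hlam, h⟩
  · rw [if_neg h, Set.indicator_of_notMem]
    exact fun hh => h hh.2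

end SumAux

open Filter Topology SumAux in
theorem main_bound [Nonempty J] {c : J → ℝ} {u : J → ι} {v : J → ℝ} {κ Γ R : ℝ}
    (H : Hyp a b c u v κ Γ R) (K : ℕ) :
    volume (Set.Icc (0 : J → ℝ) 1 \ Good a b c u v K) ≤
      ENNReal.ofReal (bnd ι J κ Γ R / (K + 1)) := by
  classical
  have hκ := H.κpos
  have hΓ := H.Γpos
  have hR := H.Rpos
  have hdN : 0 < Fintype.card J := Fintype.card_pos
  have hd : (0 : ℝ) < Fintype.card J := by exact_mod_cast hdN
  set d : ℝ := (Fintype.card J : ℝ) with hd_def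
  set m : ℝ := (Fintype.card ι : ℝ) with hm_def
  have hm : 0 ≤ m := by positivity
  set S : ℝ := d * κ with hS_def
  have hS : 0 < S := by positivity
  set T0 : ℝ := S / Γ with hT0_def
  have hT0 : 0 < T0 := by positivity
  set L : ℝ := 1 + Real.log (Γ * R / κ) with hL_def
  have hlog : 0 ≤ Real.log (Γ * R / κ) := by
    apply Real.log_nonneg
    rw [le_div_iff₀ hκ]
    linarith [H.hle]
  have hL : 0 < L := by linarith
  have hlast : T0 * Real.exp L = Real.exp 1 * (d * R) := by
    rw [hL_def, Real.exp_add, Real.exp_log (by positivity), hT0_def, hS_def]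
    field_simp
  set F : ℕ → (J → ℝ) → ENNReal := fun n => cnt a b c u (grid T0 L n) (n + n) with hF_def
  -- the integrals
  have hint : ∀ n : ℕ, 0 < n → ∫⁻ lam, F n lam ≤
      ENNReal.ofReal (m * Real.exp 1 * S ^ 2 * (1 + n * (Real.exp (L / n) - 1))) := by
    intro n hn
    have hn' : (0 : ℝ) < n := by exact_mod_cast hn
    have hE : 0 ≤ Real.exp (L / n) - 1 := by
      have : 1 < Real.exp (L / n) := by
        rw [Real.one_lt_exp_iff]; positivity
      linarith
    rw [hF_def]
    simp only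
    rw [lintegral_cnt]
    have hcell : ∀ i : ι, ∑ l ∈ Finset.range (n + n),
        volume (LeaveSet a b c u i (grid T0 L n l) (grid T0 L n (l + 1))) ≤
        ENNReal.ofReal (Real.exp 1 * S ^ 2 * (1 + n * (Real.exp (L / n) - 1))) := by
      intro i
      have hβ : ∃ β : J → ℝ, a i = wt a u β ∧ ∑ j, |β j| ≤ S := by
        obtain ⟨β, h1, h2⟩ := H.hβ i
        refine ⟨β, h1, ?_⟩
        calc ∑ j, |β j| ≤ ∑ _j : J, κ := Finset.sum_le_sum fun j _ => h2 j
          _ = S := by simp [hS_def, hd_def]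
      rw [Finset.sum_range_add]
      have hA : ∑ l ∈ Finset.range n,
          volume (LeaveSet a b c u i (grid T0 L n l) (grid T0 L n (l + 1))) ≤
          ENNReal.ofReal (Real.exp 1 * S ^ 2) := by
        calc _ ≤ ∑ l ∈ Finset.range n, ENNReal.ofReal (Real.exp 1 * (Γ * (T0 / n)) * S) := by
              refine Finset.sum_le_sum fun l hl => ?_
              have hl' := Finset.mem_range.1 hl
              have h := vol_lin H.bdd hΓ (c := c) (u := u) (i := i)
                (fun z hz hi => H.h2 z hz i hi) hS hβ (grid_lt hT0 hL hn l)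
              rwa [step_lin T0 L hl'] at h
          _ = ENNReal.ofReal (∑ l ∈ Finset.range n, (Real.exp 1 * (Γ * (T0 / n)) * S)) := by
              rw [ENNReal.ofReal_sum_of_nonneg]
              intro _ _
              positivity
          _ = ENNReal.ofReal (Real.exp 1 * S ^ 2) := by
              congr 1
              rw [Finset.sum_const, Finset.card_range, nsmul_eq_mul, hT0_def]
              field_simp
      have hB : ∑ l ∈ Finset.range n,
          volume (LeaveSet a b c u i (grid T0 L n (n + l)) (grid T0 L n (n + l + 1))) ≤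
          ENNReal.ofReal (Real.exp 1 * S ^ 2 * (n * (Real.exp (L / n) - 1))) := by
        calc _ ≤ ∑ l ∈ Finset.range n,
              ENNReal.ofReal (Real.exp 1 * (d * κ * (Real.exp (L / n) - 1)) * S) := by
              refine Finset.sum_le_sum fun l _ => ?_
              have hpos := grid_pos (L := L) hT0 hn (Nat.le_add_right n l)
              have h := vol_geo H.bdd hκ (c := c) (u := u) (i := i)
                (fun z hz hi => H.h1 z hz i hi) hS hβ hpos (grid_lt hT0 hL hn (n + l))
              have hr : grid T0 L n (n + l + 1) / grid T0 L n (n + l) = Real.exp (L / n) := by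
                rw [step_geo T0 L hn (Nat.le_add_right n l), mul_div_cancel_left₀ _ hpos.ne']
              rw [hr] at h
              exact h
          _ = ENNReal.ofReal (∑ l ∈ Finset.range n,
                (Real.exp 1 * (d * κ * (Real.exp (L / n) - 1)) * S)) := by
              rw [ENNReal.ofReal_sum_of_nonneg]
              intro _ _
              positivity
          _ = _ := by
              congr 1
              rw [Finset.sum_const, Finset.card_range, nsmul_eq_mul, hS_def]
              ring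
      calc _ ≤ ENNReal.ofReal (Real.exp 1 * S ^ 2) +
            ENNReal.ofReal (Real.exp 1 * S ^ 2 * (n * (Real.exp (L / n) - 1))) := add_le_add hA hB
        _ = _ := by
            rw [← ENNReal.ofReal_add (by positivity) (by positivity)]
            congr 1
            ring
    calc _ ≤ ∑ _i : ι, ENNReal.ofReal (Real.exp 1 * S ^ 2 * (1 + n * (Real.exp (L / n) - 1))) :=
          Finset.sum_le_sum fun i _ => hcell i
      _ = ENNReal.ofReal (∑ _i : ι, Real.exp 1 * S ^ 2 * (1 + n * (Real.exp (L / n) - 1))) := by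
          rw [ENNReal.ofReal_sum_of_nonneg]
          intro _ _
          positivity
      _ = _ := by
          congr 1
          rw [Finset.sum_const, Finset.card_univ, nsmul_eq_mul]
          ring
  -- the limit
  have hlim : Tendsto (fun n : ℕ => ENNReal.ofReal
      (m * Real.exp 1 * S ^ 2 * (1 + n * (Real.exp (L / n) - 1)))) atTop
      (𝓝 (ENNReal.ofReal (bnd ι J κ Γ R))) := by
    have h := ((tendsto_mul_exp L).const_add 1).const_mul (m * Real.exp 1 * S ^ 2)
    have h2 : m * Real.exp 1 * S ^ 2 * (1 + L) = bnd ι J κ Γ R := by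
      unfold bnd
      rw [hL_def, hS_def, hd_def, hm_def]
      ring
    rw [h2] at h
    exact ENNReal.tendsto_ofReal h
  have hfatou : ∫⁻ lam, liminf (fun n => F n lam) atTop ≤ ENNReal.ofReal (bnd ι J κ Γ R) := by
    refine (lintegral_liminf_le fun n => meas_cnt b c u _ _).trans ?_
    rw [← hlim.liminf_eq]
    refine liminf_le_liminf ?_
    filter_upwards [eventually_gt_atTop 0] with n hn using hint n hn
  -- almost every bad parameter
  have hbad : ∀ᵐ lam : J → ℝ, lam ∈ Set.Icc (0 : J → ℝ) 1 \ Good a b c u v K →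
      lam ∈ {lam | ((K : ENNReal) + 1) ≤ liminf (fun n => F n lam) atTop} := by
    have hne : ∀ᵐ lam : J → ℝ, ∀ j, lam j ≠ 0 := by
      rw [ae_all_iff]
      intro j
      have : volume {lam : J → ℝ | lam j = 0} = 0 := by
        have h := Measure.addHaar_submodule (volume : Measure (J → ℝ))
          (LinearMap.ker (LinearMap.proj (R := ℝ) (φ := fun _ : J => ℝ) j)) (by
            intro htop
            have : (Pi.single j 1 : J → ℝ) ∈ LinearMap.ker
                (LinearMap.proj (R := ℝ) (φ := fun _ : J => ℝ) j) := by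
              rw [htop]; trivial
            simp at this)
        convert h using 2
        ext lam
        simp
      rw [ae_iff]
      simpa using this
    filter_upwards [gen_ae b c H.indep, hne] with lam hgen hne hmem
    obtain ⟨hcube, hnot⟩ := hmem
    have hpos : ∀ j, 0 < lam j := fun j => lt_of_le_of_ne (hcube.1 j) (Ne.symm (hne j))
    have hMx := start_unique H.indep H.mem H.tight hpos
    obtain ⟨k, x, t, hp⟩ := exists_path H.bdd hgen hMx
    have hk : K + 1 ≤ k := by
      by_contra hlt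
      exact hnot ⟨hcube, k, by omega, x, t, hp⟩
    have htk : t k < Real.exp 1 * (d * R) := by
      have hk0 : 0 < k := by omega
      have hkk : k - 1 + 1 = k := by omega
      have hpair := hp.pair (k - 1) (by omega)
      rw [hkk] at hpair
      have hincr := hp.incr (k - 1) (by omega)
      rw [hkk] at hincr
      have h1 : x (k - 1) ∈ Mx a b (wt a u lam + t k • c) := by rw [hpair]; simp
      have h2 : x k ∈ Mx a b (wt a u lam + t k • c) := by rw [hpair]; simp
      have h3 : t k ≤ d * R := by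
        by_contra hlt
        have := late H.bdd (fun j => ⟨hcube.1 j, hcube.2 j⟩) H.h3 (not_le.1 hlt) h1 (x k) h2.1
        linarith
      have h4 : 1 < Real.exp 1 := by rw [Real.one_lt_exp_iff]; norm_num
      have h5 : 0 < d * R := by positivity
      nlinarith
    -- the minimal time step
    obtain ⟨δ, hδ, hδt⟩ : ∃ δ > 0, ∀ j < k, δ ≤ t (j + 1) - t j := by
      have hne : (Finset.range k).Nonempty := ⟨0, Finset.mem_range.2 (by omega)⟩
      obtain ⟨j0, hj0, hmin⟩ := Finset.exists_min_image (Finset.range k)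
        (fun j => t (j + 1) - t j) hne
      exact ⟨t (j0 + 1) - t j0, sub_pos.2 (hp.tmono j0 (Finset.mem_range.1 hj0)),
        fun j hj => hmin j (Finset.mem_range.2 hj)⟩
    refine le_liminf_of_le (by isBoundedDefault) ?_
    filter_upwards [eventually_gt_atTop 0,
      (tendsto_mesh T0 L).eventually (gt_mem_nhds hδ)] with n hn hmesh
    have hcount := count hp (grid_zero T0 L n) (N := n + n)
      (fun l _ => grid_lt hT0 hL hn l)
      (fun l hl j hj => ((mesh_le hT0 hL hn hl).trans_lt hmesh).trans_le (hδt j hj))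
      (by rw [grid_last T0 L hn, hlast]; exact htk)
    have hKk : ((K : ENNReal) + 1) ≤ (k : ENNReal) := by exact_mod_cast hk
    refine hKk.trans ?_
    rw [hF_def]
    simp only
    rw [cnt_eq b c u _ _ hcube]
    exact_mod_cast hcount
  have hmeasF : Measurable fun lam => liminf (fun n => F n lam) atTop :=
    Measurable.liminf fun n => meas_cnt b c u _ _
  have hle : volume (Set.Icc (0 : J → ℝ) 1 \ Good a b c u v K) ≤
      volume {lam | ((K : ENNReal) + 1) ≤ liminf (fun n => F n lam) atTop} :=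
    measure_mono_ae hbad
  have hmarkov := mul_meas_ge_le_lintegral (μ := volume) hmeasF ((K : ENNReal) + 1)
  have hK1 : ((K : ENNReal) + 1) ≠ 0 := by simp
  have hK2 : ((K : ENNReal) + 1) ≠ ⊤ := by simp
  refine hle.trans ?_
  rw [ENNReal.ofReal_div_of_pos (by positivity)]
  rw [ENNReal.le_div_iff_mul_le]
  · rw [mul_comm]
    have : ENNReal.ofReal ((K : ℝ) + 1) = (K : ENNReal) + 1 := by
      rw [ENNReal.ofReal_add (by positivity) zero_le_one]
      simp
    rw [this]
    exact hmarkov.trans hfatou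
  · left
    simp
    positivity
  · left
    simp

end Pool.Agent.H695R2.Simp
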