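import Mathlib

/-!
# Sets that are thin in one direction have small volume
-/

namespace Pool.Agent.H695R2.Simp

open MeasureTheory

variable {J : Type} [Fintype J]

theorem vol_le {D : Set (J → ℝ)} (hD : MeasurableSet D) (hQ : D ⊆ Set.Icc 0 1) {β : J → ℝ}
    {η S : ℝ} (hη : 0 < η) (hS : 0 < S) (hβ : ∑ j, |β j| ≤ S)
    (h : ∀ x ∈ D, ∀ r, η ≤ r → x + r • β ∉ D) :
    volume D ≤ ENNReal.ofReal (Real.exp 1 * η * S) := by
  classical
  set n : ℕ := ⌊1 / (η * S)⌋₊ with hn
  have hηS : 0 < η * S := mul_pos hη hS
  have hn1 : (n : ℝ) * (η * S) ≤ 1 := by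
    have h1 := Nat.floor_le (show 0 ≤ 1 / (η * S) by positivity)
    rw [← hn] at h1
    calc (n : ℝ) * (η * S) ≤ 1 / (η * S) * (η * S) := by gcongr
      _ = 1 := by field_simp
  have hn2 : 1 ≤ ((n : ℝ) + 1) * (η * S) := by
    have h1 := (Nat.lt_floor_add_one (1 / (η * S))).le
    rw [← hn] at h1
    calc (1 : ℝ) = 1 / (η * S) * (η * S) := by field_simp
      _ ≤ ((n : ℝ) + 1) * (η * S) := by gcongr
  -- translates
  let T : ℕ → Set (J → ℝ) := fun j => (fun x => x + (-((j : ℝ) * η) • β)) ⁻¹' D
  have hTvol : ∀ j, volume (T j) = volume D := fun j =>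
    measure_preimage_add_right volume _ D
  have hTmeas : ∀ j, MeasurableSet (T j) := fun j =>
    (measurable_add_const (-((j : ℝ) * η) • β)) hD
  have key : ∀ i j : ℕ, i < j → ∀ x, x ∈ T i → x ∉ T j := by
    intro i j hij x hi hj
    have hq : x + (-((j : ℝ) * η) • β) ∈ D := hj
    have hp : x + (-((i : ℝ) * η) • β) ∈ D := hi
    have hr : η ≤ ((j : ℝ) - i) * η := by
      have : (1 : ℝ) ≤ (j : ℝ) - i := by
        have : ((i : ℝ) + 1) ≤ j := by exact_mod_cast hij
        linarith
      nlinarith
    apply h _ hq _ hr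
    have e : x + (-((j : ℝ) * η) • β) + (((j : ℝ) - i) * η) • β = x + (-((i : ℝ) * η) • β) := by
      ext l
      simp only [Pi.add_apply, Pi.smul_apply, smul_eq_mul]
      ring
    rw [e]
    exact hp
  have hdisj : Set.PairwiseDisjoint (↑(Finset.range (n + 1)) : Set ℕ) T := by
    intro i _ j _ hij
    rw [Function.onFun, Set.disjoint_left]
    intro x hi hj
    rcases lt_or_gt_of_ne hij with h1 | h1
    · exact key i j h1 x hi hj
    · exact key j i h1 x hj hi
  have hsum : volume (⋃ j ∈ Finset.range (n + 1), T j) = ((n : ENNReal) + 1) * volume D := by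
    rw [measure_biUnion_finset hdisj (fun j _ => hTmeas j)]
    simp [hTvol]
  -- the box
  set lo : J → ℝ := fun l => min 0 ((n : ℝ) * η * β l) with hlo
  set hi : J → ℝ := fun l => 1 + max 0 ((n : ℝ) * η * β l) with hhi
  have hsub : (⋃ j ∈ Finset.range (n + 1), T j) ⊆ Set.Icc lo hi := by
    intro x hx
    simp only [Set.mem_iUnion, Finset.mem_range] at hx
    obtain ⟨j, hj, hxj⟩ := hx
    have hp : x + (-((j : ℝ) * η) • β) ∈ D := hxj
    have hQp := hQ hp
    have hjn : (j : ℝ) ≤ n := by exact_mod_cast Nat.lt_succ_iff.1 hj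
    have hj0 : (0 : ℝ) ≤ j := Nat.cast_nonneg j
    rw [Set.mem_Icc, Pi.le_def, Pi.le_def] at hQp
    rw [Set.mem_Icc, Pi.le_def, Pi.le_def]
    have hb : ∀ l, min 0 ((n : ℝ) * η * β l) ≤ (j : ℝ) * η * β l ∧
        (j : ℝ) * η * β l ≤ max 0 ((n : ℝ) * η * β l) := by
      intro l
      rcases le_total 0 (β l) with h0 | h0
      · constructor
        · exact (min_le_left _ _).trans (by positivity)
        · refine le_trans ?_ (le_max_right _ _)
          gcongr
      · constructor
        · refine (min_le_right _ _).trans ?_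
          apply mul_le_mul_of_nonpos_right _ h0
          gcongr
        · refine le_trans ?_ (le_max_left _ _)
          apply mul_nonpos_of_nonneg_of_nonpos (by positivity) h0
    constructor
    · intro l
      have h1 := hQp.1 l
      have h2 := (hb l).1
      simp only [Pi.zero_apply, Pi.add_apply, Pi.smul_apply, smul_eq_mul] at h1
      simp only [hlo]
      linarith
    · intro l
      have h1 := hQp.2 l
      have h2 := (hb l).2
      simp only [Pi.one_apply, Pi.add_apply, Pi.smul_apply, smul_eq_mul] at h1
      simp only [hhi]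
      linarith
  have hbox : volume (Set.Icc lo hi) ≤ ENNReal.ofReal (Real.exp 1) := by
    rw [Real.volume_Icc_pi, ← ENNReal.ofReal_prod_of_nonneg]
    · apply ENNReal.ofReal_le_ofReal
      calc ∏ l, (hi l - lo l) ≤ ∏ l, Real.exp ((n : ℝ) * η * |β l|) := by
            apply Finset.prod_le_prod
            · intro l _
              simp only [hhi, hlo]
              have h1 : min 0 ((n : ℝ) * η * β l) ≤ 0 := min_le_left _ _
              have h2 : 0 ≤ max 0 ((n : ℝ) * η * β l) := le_max_left _ _
              linarith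
            · intro l _
              have e : hi l - lo l = 1 + (n : ℝ) * η * |β l| := by
                simp only [hhi, hlo]
                rcases le_total 0 (β l) with h0 | h0
                · have h1 : 0 ≤ (n : ℝ) * η * β l := by positivity
                  rw [min_eq_left h1, max_eq_right h1, abs_of_nonneg h0]
                  ring
                · have h1 : (n : ℝ) * η * β l ≤ 0 :=
                    mul_nonpos_of_nonneg_of_nonpos (by positivity) h0
                  rw [min_eq_right h1, max_eq_left h1, abs_of_nonpos h0]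
                  ring
              rw [e, add_comm]
              exact Real.add_one_le_exp _
        _ = Real.exp (∑ l, (n : ℝ) * η * |β l|) := (Real.exp_sum _ _).symm
        _ ≤ Real.exp 1 := by
            apply Real.exp_le_exp.2
            rw [← Finset.mul_sum]
            calc (n : ℝ) * η * ∑ l, |β l| ≤ (n : ℝ) * η * S := by gcongr
              _ = (n : ℝ) * (η * S) := by ring
              _ ≤ 1 := hn1
    · intro l _
      simp only [hhi, hlo]
      have h1 : min 0 ((n : ℝ) * η * β l) ≤ 0 := min_le_left _ _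
      have h2 : 0 ≤ max 0 ((n : ℝ) * η * β l) := le_max_left _ _
      linarith
  have hfin : ((n : ENNReal) + 1) * volume D ≤
      ((n : ENNReal) + 1) * ENNReal.ofReal (Real.exp 1 * η * S) := by
    rw [← hsum]
    refine (measure_mono hsub).trans (hbox.trans ?_)
    have e : ((n : ENNReal) + 1) = ENNReal.ofReal ((n : ℝ) + 1) := by
      rw [ENNReal.ofReal_add (Nat.cast_nonneg n) zero_le_one, ENNReal.ofReal_natCast,
        ENNReal.ofReal_one]
    rw [e, ← ENNReal.ofReal_mul (by positivity)]
    apply ENNReal.ofReal_le_ofReal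
    have h1 : ((n : ℝ) + 1) * (Real.exp 1 * η * S) = Real.exp 1 * (((n : ℝ) + 1) * (η * S)) := by
      ring
    rw [h1]
    have h2 : 0 < Real.exp 1 := Real.exp_pos 1
    nlinarith
  rwa [ENNReal.mul_le_mul_iff_right (by simp) (by simp)] at hfin

end Pool.Agent.H695R2.Simp
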