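import Pool.Agent.H695R2.Simp.Star
import Pool.Agent.H695R2.Simp.Vol

/-!
# The volume of the parameters for which a constraint is left in a short time interval
-/

namespace Pool.Agent.H695R2.Simp

open Matrix MeasureTheory

variable {ι J : Type} [Fintype ι] [Fintype J] {a : ι → J → ℝ} {b : ι → ℝ}

/-- the parameters in the cube for which the constraint `i` is left between `s` and `s'` -/
def LeaveSet (a : ι → J → ℝ) (b : ι → ℝ) (c : J → ℝ) (u : J → ι) (i : ι) (s s' : ℝ) :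
    Set (J → ℝ) := {lam | lam ∈ Set.Icc (0 : J → ℝ) 1 ∧ Leave a b c (wt a u lam) i s s'}

private theorem cont_wt (c : J → ℝ) (u : J → ι) (t : ℝ) (x : J → ℝ) :
    Continuous (fun lam : J → ℝ => (wt a u lam + t • c) ⬝ᵥ x) := by
  unfold wt dotProduct
  simp only [Pi.add_apply, Finset.sum_apply, Pi.smul_apply, smul_eq_mul]
  fun_prop

private theorem closed_at (b : ι → ℝ) (c : J → ℝ) (u : J → ι) (i : ι) (t : ℝ) :
    IsClosed {lam : J → ℝ | At a b i (wt a u lam + t • c)} := by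
  have : {lam : J → ℝ | At a b i (wt a u lam + t • c)} =
      ⋃ x ∈ {x | x ∈ Vtx a b ∧ a i ⬝ᵥ x = b i}, ⋂ x' ∈ Vtx a b,
        {lam : J → ℝ | (wt a u lam + t • c) ⬝ᵥ x' ≤ (wt a u lam + t • c) ⬝ᵥ x} := by
    ext lam
    simp only [Set.mem_iUnion, Set.mem_iInter, exists_prop]
    constructor
    · rintro ⟨x, hx, hi⟩
      exact ⟨x, ⟨hx.1, hi⟩, fun x' hx' => hx.2 x' hx'⟩
    · rintro ⟨x, ⟨hx, hi⟩, h⟩
      exact ⟨x, ⟨hx, fun x' hx' => h x' hx'⟩, hi⟩
  rw [this]
  apply Set.Finite.isClosed_biUnion ((vtx_finite a b).subset (fun x hx => hx.1))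
  intro x _
  apply isClosed_biInter
  intro x' _
  exact isClosed_le (cont_wt c u t x') (cont_wt c u t x)

theorem meas_leave (b : ι → ℝ) (c : J → ℝ) (u : J → ι) (i : ι) (s s' : ℝ) :
    MeasurableSet (LeaveSet a b c u i s s') := by
  have : LeaveSet a b c u i s s' = Set.Icc 0 1 ∩ ({lam | At a b i (wt a u lam + s • c)} ∩
      {lam | At a b i (wt a u lam + s' • c)}ᶜ) := by
    ext lam; rfl
  rw [this]
  exact measurableSet_Icc.inter ((closed_at b c u i s).measurableSet.inter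
    (closed_at b c u i s').measurableSet.compl)

private theorem wt_add (u : J → ι) (l l' : J → ℝ) : wt a u (l + l') = wt a u l + wt a u l' := by
  unfold wt
  rw [← Finset.sum_add_distrib]
  exact Finset.sum_congr rfl (fun j _ => by rw [Pi.add_apply, add_smul])

private theorem wt_smul (u : J → ι) (r : ℝ) (l : J → ℝ) : wt a u (r • l) = r • wt a u l := by
  unfold wt
  rw [Finset.smul_sum]
  exact Finset.sum_congr rfl (fun j _ => by rw [Pi.smul_apply, smul_eq_mul, mul_smul])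

/-- pushing further in the direction of the row keeps the row -/
private theorem push (hB : Bornology.IsBounded (Pol a b)) {i : ι} {y : J → ℝ} {η r : ℝ}
    (h : At a b i (y + η • a i)) (hr : η ≤ r) : At a b i (y + r • a i) := by
  have := at_add hB (c' := 0) (μ := 1) (fun z _ _ => by simp) h (sub_nonneg.mpr hr)
  have he : y + η • a i + (r - η) • (0 + (1 : ℝ) • a i) = y + r • a i := by
    rw [zero_add, one_smul, add_assoc, ← add_smul]
    congr 2
    ring
  rwa [he] at this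

/-- short cells near zero -/
theorem vol_lin (hB : Bornology.IsBounded (Pol a b)) {c : J → ℝ} {u : J → ι} {i : ι} {Γ S : ℝ}
    (hΓ : 0 < Γ) (h2 : ∀ z, Elem a z → a i ⬝ᵥ z ≠ 0 → |c ⬝ᵥ z| ≤ Γ * |a i ⬝ᵥ z|)
    (hS : 0 < S) (hβ : ∃ β : J → ℝ, a i = wt a u β ∧ ∑ j, |β j| ≤ S)
    {s s' : ℝ} (hs : s < s') :
    volume (LeaveSet a b c u i s s') ≤ ENNReal.ofReal (Real.exp 1 * (Γ * (s' - s)) * S) := by
  obtain ⟨β, hβ1, hβ2⟩ := hβ
  apply vol_le (meas_leave b c u i s s') (fun x hx => hx.1) (mul_pos hΓ (sub_pos.mpr hs)) hS hβ2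
  rintro lam ⟨-, hat, -⟩ r hr ⟨-, -, hnat⟩
  apply hnat
  have h1 := at_add hB h2 hat (sub_pos.mpr hs).le
  have he : wt a u lam + s • c + (s' - s) • (c + Γ • a i) =
      (wt a u lam + s' • c) + (Γ * (s' - s)) • a i := by
    ext j
    simp only [Pi.add_apply, Pi.smul_apply, smul_eq_mul]
    ring
  rw [he] at h1
  have h3 := push hB h1 hr
  have he2 : wt a u (lam + r • β) + s' • c = wt a u lam + s' • c + r • a i := by
    rw [wt_add, wt_smul, ← hβ1]
    abel
  rwa [he2]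

/-- geometric cells -/
theorem vol_geo (hB : Bornology.IsBounded (Pol a b)) {c : J → ℝ} {u : J → ι} {i : ι} {κ S : ℝ}
    (hκ : 0 < κ) (h1 : ∀ z, Elem a z → a i ⬝ᵥ z ≠ 0 → ∀ k, |a k ⬝ᵥ z| ≤ κ * |a i ⬝ᵥ z|)
    (hS : 0 < S) (hβ : ∃ β : J → ℝ, a i = wt a u β ∧ ∑ j, |β j| ≤ S) [Nonempty J]
    {s s' : ℝ} (h0 : 0 < s) (hs : s < s') :
    volume (LeaveSet a b c u i s s') ≤
      ENNReal.ofReal (Real.exp 1 * (Fintype.card J * κ * (s' / s - 1)) * S) := by
  obtain ⟨β, hβ1, hβ2⟩ := hβ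
  have hs' : 0 < s' := h0.trans hs
  have hq : 0 < s' / s - 1 := by
    rw [sub_pos, lt_div_iff₀ h0]; linarith
  have hcard : (0 : ℝ) < Fintype.card J := by exact_mod_cast Fintype.card_pos
  have hη : 0 < Fintype.card J * κ * (s' / s - 1) := mul_pos (mul_pos hcard hκ) hq
  apply vol_le (meas_leave b c u i s s') (fun x hx => hx.1) hη hS hβ2
  rintro lam ⟨hcube, hat, -⟩ r hr ⟨-, -, hnat⟩
  apply hnat
  have hμ : ∀ z, Elem a z → a i ⬝ᵥ z ≠ 0 →
      |(-(wt a u lam)) ⬝ᵥ z| ≤ (Fintype.card J * κ) * |a i ⬝ᵥ z| := by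
    intro z hz hne
    rw [neg_dotProduct, abs_neg]
    have hw : wt a u lam ⬝ᵥ z = ∑ j, lam j * (a (u j) ⬝ᵥ z) := by
      unfold wt
      rw [sum_dotProduct]
      exact Finset.sum_congr rfl (fun j _ => by rw [smul_dotProduct, smul_eq_mul])
    rw [hw]
    calc |∑ j, lam j * (a (u j) ⬝ᵥ z)| ≤ ∑ j, |lam j * (a (u j) ⬝ᵥ z)| :=
          Finset.abs_sum_le_sum_abs _ _
      _ ≤ ∑ _j : J, κ * |a i ⬝ᵥ z| := by
          apply Finset.sum_le_sum
          intro j _
          have hl0 : 0 ≤ lam j := hcube.1 j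
          have hl1 : lam j ≤ 1 := hcube.2 j
          rw [abs_mul, abs_of_nonneg hl0]
          have := h1 z hz hne (u j)
          calc lam j * |a (u j) ⬝ᵥ z| ≤ 1 * |a (u j) ⬝ᵥ z| :=
                mul_le_mul_of_nonneg_right hl1 (abs_nonneg _)
            _ = |a (u j) ⬝ᵥ z| := one_mul _
            _ ≤ _ := this
      _ = _ := by rw [Finset.sum_const, Finset.card_univ, nsmul_eq_mul, mul_assoc]
  have hpar : 0 ≤ 1 - s / s' := by
    rw [sub_nonneg, div_le_one hs']; exact hs.le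
  have h2 := at_add hB hμ hat hpar
  have he : wt a u lam + s • c + (1 - s / s') • (-(wt a u lam) + (Fintype.card J * κ) • a i) =
      (s / s') • ((wt a u lam + s' • c) + (Fintype.card J * κ * (s' / s - 1)) • a i) := by
    ext j
    simp only [Pi.add_apply, Pi.smul_apply, Pi.neg_apply, smul_eq_mul]
    field_simp
    ring
  rw [he, at_smul (div_pos h0 hs')] at h2
  have h3 := push hB h2 hr
  have he2 : wt a u (lam + r • β) + s' • c = wt a u lam + s' • c + r • a i := by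
    rw [wt_add, wt_smul, ← hβ1]
    abel
  rwa [he2]

end Pool.Agent.H695R2.Simp
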