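import Pool.Agent.H695R2.Simp.Defs

/-!
# Vertices of polyhedra: basic facts
-/

namespace Pool.Agent.H695R2.Simp

open Matrix MeasureTheory

variable {ι J : Type} [Fintype ι] [Fintype J] {a : ι → J → ℝ} {b : ι → ℝ}

theorem vtx_sub : Vtx a b ⊆ Pol a b := fun _ h => h.1

private theorem pol_convex : Convex ℝ (Pol a b) := by
  intro x hx y hy s t hs ht hst l
  rw [dotProduct_add, dotProduct_smul, dotProduct_smul, smul_eq_mul, smul_eq_mul]
  have h1 := mul_le_mul_of_nonneg_left (hx l) hs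
  have h2 := mul_le_mul_of_nonneg_left (hy l) ht
  calc s * a l ⬝ᵥ x + t * a l ⬝ᵥ y ≤ s * b l + t * b l := add_le_add h1 h2
    _ = b l := by rw [← add_mul, hst, one_mul]

private theorem cont_dot (y : J → ℝ) : Continuous (fun x : J → ℝ => y ⬝ᵥ x) := by
  unfold dotProduct
  fun_prop

private theorem pol_closed : IsClosed (Pol a b) := by
  have h : Pol a b = ⋂ l, {x | a l ⬝ᵥ x ≤ b l} := by
    ext x
    simp [Pol]
  rw [h]
  exact isClosed_iInter fun l => isClosed_le (cont_dot _) continuous_const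

private theorem pol_compact (hB : Bornology.IsBounded (Pol a b)) : IsCompact (Pol a b) :=
  Metric.isCompact_of_isClosed_isBounded pol_closed hB

theorem move {x z : J → ℝ} (hx : x ∈ Pol a b) (hz : ∀ l, a l ⬝ᵥ x = b l → a l ⬝ᵥ z ≤ 0) :
    ∃ ε > (0 : ℝ), ∀ r : ℝ, 0 ≤ r → r ≤ ε → x + r • z ∈ Pol a b := by
  have h1 : ∀ᶠ r in nhds (0 : ℝ), ∀ l, a l ⬝ᵥ x < b l → a l ⬝ᵥ x + r * (a l ⬝ᵥ z) < b l := by
    rw [Filter.eventually_all]
    intro l
    by_cases hl : a l ⬝ᵥ x < b l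
    · have hc : Filter.Tendsto (fun r : ℝ => a l ⬝ᵥ x + r * (a l ⬝ᵥ z)) (nhds 0)
          (nhds (a l ⬝ᵥ x + 0 * (a l ⬝ᵥ z))) := by
        apply Continuous.tendsto
        fun_prop
      rw [zero_mul, add_zero] at hc
      filter_upwards [hc.eventually (gt_mem_nhds hl)] with r hr _
      exact hr
    · exact Filter.Eventually.of_forall fun r h => absurd h hl
  obtain ⟨ε, hε, h2⟩ := Metric.eventually_nhds_iff.1 h1
  refine ⟨ε / 2, by linarith, fun r hr0 hr l => ?_⟩
  rw [dotProduct_add, dotProduct_smul, smul_eq_mul]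
  rcases (hx l).lt_or_eq with h3 | h3
  · refine (h2 ?_ l h3).le
    rw [Real.dist_eq, sub_zero, abs_of_nonneg hr0]
    linarith
  · have := hz l h3
    nlinarith

theorem vtx_iff {x : J → ℝ} (hx : x ∈ Pol a b) :
    x ∈ Vtx a b ↔ ∀ z : J → ℝ, (∀ l, a l ⬝ᵥ x = b l → a l ⬝ᵥ z = 0) → z = 0 := by
  unfold Vtx
  rw [mem_extremePoints]
  constructor
  · rintro ⟨-, h⟩ z hz
    obtain ⟨ε, hε, h1⟩ := move (z := z) hx (fun l hl => (hz l hl).le)
    obtain ⟨ε', hε', h2⟩ := move (z := -z) hx (fun l hl => by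
      rw [dotProduct_neg, hz l hl, neg_zero])
    set m := min ε ε' with hm
    have hm0 : 0 < m := lt_min hε hε'
    have h3 := (h (x + m • z) (h1 m hm0.le (min_le_left _ _)) (x + m • (-z))
      (h2 m hm0.le (min_le_right _ _)) ?_).1
    · have h4 : m • z = 0 := by simpa using h3
      exact (smul_eq_zero.1 h4).resolve_left hm0.ne'
    · refine ⟨1 / 2, 1 / 2, by norm_num, by norm_num, by norm_num, ?_⟩
      ext j
      simp
      ring
  · intro h
    refine ⟨hx, fun p hp q hq hpq => ?_⟩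
    obtain ⟨s, t, hs, ht, hst, hxe⟩ := hpq
    have key : ∀ l, a l ⬝ᵥ x = b l → a l ⬝ᵥ p = b l ∧ a l ⬝ᵥ q = b l := by
      intro l hl
      have e : s * a l ⬝ᵥ p + t * a l ⬝ᵥ q = b l := by
        rw [← hl, ← hxe, dotProduct_add, dotProduct_smul, dotProduct_smul, smul_eq_mul,
          smul_eq_mul]
      have h1 := hp l
      have h2 := hq l
      have hb : s * b l + t * b l = b l := by rw [← add_mul, hst, one_mul]
      constructor
      · refine le_antisymm h1 ?_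
        by_contra hc
        push Not at hc
        have := mul_lt_mul_of_pos_left hc hs
        have := mul_le_mul_of_nonneg_left h2 ht.le
        linarith
      · refine le_antisymm h2 ?_
        by_contra hc
        push Not at hc
        have := mul_lt_mul_of_pos_left hc ht
        have := mul_le_mul_of_nonneg_left h1 hs.le
        linarith
    constructor
    · refine sub_eq_zero.1 (h (p - x) fun l hl => ?_)
      rw [dotProduct_sub, (key l hl).1, hl, sub_self]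
    · refine sub_eq_zero.1 (h (q - x) fun l hl => ?_)
      rw [dotProduct_sub, (key l hl).2, hl, sub_self]

theorem vtx_finite (a : ι → J → ℝ) (b : ι → ℝ) : (Vtx a b).Finite := by
  refine Set.Finite.of_injOn (f := fun x : J → ℝ => {l | a l ⬝ᵥ x = b l}) (t := Set.univ)
    (fun _ _ => Set.mem_univ _) ?_ (Set.toFinite _)
  intro x hx x' hx' hxx
  have h1 : ∀ l, a l ⬝ᵥ x = b l → a l ⬝ᵥ x' = b l := by
    intro l hl
    have h0 : l ∈ {l | a l ⬝ᵥ x = b l} := hl
    have h1 : {l | a l ⬝ᵥ x = b l} = {l | a l ⬝ᵥ x' = b l} := hxx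
    rw [h1] at h0
    exact h0
  have h2 := (vtx_iff (vtx_sub hx)).1 hx (x - x') (fun l hl => by
    rw [dotProduct_sub, h1 l hl, hl, sub_self])
  exact sub_eq_zero.1 h2

theorem hull_vtx (hB : Bornology.IsBounded (Pol a b)) : convexHull ℝ (Vtx a b) = Pol a b := by
  have h1 := closure_convexHull_extremePoints (pol_compact hB) (pol_convex (a := a) (b := b))
  have h2 : IsClosed (convexHull ℝ (Vtx a b)) := (vtx_finite a b).isClosed_convexHull ℝ
  rw [← h2.closure_eq]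
  exact h1

private theorem dot_half (y : J → ℝ) (r : ℝ) : Convex ℝ {q : J → ℝ | y ⬝ᵥ q ≤ r} := by
  intro p hp q hq s t hs ht hst
  show y ⬝ᵥ (s • p + t • q) ≤ r
  rw [dotProduct_add, dotProduct_smul, dotProduct_smul, smul_eq_mul, smul_eq_mul]
  have h1 := mul_le_mul_of_nonneg_left (show y ⬝ᵥ p ≤ r from hp) hs
  have h2 := mul_le_mul_of_nonneg_left (show y ⬝ᵥ q ≤ r from hq) ht
  calc s * y ⬝ᵥ p + t * y ⬝ᵥ q ≤ s * r + t * r := add_le_add h1 h2
    _ = r := by rw [← add_mul, hst, one_mul]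

theorem mx_max (hB : Bornology.IsBounded (Pol a b)) {y x : J → ℝ} (hx : x ∈ Mx a b y)
    {p : J → ℝ} (hp : p ∈ Pol a b) : y ⬝ᵥ p ≤ y ⬝ᵥ x := by
  rw [← hull_vtx hB] at hp
  exact convexHull_min (fun v hv => hx.2 v hv) (dot_half y (y ⬝ᵥ x)) hp

/-- a maximising point is in the hull of the maximising vertices -/
theorem face_hull (hB : Bornology.IsBounded (Pol a b)) {y p : J → ℝ}
    (hp : p ∈ Pol a b) (hy : ∀ x ∈ Vtx a b, y ⬝ᵥ x ≤ y ⬝ᵥ p) : p ∈ convexHull ℝ (Mx a b y) := by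
  classical
  have hp' := hp
  rw [← hull_vtx hB, (vtx_finite a b).convexHull_eq] at hp'
  obtain ⟨w, hw0, hw1, hw2⟩ := hp'
  set V := (vtx_finite a b).toFinset with hV
  have hmem : ∀ x ∈ V, x ∈ Vtx a b := fun x hx => by simpa [hV] using hx
  rw [Finset.centerMass_eq_of_sum_1 _ _ hw1] at hw2
  simp only [id] at hw2
  have e1 : ∑ x ∈ V, w x * (y ⬝ᵥ p - y ⬝ᵥ x) = 0 := by
    have h1 : y ⬝ᵥ p = ∑ x ∈ V, w x * (y ⬝ᵥ x) := by
      conv_lhs => rw [← hw2]
      rw [dotProduct_sum]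
      refine Finset.sum_congr rfl fun x _ => ?_
      rw [dotProduct_smul, smul_eq_mul]
    simp_rw [mul_sub]
    rw [Finset.sum_sub_distrib, ← Finset.sum_mul, hw1, ← h1, one_mul, sub_self]
  rw [Finset.sum_eq_zero_iff_of_nonneg (fun x hx => mul_nonneg (hw0 x (hmem x hx))
    (sub_nonneg.2 (hy x (hmem x hx))))] at e1
  have h2 : ∀ x ∈ V, w x ≠ 0 → x ∈ Mx a b y := by
    intro x hx hwx
    have h3 := (mul_eq_zero.1 (e1 x hx)).resolve_left hwx
    refine ⟨hmem x hx, fun x' hx' => ?_⟩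
    have := hy x' hx'
    linarith
  have h4 : p = (V.filter (fun x => w x ≠ 0)).centerMass w id := by
    rw [Finset.centerMass_filter_ne_zero, Finset.centerMass_eq_of_sum_1 _ _ hw1]
    exact hw2.symm
  rw [h4]
  refine Finset.centerMass_mem_convexHull _ ?_ ?_ ?_
  · intro x hx
    exact hw0 x (hmem x (Finset.mem_filter.1 hx).1)
  · rw [Finset.sum_filter_ne_zero, hw1]
    norm_num
  · intro x hx
    exact h2 x (Finset.mem_filter.1 hx).1 (Finset.mem_filter.1 hx).2

theorem exists_vtx (hB : Bornology.IsBounded (Pol a b)) {y p : J → ℝ} (δ : J → ℝ)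
    (hp : p ∈ Pol a b) (hy : ∀ x ∈ Vtx a b, y ⬝ᵥ x ≤ y ⬝ᵥ p) :
    ∃ x ∈ Mx a b y, y ⬝ᵥ x = y ⬝ᵥ p ∧ δ ⬝ᵥ p ≤ δ ⬝ᵥ x := by
  have h1 := face_hull hB hp hy
  by_contra hcon
  push Not at hcon
  have h3 : ∀ x ∈ Mx a b y, y ⬝ᵥ x = y ⬝ᵥ p := by
    intro x hx
    exact le_antisymm (hy x hx.1) (mx_max hB hx hp)
  have h4 : Convex ℝ {q : J → ℝ | δ ⬝ᵥ q < δ ⬝ᵥ p} := by
    intro q hq q' hq' s t hs ht hst
    show δ ⬝ᵥ (s • q + t • q') < δ ⬝ᵥ p
    have hq1 : δ ⬝ᵥ q < δ ⬝ᵥ p := hq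
    have hq2 : δ ⬝ᵥ q' < δ ⬝ᵥ p := hq'
    rw [dotProduct_add, dotProduct_smul, dotProduct_smul, smul_eq_mul, smul_eq_mul]
    have e : δ ⬝ᵥ p = s * δ ⬝ᵥ p + t * δ ⬝ᵥ p := by rw [← add_mul, hst, one_mul]
    rw [e]
    rcases hs.eq_or_lt with hs0 | hs0
    · have ht1 : 0 < t := by linarith
      rw [← hs0]
      simp only [zero_mul, zero_add]
      exact mul_lt_mul_of_pos_left hq2 ht1
    · exact add_lt_add_of_lt_of_le (mul_lt_mul_of_pos_left hq1 hs0)
        (mul_le_mul_of_nonneg_left hq2.le ht)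
  have h5 := convexHull_min (fun x hx => hcon x hx (h3 x hx)) h4 h1
  exact lt_irrefl _ (show δ ⬝ᵥ p < δ ⬝ᵥ p from h5)

theorem mx_nonempty (hB : Bornology.IsBounded (Pol a b)) (hne : (Pol a b).Nonempty) (y : J → ℝ) :
    (Mx a b y).Nonempty := by
  have h1 : (Vtx a b).Nonempty := (pol_compact hB).extremePoints_nonempty hne
  obtain ⟨x, hx, hmax⟩ := Set.exists_max_image (Vtx a b) (fun x => y ⬝ᵥ x) (vtx_finite a b) h1
  exact ⟨x, hx, hmax⟩

/-- if `x, x'` are the only maximising vertices then the segment is an exposed face -/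
theorem edge_exposed (hB : Bornology.IsBounded (Pol a b)) {y x x' : J → ℝ}
    (h : Mx a b y = {x, x'}) : IsExposed ℝ (Pol a b) (segment ℝ x x') := by
  intro _
  have hx : x ∈ Mx a b y := by rw [h]; simp
  have hx' : x' ∈ Mx a b y := by rw [h]; simp
  have hxx : y ⬝ᵥ x = y ⬝ᵥ x' := le_antisymm (hx'.2 x hx.1) (hx.2 x' hx'.1)
  set L : StrongDual ℝ (J → ℝ) := ∑ j, y j • ContinuousLinearMap.proj j with hL
  have hLv : ∀ q : J → ℝ, L q = y ⬝ᵥ q := by
    intro q
    rw [hL]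
    simp [dotProduct]
  refine ⟨L, ?_⟩
  ext p
  simp only [Set.mem_ofPred_eq, hLv]
  constructor
  · intro hp
    refine ⟨pol_convex.segment_subset (vtx_sub hx.1) (vtx_sub hx'.1) hp, fun q hq => ?_⟩
    obtain ⟨s, t, hs, ht, hst, rfl⟩ := hp
    rw [dotProduct_add, dotProduct_smul, dotProduct_smul, smul_eq_mul, smul_eq_mul, ← hxx,
      ← add_mul, hst, one_mul]
    exact mx_max hB hx hq
  · rintro ⟨hp, hmax⟩
    have h1 := face_hull hB hp (fun v hv => hmax v (vtx_sub hv))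
    rw [h, convexHull_pair] at h1
    exact h1

/-- directions of edges are elementary -/
theorem edge_elem (hB : Bornology.IsBounded (Pol a b)) {y x x' : J → ℝ}
    (h : Mx a b y = {x, x'}) (hne : x ≠ x') : Elem a (x' - x) := by
  refine ⟨sub_ne_zero.2 hne.symm, fun z' hz' => ?_⟩
  have hx : x ∈ Mx a b y := by rw [h]; simp
  have hx' : x' ∈ Mx a b y := by rw [h]; simp
  have hxx : y ⬝ᵥ x = y ⬝ᵥ x' := le_antisymm (hx'.2 x hx.1) (hx.2 x' hx'.1)
  set p : J → ℝ := (1 / 2 : ℝ) • x + (1 / 2 : ℝ) • x' with hp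
  have hpP : p ∈ Pol a b :=
    pol_convex (vtx_sub hx.1) (vtx_sub hx'.1) (by norm_num) (by norm_num) (by norm_num)
  have hyp : y ⬝ᵥ p = y ⬝ᵥ x := by
    rw [hp, dotProduct_add, dotProduct_smul, dotProduct_smul, ← hxx, smul_eq_mul]
    ring
  have htight : ∀ l, a l ⬝ᵥ p = b l → a l ⬝ᵥ z' = 0 := by
    intro l hl
    apply hz'
    have h1 := vtx_sub hx.1 l
    have h2 := vtx_sub hx'.1 l
    rw [hp, dotProduct_add, dotProduct_smul, dotProduct_smul, smul_eq_mul, smul_eq_mul] at hl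
    rw [dotProduct_sub]
    linarith
  obtain ⟨ε, hε, h1⟩ := move (z := z') hpP (fun l hl => (htight l hl).le)
  obtain ⟨ε', hε', h2⟩ := move (z := -z') hpP (fun l hl => by
    rw [dotProduct_neg, htight l hl, neg_zero])
  have h3 := mx_max hB hx (h1 ε hε.le le_rfl)
  have h4 := mx_max hB hx (h2 ε' hε'.le le_rfl)
  rw [dotProduct_add, dotProduct_smul, smul_eq_mul, hyp] at h3
  rw [dotProduct_add, dotProduct_smul, dotProduct_neg, smul_eq_mul, hyp] at h4
  have hyz : y ⬝ᵥ z' = 0 := by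
    have h5 : y ⬝ᵥ z' ≤ 0 := by
      by_contra hc
      push Not at hc
      have := mul_pos hε hc
      linarith
    have h6 : 0 ≤ y ⬝ᵥ z' := by
      by_contra hc
      push Not at hc
      have := mul_pos hε' (neg_pos.2 hc)
      linarith
    linarith
  have h7 := face_hull hB (y := y) (h1 ε hε.le le_rfl) (fun v hv => by
    rw [dotProduct_add, dotProduct_smul, hyz, smul_zero, add_zero, hyp]
    exact hx.2 v hv)
  rw [h, convexHull_pair] at h7
  obtain ⟨s, t, hs, ht, hst, he⟩ := h7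
  refine ⟨(t - 1 / 2) / ε, ?_⟩
  have h8 : ε • z' = (t - 1 / 2) • (x' - x) := by
    have e1 : ε • z' = (s • x + t • x') - p := by rw [he]; simp
    rw [e1, hp]
    have hs' : s = 1 - t := by linarith
    rw [hs']
    ext j
    simp
    ring
  rw [div_eq_inv_mul, mul_smul, ← h8, smul_smul, inv_mul_cancel₀ hε.ne', one_smul]

end Pool.Agent.H695R2.Simp
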